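import Mathlib
import Pool.Agent.helper84.SG.Defs
/-! Unitary invariance of the standard complex Gaussian law on `ι → ℂ`. -/
set_option autoImplicit false
open MeasureTheory ProbabilityTheory Filter Topology
open scoped NNReal ENNReal ComplexConjugate Matrix
namespace Pool.Agent.helper13.SGC
open Pool.Agent.helper84.SG

/-- standard complex Gaussian law on `ι → ℂ` -/
noncomputable def gv (ι : Type*) [Fintype ι] : Measure (ι → ℂ) := Measure.pi fun _ => cg

instance (ι : Type*) [Fintype ι] : IsProbabilityMeasure (gv ι) := by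
  unfold gv; infer_instance

lemma char_cg (t : ℂ) :
    ∫ x, Complex.exp (Complex.I * (((conj t * x).re : ℝ) : ℂ)) ∂cg
      = Complex.exp (-(‖t‖ ^ 2 / 4 : ℝ)) := by
  unfold cg
  rw [integral_map measurable_toC.aemeasurable (by fun_prop)]
  have h1 : ∀ p : ℝ × ℝ, Complex.exp (Complex.I * (((conj t * ((p.1 : ℂ) + (p.2 : ℂ) * Complex.I)).re : ℝ) : ℂ))
      = Complex.exp (t.re * p.1 * Complex.I) * Complex.exp (t.im * p.2 * Complex.I) := by
    intro p
    rw [← Complex.exp_add]
    congr 1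
    have : (conj t * ((p.1 : ℂ) + (p.2 : ℂ) * Complex.I)).re = t.re * p.1 + t.im * p.2 := by
      simp [Complex.mul_re]
    rw [this]
    push_cast
    ring
  simp_rw [h1]
  rw [integral_prod_mul (f := fun x : ℝ => Complex.exp (t.re * x * Complex.I))
    (g := fun x : ℝ => Complex.exp (t.im * x * Complex.I))]
  have h2 : ∀ s : ℝ, ∫ x, Complex.exp (s * x * Complex.I) ∂(gaussianReal 0 (1/2))
      = Complex.exp (-(s ^ 2 / 4 : ℝ)) := by
    intro s
    have := charFun_gaussianReal (μ := 0) (v := 1/2) s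
    rw [charFun_apply_real] at this
    rw [this]
    congr 1
    push_cast
    ring
  rw [h2, h2, ← Complex.exp_add]
  congr 1
  rw [Complex.sq_norm, Complex.normSq_apply]
  push_cast
  ring

lemma char_gv {ι : Type*} [Fintype ι] (t : ι → ℂ) :
    ∫ x, Complex.exp (Complex.I * ((∑ i, (conj (t i) * x i).re : ℝ) : ℂ)) ∂(gv ι)
      = Complex.exp (-((∑ i, ‖t i‖ ^ 2) / 4 : ℝ)) := by
  unfold gv
  have h1 : ∀ x : ι → ℂ, Complex.exp (Complex.I * ((∑ i, (conj (t i) * x i).re : ℝ) : ℂ))
      = ∏ i, Complex.exp (Complex.I * (((conj (t i) * x i).re : ℝ) : ℂ)) := by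
    intro x
    rw [← Complex.exp_sum, Complex.ofReal_sum, Finset.mul_sum]
  simp_rw [h1]
  rw [integral_fintype_prod_eq_prod (f := fun i (x : ℂ) => Complex.exp (Complex.I * (((conj (t i) * x).re : ℝ) : ℂ)))]
  simp_rw [char_cg]
  rw [← Complex.exp_sum]
  congr 1
  push_cast
  rw [Finset.sum_div, Finset.sum_neg_distrib]

lemma ext_char {ι : Type*} [Fintype ι] {μ ν : Measure (ι → ℂ)} [IsFiniteMeasure μ] [IsFiniteMeasure ν]
    (h : ∀ t : ι → ℂ, ∫ x, Complex.exp (Complex.I * ((∑ i, (conj (t i) * x i).re : ℝ) : ℂ)) ∂μ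
      = ∫ x, Complex.exp (Complex.I * ((∑ i, (conj (t i) * x i).re : ℝ) : ℂ)) ∂ν) : μ = ν := by
  classical
  refine Measure.ext_of_charFunDual ?_
  ext L
  rw [charFunDual_apply, charFunDual_apply]
  have key : ∀ x : ι → ℂ, L x = ∑ i, (conj ((L (Pi.single i 1) : ℂ) + (L (Pi.single i Complex.I) : ℂ) * Complex.I) * x i).re := by
    intro x
    have hx : x = ∑ i, ((x i).re • (Pi.single i (1:ℂ) : ι → ℂ) + (x i).im • (Pi.single i Complex.I : ι → ℂ)) := by
      funext j
      simp only [Finset.sum_apply, Pi.add_apply, Pi.smul_apply]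
      rw [Finset.sum_eq_single j]
      · simp only [Pi.single_eq_same]
        rw [Complex.real_smul, Complex.real_smul, mul_one]
        exact (Complex.re_add_im (x j)).symm
      · intro i _ hij
        simp [Pi.single_eq_of_ne (Ne.symm hij)]
      · simp
    conv_lhs => rw [hx]
    rw [map_sum]
    refine Finset.sum_congr rfl fun i _ => ?_
    rw [map_add, map_smul, map_smul]
    simp [Complex.mul_re]
    ring
  have := h (fun i => (L (Pi.single i 1) : ℂ) + (L (Pi.single i Complex.I) : ℂ) * Complex.I)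
  simp_rw [← key] at this
  simp_rw [mul_comm _ Complex.I]
  exact this

/-- unitary invariance -/
theorem mp_unitary {ι : Type*} [Fintype ι] [DecidableEq ι] (U : Matrix ι ι ℂ) (hU : U * Uᴴ = 1) :
    MeasurePreserving (fun x => U *ᵥ x) (gv ι) (gv ι) := by
  have hm : Measurable (fun x : ι → ℂ => U *ᵥ x) := by
    refine measurable_pi_lambda _ fun i => ?_
    simp only [Matrix.mulVec, dotProduct]
    fun_prop
  refine ⟨hm, ?_⟩
  have : IsProbabilityMeasure ((gv ι).map (fun x => U *ᵥ x)) := Measure.isProbabilityMeasure_map hm.aemeasurable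
  refine ext_char fun t => ?_
  rw [integral_map hm.aemeasurable (by fun_prop)]
  have h1 : ∀ x : ι → ℂ, ∑ i, (conj (t i) * (U *ᵥ x) i).re = ∑ j, (conj ((Uᴴ *ᵥ t) j) * x j).re := by
    intro x
    rw [← Complex.re_sum, ← Complex.re_sum]
    congr 1
    simp only [Matrix.mulVec, dotProduct, Finset.mul_sum, map_sum, Finset.sum_mul]
    rw [Finset.sum_comm]
    refine Finset.sum_congr rfl fun j _ => Finset.sum_congr rfl fun i _ => ?_
    simp [Matrix.conjTranspose_apply]
    ring
  simp_rw [h1]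
  rw [char_gv, char_gv]
  congr 3
  have h2 : ∀ s : ι → ℂ, ((∑ i, ‖s i‖ ^ 2 : ℝ) : ℂ) = star s ⬝ᵥ s := by
    intro s
    simp only [dotProduct, Pi.star_apply]
    push_cast
    refine Finset.sum_congr rfl fun i _ => ?_
    have := Complex.conj_mul' (s i)
    rw [← this]
    rfl
  have h3 : ((∑ i, ‖(Uᴴ *ᵥ t) i‖ ^ 2 : ℝ) : ℂ) = ((∑ i, ‖t i‖ ^ 2 : ℝ) : ℂ) := by
    rw [h2, h2, Matrix.star_mulVec, ← Matrix.dotProduct_mulVec, Matrix.mulVec_mulVec,
      Matrix.conjTranspose_conjTranspose, hU, Matrix.one_mulVec]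
  exact_mod_cast congrArg (· / 4) (Complex.ofReal_injective h3)

end Pool.Agent.helper13.SGC
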