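import Mathlib
import Pool.Agent.helper13.SGC.Uni
/-! Radial laws: `|z|²` is exponential, `∑_{i ∈ I} |z_i|²` is Gamma. -/
set_option autoImplicit false
open MeasureTheory ProbabilityTheory Filter Topology
open scoped NNReal ENNReal ComplexConjugate Matrix Real
namespace Pool.Agent.helper13.SGC
open Pool.Agent.helper84.SG

lemma pdf_half (x : ℝ) : gaussianPDF 0 (1/2) x = ENNReal.ofReal ((√π)⁻¹ * Real.exp (-x^2)) := by
  unfold gaussianPDF gaussianPDFReal
  congr 1
  have h1 : (2 * π * ((1/2 : ℝ≥0) : ℝ)) = π := by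
    push_cast; ring
  have h2 : -(x - 0) ^ 2 / (2 * ((1/2 : ℝ≥0) : ℝ)) = -x^2 := by
    push_cast; ring
  rw [h1, h2]

lemma half_ne : (1/2 : ℝ≥0) ≠ 0 := by norm_num

lemma lint_sq (f : ℝ → ℝ≥0∞) :
    ∫⁻ t in Set.Ioi (0:ℝ), f t = ∫⁻ r in Set.Ioi (0:ℝ), ENNReal.ofReal (2 * r) * f (r ^ 2) := by
  have himg : (fun r : ℝ => r ^ 2) '' Set.Ioi 0 = Set.Ioi 0 := by
    ext t
    simp only [Set.mem_image, Set.mem_Ioi]
    constructor
    · rintro ⟨r, hr, rfl⟩; positivity
    · intro ht
      exact ⟨√t, Real.sqrt_pos.2 ht, Real.sq_sqrt ht.le⟩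
  have := lintegral_image_eq_lintegral_abs_deriv_mul (s := Set.Ioi (0:ℝ)) (f := fun r : ℝ => r ^ 2)
    (f' := fun r => 2 * r) measurableSet_Ioi
    (fun x _ => by simpa using (hasDerivAt_pow 2 x).hasDerivWithinAt)
    (fun a ha b hb hab => by
      simp only at hab
      rcases sq_eq_sq_iff_eq_or_eq_neg.1 hab with h | h
      · exact h
      · simp only [Set.mem_Ioi] at ha hb
        linarith) f
  rw [himg] at this
  rw [this]
  refine setLIntegral_congr_fun measurableSet_Ioi fun r hr => ?_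
  simp only [Set.mem_Ioi] at hr
  simp only [abs_of_pos (by linarith : (0:ℝ) < 2 * r)]

theorem lintegral_cg (f : ℝ → ℝ≥0∞) (hf : Measurable f) :
    ∫⁻ z, f (‖z‖ ^ 2) ∂cg = ∫⁻ t in Set.Ioi (0:ℝ), f t * ENNReal.ofReal (Real.exp (-t)) := by
  unfold cg
  rw [lintegral_map (by fun_prop) measurable_toC, gaussianReal_of_var_ne_zero 0 half_ne,
    prod_withDensity (measurable_gaussianPDF 0 _) (measurable_gaussianPDF 0 _),
    lintegral_withDensity_eq_lintegral_mul₀ (by fun_prop) (by fun_prop)]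
  have h1 : ∀ p : ℝ × ℝ, ((fun z : ℝ × ℝ => gaussianPDF 0 (1/2) z.1 * gaussianPDF 0 (1/2) z.2) *
      fun a : ℝ × ℝ => f (‖(a.1 : ℂ) + (a.2 : ℂ) * Complex.I‖ ^ 2)) p
      = ENNReal.ofReal (π⁻¹ * Real.exp (-(p.1^2 + p.2^2))) * f (p.1^2 + p.2^2) := by
    intro p
    simp only [Pi.mul_apply]
    rw [pdf_half, pdf_half, ← ENNReal.ofReal_mul (by positivity)]
    congr 2
    · rw [show (√π)⁻¹ * Real.exp (-p.1 ^ 2) * ((√π)⁻¹ * Real.exp (-p.2 ^ 2))
        = ((√π)*(√π))⁻¹ * (Real.exp (-p.1 ^ 2) * Real.exp (-p.2 ^ 2)) by rw [mul_inv]; ring]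
      rw [Real.mul_self_sqrt Real.pi_pos.le, ← Real.exp_add]
      congr 2; ring
    · rw [Complex.sq_norm, Complex.normSq_apply]
      simp
      ring
  change ∫⁻ p : ℝ × ℝ, _ = _
  simp_rw [h1]
  rw [← lintegral_comp_polarCoord_symm]
  have h2 : ∀ p : ℝ × ℝ, ENNReal.ofReal p.1 • (ENNReal.ofReal (π⁻¹ * Real.exp (-((polarCoord.symm p).1^2 + (polarCoord.symm p).2^2))) * f ((polarCoord.symm p).1^2 + (polarCoord.symm p).2^2))
      = (fun r : ℝ => ENNReal.ofReal r * (ENNReal.ofReal (π⁻¹ * Real.exp (-r^2)) * f (r^2))) p.1 * (fun _ : ℝ => (1 : ℝ≥0∞)) p.2 := by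
    intro p
    have : (polarCoord.symm p).1^2 + (polarCoord.symm p).2^2 = p.1^2 := by
      simp only [polarCoord_symm_apply]
      rw [show (p.1 * Real.cos p.2)^2 + (p.1 * Real.sin p.2)^2 = p.1^2 * (Real.cos p.2 ^ 2 + Real.sin p.2 ^ 2) by ring,
        Real.cos_sq_add_sin_sq, mul_one]
    rw [this]
    simp
  simp_rw [h2]
  rw [polarCoord_target, Measure.volume_eq_prod, ← Measure.prod_restrict,
    lintegral_prod_mul (f := fun r : ℝ => ENNReal.ofReal r * (ENNReal.ofReal (π⁻¹ * Real.exp (-r^2)) * f (r^2)))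
      (g := fun _ : ℝ => (1 : ℝ≥0∞)) (by fun_prop) (by fun_prop)]
  rw [lintegral_one, Measure.restrict_apply_univ, Real.volume_Ioo,
    lint_sq (fun t => f t * ENNReal.ofReal (Real.exp (-t)))]
  rw [← lintegral_mul_const' _ _ (by simp)]
  refine setLIntegral_congr_fun measurableSet_Ioi fun r hr => ?_
  simp only [Set.mem_Ioi] at hr
  have e1 : ENNReal.ofReal (2 * r) * (f (r ^ 2) * ENNReal.ofReal (Real.exp (-r ^ 2)))
      = f (r^2) * ENNReal.ofReal (2 * r * Real.exp (-r^2)) := by
    rw [ENNReal.ofReal_mul (by positivity : 0 ≤ 2 * r)]; ring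
  have e2 : ENNReal.ofReal r * (ENNReal.ofReal (π⁻¹ * Real.exp (-r ^ 2)) * f (r ^ 2)) * ENNReal.ofReal (π - -π)
      = f (r^2) * ENNReal.ofReal (r * (π⁻¹ * Real.exp (-r^2)) * (π - -π)) := by
    rw [ENNReal.ofReal_mul (p := r * (π⁻¹ * Real.exp (-r^2))) (by positivity), ENNReal.ofReal_mul (p := r) hr.le]; ring
  rw [e1, e2]
  congr 2
  have := Real.pi_ne_zero
  field_simp
  ring

/-- the Gamma density of integral parameter `m` -/
noncomputable def gd (m : ℕ) (t : ℝ) : ℝ≥0∞ := ENNReal.ofReal (t ^ (m - 1) / (m - 1).factorial * Real.exp (-t))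

lemma measurable_gd (m : ℕ) : Measurable (gd m) := by
  unfold gd
  fun_prop

theorem lintegral_gv_fin (m : ℕ) (f : ℝ → ℝ≥0∞) (hf : Measurable f) :
    ∫⁻ x, f (∑ i, ‖x i‖ ^ 2) ∂(gv (Fin (m + 1))) = ∫⁻ t in Set.Ioi (0:ℝ), f t * gd (m + 1) t := by
  induction m generalizing f with
  | zero =>
    have hmp := measurePreserving_funUnique cg (Fin 1)
    have := hmp.lintegral_comp (f := fun z => f (‖z‖^2)) (by fun_prop)
    unfold gv
    have hs : ∀ x : Fin (0 + 1) → ℂ, ∑ i, ‖x i‖ ^ 2 = ‖x 0‖ ^ 2 := fun x => by simp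
    simp_rw [hs]
    have h0 : (∫⁻ a, f (‖(MeasurableEquiv.funUnique (Fin 1) ℂ) a‖ ^ 2) ∂(Measure.pi fun _ => cg))
        = ∫⁻ x : Fin 1 → ℂ, f (‖x 0‖ ^ 2) ∂Measure.pi fun _ => cg := by
      rfl
    refine (h0.symm.trans this).trans ?_
    rw [lintegral_cg f hf]
    simp [gd]
  | succ m ih =>
    have hmp := measurePreserving_piFinSuccAbove (fun _ : Fin (m + 2) => cg) 0
    have h0 : ∫⁻ x, f (∑ i, ‖x i‖ ^ 2) ∂(gv (Fin (m + 2)))
        = ∫⁻ p, f (‖p.1‖ ^ 2 + ∑ i, ‖p.2 i‖ ^ 2) ∂(cg.prod (gv (Fin (m + 1)))) := by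
      have := hmp.lintegral_comp (f := fun p : ℂ × (Fin (m+1) → ℂ) => f (‖p.1‖ ^ 2 + ∑ i, ‖p.2 i‖ ^ 2)) (by fun_prop)
      unfold gv
      rw [← this]
      refine lintegral_congr fun x => ?_
      congr 1
      rw [Fin.sum_univ_succ]
      rfl
    rw [h0, lintegral_prod _ (by fun_prop)]
    have h1 : ∀ z : ℂ, ∫⁻ y, f (‖z‖ ^ 2 + ∑ i, ‖y i‖ ^ 2) ∂(gv (Fin (m+1)))
        = (fun s : ℝ => ∫⁻ t in Set.Ioi (0:ℝ), f (s + t) * gd (m + 1) t) (‖z‖^2) := by
      intro z
      exact ih (fun t => f (‖z‖^2 + t)) (by fun_prop)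
    simp_rw [h1]
    have hmeas : Measurable (fun s : ℝ => ∫⁻ t in Set.Ioi (0:ℝ), f (s + t) * gd (m + 1) t) := by
      refine Measurable.lintegral_prod_right' (f := fun p : ℝ × ℝ => f (p.1 + p.2) * gd (m+1) p.2) ?_
      have := measurable_gd (m+1)
      fun_prop
    rw [lintegral_cg _ hmeas]
    have h2 : ∀ s : ℝ, (∫⁻ t in Set.Ioi (0:ℝ), f (s + t) * gd (m + 1) t) * ENNReal.ofReal (Real.exp (-s))
        = ∫⁻ u, Set.indicator (Set.Ioi 0) (fun t => f (s + t) * gd (m + 1) t * ENNReal.ofReal (Real.exp (-s))) u := by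
      intro s
      rw [← lintegral_mul_const' _ _ (by simp), ← lintegral_indicator measurableSet_Ioi]
    have h3 : ∀ s : ℝ, ∫⁻ u, Set.indicator (Set.Ioi 0) (fun t => f (s + t) * gd (m + 1) t * ENNReal.ofReal (Real.exp (-s))) u
        = ∫⁻ u, Set.indicator (Set.Ioi 0) (fun t => f (s + t) * gd (m + 1) t * ENNReal.ofReal (Real.exp (-s))) (u - s) := by
      intro s
      exact (lintegral_sub_right_eq_self _ s).symm
    simp_rw [h2, h3]
    rw [← lintegral_indicator measurableSet_Ioi]
    have h4 : ∀ s : ℝ, Set.indicator (Set.Ioi 0) (fun s => ∫⁻ u, Set.indicator (Set.Ioi 0) (fun t => f (s + t) * gd (m + 1) t * ENNReal.ofReal (Real.exp (-s))) (u - s)) s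
      = ∫⁻ u, (if 0 < s ∧ s < u then f u * ENNReal.ofReal ((u - s)^m / m.factorial * Real.exp (-u)) else 0) := by
      intro s
      by_cases hs : 0 < s
      · rw [Set.indicator_of_mem (by simpa using hs)]
        refine lintegral_congr fun u => ?_
        by_cases hu : s < u
        · rw [Set.indicator_of_mem (by simpa using hu), if_pos ⟨hs, hu⟩]
          rw [show s + (u - s) = u by ring, mul_assoc, gd, ← ENNReal.ofReal_mul (by
            have : 0 ≤ u - s := by linarith
            positivity)]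
          congr 2
          simp only [Nat.add_sub_cancel]
          rw [mul_assoc, ← Real.exp_add]
          congr 2; ring
        · rw [Set.indicator_of_notMem (by simpa using hu), if_neg (by tauto)]
      · rw [Set.indicator_of_notMem (by simpa using hs)]
        simp [hs]
    simp_rw [h4]
    rw [lintegral_lintegral_swap]
    · rw [← lintegral_indicator measurableSet_Ioi]
      refine lintegral_congr fun u => ?_
      by_cases hu : 0 < u
      · rw [Set.indicator_of_mem (by simpa using hu)]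
        have h5 : ∀ s : ℝ, (if 0 < s ∧ s < u then f u * ENNReal.ofReal ((u - s)^m / m.factorial * Real.exp (-u)) else 0)
          = Set.indicator (Set.Ioo 0 u) (fun s => f u * ENNReal.ofReal ((u - s)^m / m.factorial * Real.exp (-u))) s := by
          intro s
          by_cases h : 0 < s ∧ s < u
          · rw [if_pos h, Set.indicator_of_mem (by simpa using h)]
          · rw [if_neg h, Set.indicator_of_notMem (by simpa using h)]
        simp_rw [h5]
        rw [lintegral_indicator measurableSet_Ioo, lintegral_const_mul _ (by fun_prop)]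
        congr 1
        rw [← ofReal_integral_eq_lintegral_ofReal]
        · rw [gd]
          congr 1
          rw [← integral_Ioc_eq_integral_Ioo, ← intervalIntegral.integral_of_le hu.le,
            intervalIntegral.integral_mul_const, intervalIntegral.integral_div]
          have : ∫ s in (0:ℝ)..u, (u - s)^m = u^(m+1)/(m+1) := by
            rw [intervalIntegral.integral_comp_sub_left (fun s => s^m) u]
            simp
          rw [this]
          simp only [Nat.add_sub_cancel]
          rw [Nat.factorial_succ]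
          push_cast
          have : (m.factorial : ℝ) ≠ 0 := by positivity
          have : ((m:ℝ)+1) ≠ 0 := by positivity
          field_simp
        · refine (Continuous.integrableOn_Icc (by fun_prop) ).mono_set Set.Ioo_subset_Icc_self
        · refine (ae_restrict_iff' measurableSet_Ioo).2 (Eventually.of_forall fun s hs => ?_)
          simp only [Set.mem_Ioo] at hs
          have : 0 ≤ u - s := by linarith
          simp only [Pi.zero_apply]
          positivity
      · rw [Set.indicator_of_notMem (by simpa using hu)]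
        have : ∀ s : ℝ, ¬ (0 < s ∧ s < u) := fun s h => hu (by linarith [h.1, h.2])
        simp [this]
    · refine Measurable.aemeasurable ?_
      refine Measurable.ite ?_ (by fun_prop) measurable_const
      exact (measurableSet_lt measurable_const measurable_fst).inter (measurableSet_lt measurable_fst measurable_snd)

end Pool.Agent.helper13.SGC
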