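import Mathlib
import Pool.Agent.helper13.SGC.Gam
/-! Hermitian quadratic forms of a standard complex Gaussian vector. -/
set_option autoImplicit false
open MeasureTheory ProbabilityTheory Filter Topology
open scoped NNReal ENNReal ComplexConjugate Matrix Real
namespace Pool.Agent.helper13.SGC
open Pool.Agent.helper84.SG

set_option linter.unusedSectionVars false

variable {ι : Type*} [Fintype ι] [DecidableEq ι]

omit [Fintype ι] [DecidableEq ι] in
lemma mp_integral {α β E : Type*} [MeasurableSpace α] [MeasurableSpace β] [NormedAddCommGroup E] [NormedSpace ℝ E]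
    {μ : Measure α} {ν : Measure β} {φ : α → β} {f : β → E} (h : MeasurePreserving φ μ ν)
    (hf : AEStronglyMeasurable f ν) : ∫ x, f (φ x) ∂μ = ∫ y, f y ∂ν := by
  have := integral_map h.measurable.aemeasurable (f := f) (by rw [h.map_eq]; exact hf)
  rw [← this, h.map_eq]

/-- real part of the quadratic form -/
noncomputable def qf (P : Matrix ι ι ℂ) (g : ι → ℂ) : ℝ := (star g ⬝ᵥ (P *ᵥ g)).re

lemma measurable_qf (P : Matrix ι ι ℂ) : Measurable (qf P) := by
  unfold qf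
  simp only [Matrix.mulVec, dotProduct, Pi.star_apply]
  fun_prop

lemma exists_diag {P : Matrix ι ι ℂ} (hP : P.IsHermitian) :
    ∃ (U : Matrix ι ι ℂ) (l : ι → ℝ), U * Uᴴ = 1 ∧ Uᴴ * U = 1 ∧
      P = Uᴴ * Matrix.diagonal (fun i => (l i : ℂ)) * U := by
  refine ⟨(hP.eigenvectorUnitary : Matrix ι ι ℂ)ᴴ, hP.eigenvalues, ?_, ?_, ?_⟩
  · rw [Matrix.conjTranspose_conjTranspose]
    exact Unitary.coe_star_mul_self hP.eigenvectorUnitary
  · rw [Matrix.conjTranspose_conjTranspose]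
    exact Unitary.coe_mul_star_self hP.eigenvectorUnitary
  · rw [Matrix.conjTranspose_conjTranspose]
    conv_lhs => rw [hP.spectral_theorem]
    rw [Unitary.conjStarAlgAut_apply]
    rfl

lemma qf_diag {P U : Matrix ι ι ℂ} {l : ι → ℝ} 
    (h : P = Uᴴ * Matrix.diagonal (fun i => (l i : ℂ)) * U) (g : ι → ℂ) :
    star g ⬝ᵥ (P *ᵥ g) = ((∑ i, l i * ‖(U *ᵥ g) i‖ ^ 2 : ℝ) : ℂ) := by
  rw [h, ← Matrix.mulVec_mulVec, ← Matrix.mulVec_mulVec, Matrix.dotProduct_mulVec,
    ← Matrix.star_mulVec]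
  generalize U *ᵥ g = w
  simp only [dotProduct, Pi.star_apply, Matrix.mulVec_diagonal]
  push_cast
  refine Finset.sum_congr rfl fun i _ => ?_
  have := Complex.conj_mul' (w i)
  rw [← this]
  simp only [RCLike.star_def]
  ring

lemma qf_eq_diag {P U : Matrix ι ι ℂ} {l : ι → ℝ} 
    (h : P = Uᴴ * Matrix.diagonal (fun i => (l i : ℂ)) * U) (g : ι → ℂ) :
    qf P g = ∑ i, l i * ‖(U *ᵥ g) i‖ ^ 2 := by
  unfold qf
  rw [qf_diag h, Complex.ofReal_re]

lemma herm_real {P : Matrix ι ι ℂ} (hP : P.IsHermitian) (g : ι → ℂ) :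
    star g ⬝ᵥ (P *ᵥ g) = (qf P g : ℂ) := by
  obtain ⟨U, l, _, _, h⟩ := exists_diag hP
  rw [qf_diag h, qf_eq_diag h]

lemma trace_diag {P U : Matrix ι ι ℂ} {l : ι → ℝ} (hU : U * Uᴴ = 1)
    (h : P = Uᴴ * Matrix.diagonal (fun i => (l i : ℂ)) * U) : P.trace = ((∑ i, l i : ℝ) : ℂ) := by
  rw [h, Matrix.trace_mul_comm, ← mul_assoc, hU, one_mul, Matrix.trace_diagonal]
  push_cast; rfl

lemma sq_diag {P U : Matrix ι ι ℂ} {l : ι → ℝ} (hU : U * Uᴴ = 1)
    (h : P = Uᴴ * Matrix.diagonal (fun i => (l i : ℂ)) * U) :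
    P * P = Uᴴ * Matrix.diagonal (fun i => ((l i ^ 2 : ℝ) : ℂ)) * U := by
  rw [h]
  calc Uᴴ * Matrix.diagonal (fun i => (l i : ℂ)) * U * (Uᴴ * Matrix.diagonal (fun i => (l i : ℂ)) * U)
      = Uᴴ * Matrix.diagonal (fun i => (l i : ℂ)) * (U * Uᴴ) * (Matrix.diagonal (fun i => (l i : ℂ)) * U) := by
        simp only [mul_assoc]
    _ = Uᴴ * (Matrix.diagonal (fun i => (l i : ℂ)) * Matrix.diagonal (fun i => (l i : ℂ))) * U := by
        rw [hU, mul_one]; simp only [mul_assoc]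
    _ = _ := by
        rw [Matrix.diagonal_mul_diagonal]
        congr 3
        funext i
        push_cast; ring

lemma proj_eigs {P U : Matrix ι ι ℂ} {l : ι → ℝ} (hU : U * Uᴴ = 1)
    (h : P = Uᴴ * Matrix.diagonal (fun i => (l i : ℂ)) * U) (hPP : P * P = P) (i : ι) :
    l i = 0 ∨ l i = 1 := by
  have h1 := sq_diag hU h
  rw [hPP] at h1
  have h2 : Matrix.diagonal (fun i => (l i : ℂ)) = Matrix.diagonal (fun i => ((l i ^ 2 : ℝ) : ℂ)) := by
    have e1 : U * P * Uᴴ = Matrix.diagonal (fun i => (l i : ℂ)) := by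
      rw [h]
      calc U * (Uᴴ * Matrix.diagonal (fun i => (l i : ℂ)) * U) * Uᴴ
          = (U * Uᴴ) * Matrix.diagonal (fun i => (l i : ℂ)) * (U * Uᴴ) := by simp only [mul_assoc]
        _ = _ := by rw [hU, one_mul, mul_one]
    have e2 : U * P * Uᴴ = Matrix.diagonal (fun i => ((l i ^ 2 : ℝ) : ℂ)) := by
      rw [h1]
      calc U * (Uᴴ * Matrix.diagonal (fun i => ((l i ^ 2 : ℝ) : ℂ)) * U) * Uᴴ
          = (U * Uᴴ) * Matrix.diagonal (fun i => ((l i ^ 2 : ℝ) : ℂ)) * (U * Uᴴ) := by simp only [mul_assoc]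
        _ = _ := by rw [hU, one_mul, mul_one]
    rw [← e1, ← e2]
  have h3 := congrFun (Matrix.diagonal_injective h2) i
  have h4 : l i = l i ^ 2 := Complex.ofReal_injective h3
  have h5 : l i * (l i - 1) = 0 := by nlinarith
  rcases mul_eq_zero.1 h5 with h | h
  · left; exact h
  · right; linarith

/-- projection onto injectively indexed coordinates -/
lemma mp_proj {κ : Type*} [Fintype κ] (f : κ → ι) (hf : Function.Injective f) :
    MeasurePreserving (fun (x : ι → ℂ) (k : κ) => x (f k)) (gv ι) (gv κ) := by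
  refine ⟨by fun_prop, ?_⟩
  have := Measure.map_infinitePi_infinitePi_of_inj (P := fun _ : ι => cg) hf
  rw [Measure.infinitePi_eq_pi, Measure.infinitePi_eq_pi] at this
  exact this

/-- the law of the squared norm of the projection of a Gaussian vector -/
theorem law_proj {P : Matrix ι ι ℂ} (hP : P.IsHermitian) (hPP : P * P = P) {m : ℕ}
    (hm : P.trace = (m + 1 : ℕ)) (f : ℝ → ℝ≥0∞) (hf : Measurable f) :
    ∫⁻ g, f (qf P g) ∂(gv ι) = ∫⁻ t in Set.Ioi (0:ℝ), f t * gd (m + 1) t := by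
  obtain ⟨U, l, hU, hU', h⟩ := exists_diag hP
  have h01 := proj_eigs hU h hPP
  simp_rw [qf_eq_diag h]
  have h1 := (mp_unitary U hU).lintegral_comp (f := fun x : ι → ℂ => f (∑ i, l i * ‖x i‖ ^ 2)) (by fun_prop)
  rw [h1]
  have hcard : Fintype.card {i // l i = 1} = m + 1 := by
    have e1 := trace_diag hU h
    rw [hm] at e1
    have e2 : ((m + 1 : ℕ) : ℝ) = ∑ i, l i := by exact_mod_cast e1
    have e3 : ∑ i, l i = ∑ i, if l i = 1 then (1:ℝ) else 0 := by
      refine Finset.sum_congr rfl fun i _ => ?_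
      rcases h01 i with h | h <;> simp [h]
    rw [e3, Finset.sum_boole] at e2
    rw [Fintype.card_subtype]
    exact_mod_cast e2.symm
  let e : Fin (m + 1) ≃ {i // l i = 1} := (Fintype.equivFinOfCardEq hcard).symm
  have hmp := mp_proj (ι := ι) (fun k : Fin (m + 1) => ((e k : {i // l i = 1}) : ι))
    (Subtype.val_injective.comp e.injective)
  have h2 := hmp.lintegral_comp (f := fun x : Fin (m + 1) → ℂ => f (∑ i, ‖x i‖ ^ 2)) (by fun_prop)
  rw [← lintegral_gv_fin m f hf, ← h2]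
  refine lintegral_congr fun x => ?_
  congr 1
  have e4 : ∀ i, l i * ‖x i‖ ^ 2 = if l i = 1 then ‖x i‖ ^ 2 else 0 := by
    intro i
    rcases h01 i with h | h <;> simp [h]
  simp_rw [e4]
  rw [← Finset.sum_filter, Finset.sum_subtype (p := fun i => l i = 1) _ (by simp) (fun i => ‖x i‖ ^ 2)]
  exact (Equiv.sum_comp e (fun j : {i // l i = 1} => ‖x j‖ ^ 2)).symm

/-- positivity almost surely -/
theorem qf_pos_ae {P : Matrix ι ι ℂ} (hP : P.IsHermitian) (hPP : P * P = P) {m : ℕ}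
    (hm : P.trace = (m + 1 : ℕ)) : ∀ᵐ g ∂(gv ι), 0 < qf P g := by
  have h := law_proj hP hPP hm (Set.indicator (Set.Iic 0) 1) (measurable_one.indicator measurableSet_Iic)
  have h0 : ∫⁻ t in Set.Ioi (0:ℝ), (Set.indicator (Set.Iic 0) (1 : ℝ → ℝ≥0∞)) t * gd (m + 1) t = 0 := by
    rw [setLIntegral_congr_fun (g := fun _ => 0) measurableSet_Ioi]
    · simp
    · intro t ht
      simp only [Set.mem_Ioi] at ht
      simp [ht]
  rw [h0] at h
  replace h := (lintegral_eq_zero_iff ((measurable_one.indicator measurableSet_Iic).comp (measurable_qf P))).1 h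
  filter_upwards [h] with g hg
  by_contra hneg
  simp only [Function.comp_apply, Pi.zero_apply, Set.indicator_apply_eq_zero, Set.mem_Iic, Pi.one_apply, one_ne_zero, imp_false] at hg
  exact hg (not_lt.1 hneg)

lemma gamma_lint {a : ℝ} (ha : 0 < a) :
    ∫⁻ t in Set.Ioi (0:ℝ), ENNReal.ofReal (Real.exp (-t) * t ^ (a - 1)) = ENNReal.ofReal (Real.Gamma a) := by
  rw [Real.Gamma_eq_integral ha, ofReal_integral_eq_lintegral_ofReal]
  · exact Real.GammaIntegral_convergent ha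
  · refine (ae_restrict_iff' measurableSet_Ioi).2 (Eventually.of_forall fun s hs => ?_)
    simp only [Set.mem_Ioi] at hs
    simp only [Pi.zero_apply]
    positivity

lemma gd_mom (m : ℕ) {s : ℝ} (hs : 0 ≤ s) :
    ∫⁻ t in Set.Ioi (0:ℝ), ENNReal.ofReal (t ^ s) * gd (m + 1) t
      = ENNReal.ofReal (Real.Gamma ((m:ℝ) + 1 + s) / Real.Gamma ((m:ℝ) + 1)) := by
  have h1 : ∀ t ∈ Set.Ioi (0:ℝ), ENNReal.ofReal (t ^ s) * gd (m + 1) t
      = ENNReal.ofReal (Real.exp (-t) * t ^ (((m:ℝ) + 1 + s) - 1)) * ENNReal.ofReal ((m.factorial : ℝ)⁻¹) := by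
    intro t ht
    simp only [Set.mem_Ioi] at ht
    rw [gd, ← ENNReal.ofReal_mul (by positivity), ← ENNReal.ofReal_mul (by positivity)]
    congr 1
    rw [show ((m:ℝ) + 1 + s) - 1 = s + m by ring, Real.rpow_add ht, Real.rpow_natCast]
    simp only [Nat.add_sub_cancel]
    ring
  rw [setLIntegral_congr_fun measurableSet_Ioi h1, lintegral_mul_const' _ _ (by simp),
    gamma_lint (by positivity), ← ENNReal.ofReal_mul (Real.Gamma_nonneg_of_nonneg (by positivity)), Real.Gamma_nat_eq_factorial]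
  rfl

/-- moments -/
theorem mom_proj {P : Matrix ι ι ℂ} (hP : P.IsHermitian) (hPP : P * P = P) {m : ℕ}
    (hm : P.trace = (m + 1 : ℕ)) {s : ℝ} (hs : 0 ≤ s) :
    Integrable (fun g => (qf P g) ^ s) (gv ι) ∧
      ∫ g, (qf P g) ^ s ∂(gv ι) = Real.Gamma ((m:ℝ) + 1 + s) / Real.Gamma ((m:ℝ) + 1) := by
  have hl := law_proj hP hPP hm (fun t => ENNReal.ofReal (t ^ s)) (by fun_prop)
  rw [gd_mom m hs] at hl
  have hpos : 0 ≤ᵐ[gv ι] fun g => (qf P g) ^ s := by
    filter_upwards [qf_pos_ae hP hPP hm] with g hg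
    simp only [Pi.zero_apply]
    positivity
  have hme : AEStronglyMeasurable (fun g => (qf P g) ^ s) (gv ι) :=
    ((measurable_qf P).pow_const s).aestronglyMeasurable
  constructor
  · refine (lintegral_ofReal_ne_top_iff_integrable hme hpos).1 ?_
    rw [hl]; simp
  · rw [integral_eq_lintegral_of_nonneg_ae hpos hme, hl, ENNReal.toReal_ofReal]
    exact div_nonneg (Real.Gamma_nonneg_of_nonneg (by positivity)) (Real.Gamma_nonneg_of_nonneg (by positivity))

/-- integer moments -/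
theorem mom_proj_nat {P : Matrix ι ι ℂ} (hP : P.IsHermitian) (hPP : P * P = P) {m : ℕ}
    (hm : P.trace = (m + 1 : ℕ)) (k : ℕ) :
    Integrable (fun g => (qf P g) ^ k) (gv ι) ∧
      ∫ g, (qf P g) ^ k ∂(gv ι) = ∏ i ∈ Finset.range k, ((m:ℝ) + 1 + i) := by
  have h := mom_proj hP hPP hm (s := k) (by positivity)
  simp only [Real.rpow_natCast] at h
  refine ⟨h.1, h.2.trans ?_⟩
  have : ∀ k : ℕ, Real.Gamma ((m:ℝ) + 1 + k) = (∏ i ∈ Finset.range k, ((m:ℝ) + 1 + i)) * Real.Gamma ((m:ℝ)+1) := by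
    intro k
    induction k with
    | zero => simp
    | succ k ih =>
      rw [Finset.prod_range_succ]
      push_cast
      rw [← add_assoc, Real.Gamma_add_one (by positivity), ih]
      ring
  rw [this, mul_div_assoc, div_self (Real.Gamma_pos_of_pos (by positivity)).ne', mul_one]


lemma cg_mom (k : ℕ) :
    Integrable (fun z => (‖z‖ ^ 2) ^ k) cg ∧ ∫ z, (‖z‖ ^ 2) ^ k ∂cg = (k.factorial : ℝ) := by
  have hl := lintegral_cg (fun t => ENNReal.ofReal (t ^ k)) (by fun_prop)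
  have h1 : ∫⁻ t in Set.Ioi (0:ℝ), ENNReal.ofReal (t ^ k) * ENNReal.ofReal (Real.exp (-t))
      = ENNReal.ofReal (k.factorial : ℝ) := by
    rw [← Real.Gamma_nat_eq_factorial, ← gamma_lint (by positivity)]
    refine setLIntegral_congr_fun measurableSet_Ioi fun t ht => ?_
    simp only [Set.mem_Ioi] at ht
    rw [← ENNReal.ofReal_mul (by positivity)]
    congr 1
    rw [add_sub_cancel_right, Real.rpow_natCast, mul_comm]
  rw [h1] at hl
  have hpos : 0 ≤ᵐ[cg] fun z => (‖z‖ ^ 2) ^ k := Eventually.of_forall fun z => by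
    simp only [Pi.zero_apply]; positivity
  have hme : AEStronglyMeasurable (fun z : ℂ => (‖z‖ ^ 2) ^ k) cg := by fun_prop
  constructor
  · refine (lintegral_ofReal_ne_top_iff_integrable hme hpos).1 ?_
    rw [hl]; simp
  · rw [integral_eq_lintegral_of_nonneg_ae hpos hme, hl, ENNReal.toReal_ofReal (by positivity)]

lemma mp_eval (i : ι) : MeasurePreserving (fun x : ι → ℂ => x i) (gv ι) cg :=
  measurePreserving_eval (fun _ : ι => cg) i

lemma int_one (i : ι) : Integrable (fun x : ι → ℂ => ‖x i‖ ^ 2) (gv ι) ∧ ∫ x, ‖x i‖ ^ 2 ∂(gv ι) = 1 := by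
  have h := cg_mom 1
  simp only [pow_one, Nat.factorial_one, Nat.cast_one] at h
  have hme : AEStronglyMeasurable (fun z : ℂ => ‖z‖ ^ 2) cg := by fun_prop
  constructor
  · exact (mp_eval i).integrable_comp_of_integrable h.1
  · rw [← h.2, ← (mp_eval (ι := ι) i).map_eq, integral_map (mp_eval i).measurable.aemeasurable (by fun_prop)]

lemma int_two (i j : ι) : Integrable (fun x : ι → ℂ => ‖x i‖ ^ 2 * ‖x j‖ ^ 2) (gv ι) ∧
    ∫ x, ‖x i‖ ^ 2 * ‖x j‖ ^ 2 ∂(gv ι) = 1 + (if i = j then 1 else 0) := by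
  by_cases hij : i = j
  · subst hij
    have h := cg_mom 2
    have e : ∀ x : ℂ, ‖x‖ ^ 2 * ‖x‖ ^ 2 = (‖x‖ ^ 2) ^ 2 := fun x => by ring
    simp_rw [e]
    constructor
    · exact (mp_eval i).integrable_comp_of_integrable h.1
    · have := h.2
      rw [← (mp_eval (ι := ι) i).map_eq, integral_map (mp_eval i).measurable.aemeasurable (by fun_prop)] at this
      rw [this]
      norm_num [Nat.factorial]
  · have hm := Measure.infinitePi_map_eval_prod (P := fun _ : ι => cg) hij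
    rw [Measure.infinitePi_eq_pi] at hm
    have h := cg_mom 1
    simp only [pow_one, Nat.factorial_one, Nat.cast_one] at h
    have h2 : Integrable (fun p : ℂ × ℂ => ‖p.1‖ ^ 2 * ‖p.2‖ ^ 2) (cg.prod cg) := h.1.mul_prod h.1
    have hmp : MeasurePreserving (fun x : ι → ℂ => (x i, x j)) (gv ι) (cg.prod cg) := ⟨by fun_prop, hm⟩
    constructor
    · exact hmp.integrable_comp_of_integrable h2
    · have e1 : ∫ p : ℂ × ℂ, ‖p.1‖ ^ 2 * ‖p.2‖ ^ 2 ∂(cg.prod cg) = 1 := by
        rw [integral_prod_mul (f := fun z : ℂ => ‖z‖ ^ 2) (g := fun z : ℂ => ‖z‖ ^ 2), h.2]; norm_num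
      rw [← hmp.map_eq, integral_map hmp.measurable.aemeasurable (by fun_prop)] at e1
      rw [e1, if_neg hij, add_zero]

/-- first and second moments of Hermitian forms -/
theorem herm_mom {M : Matrix ι ι ℂ} (hM : M.IsHermitian) :
    Integrable (fun g => qf M g) (gv ι) ∧ Integrable (fun g => (qf M g) ^ 2) (gv ι) ∧
    ∫ g, qf M g ∂(gv ι) = M.trace.re ∧
    ∫ g, (qf M g) ^ 2 ∂(gv ι) = M.trace.re ^ 2 + (M * M).trace.re := by
  obtain ⟨U, l, hU, hU', h⟩ := exists_diag hM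
  have t1 : M.trace.re = ∑ i, l i := by rw [trace_diag hU h, Complex.ofReal_re]
  have t2 : (M * M).trace.re = ∑ i, l i ^ 2 := by rw [trace_diag hU (sq_diag hU h), Complex.ofReal_re]
  have hmp := mp_unitary U hU
  have hi1 : Integrable (fun x : ι → ℂ => ∑ i, l i * ‖x i‖ ^ 2) (gv ι) :=
    integrable_finsetSum _ fun i _ => (int_one i).1.const_mul _
  have e2 : ∀ x : ι → ℂ, (∑ i, l i * ‖x i‖ ^ 2) ^ 2 = ∑ i, ∑ j, (l i * l j) * (‖x i‖ ^ 2 * ‖x j‖ ^ 2) := by
    intro x
    rw [sq, Finset.sum_mul_sum]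
    refine Finset.sum_congr rfl fun i _ => Finset.sum_congr rfl fun j _ => by ring
  have hi2 : Integrable (fun x : ι → ℂ => (∑ i, l i * ‖x i‖ ^ 2) ^ 2) (gv ι) := by
    simp_rw [e2]
    exact integrable_finsetSum _ fun i _ => integrable_finsetSum _ fun j _ => (int_two i j).1.const_mul _
  simp_rw [qf_eq_diag h]
  refine ⟨hmp.integrable_comp_of_integrable hi1, hmp.integrable_comp_of_integrable hi2, ?_, ?_⟩
  · have e : ∫ g, ∑ i, l i * ‖(U *ᵥ g) i‖ ^ 2 ∂(gv ι) = ∫ x, ∑ i, l i * ‖x i‖ ^ 2 ∂(gv ι) := by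
      exact mp_integral hmp hi1.aestronglyMeasurable
    rw [e, integral_finsetSum _ (fun i _ => (int_one i).1.const_mul _), t1]
    refine Finset.sum_congr rfl fun i _ => ?_
    rw [integral_const_mul, (int_one i).2, mul_one]
  · have e : ∫ g, (∑ i, l i * ‖(U *ᵥ g) i‖ ^ 2) ^ 2 ∂(gv ι) = ∫ x, (∑ i, l i * ‖x i‖ ^ 2) ^ 2 ∂(gv ι) := by
      exact mp_integral hmp hi2.aestronglyMeasurable
    rw [e]
    simp_rw [e2]
    rw [integral_finsetSum _ (fun i _ => integrable_finsetSum _ fun j _ => (int_two i j).1.const_mul _), t1, t2,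
      sq, Finset.sum_mul_sum, ← Finset.sum_add_distrib]
    refine Finset.sum_congr rfl fun i _ => ?_
    rw [integral_finsetSum _ (fun j _ => (int_two i j).1.const_mul _)]
    have e3 : ∀ j, ∫ a, l i * l j * (‖a i‖ ^ 2 * ‖a j‖ ^ 2) ∂(gv ι) = l i * l j + (if i = j then l i * l j else 0) := by
      intro j
      rw [integral_const_mul, (int_two i j).2]
      split_ifs <;> ring
    simp_rw [e3]
    rw [Finset.sum_add_distrib, Finset.sum_ite_eq]
    simp
    ring

end Pool.Agent.helper13.SGC
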