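import Mathlib
import Pool.Agent.helper13.SGC.Herm
/-! Recursive orthogonal projections and Gram determinants. -/
set_option autoImplicit false
open MeasureTheory ProbabilityTheory Filter Topology
open scoped NNReal ENNReal ComplexConjugate Matrix Real
namespace Pool.Agent.helper13.SGC
open Pool.Agent.helper84.SG

variable {n : ℕ}

/-- one step of the Gram-Schmidt recursion -/
noncomputable def step (P : Matrix (Fin n) (Fin n) ℂ) (g : Fin n → ℂ) : Matrix (Fin n) (Fin n) ℂ :=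
  P - (((qf P g)⁻¹ : ℝ) : ℂ) • Matrix.vecMulVec (P *ᵥ g) (star (P *ᵥ g))

/-- the orthogonal projection onto the orthocomplement of the first `k` vectors -/
noncomputable def PG : (k : ℕ) → (Fin k → Fin n → ℂ) → Matrix (Fin n) (Fin n) ℂ
  | 0, _ => 1
  | k + 1, G => step (PG k (Fin.init G)) (G (Fin.last k))

/-- product of the squared distances -/
noncomputable def pr : (k : ℕ) → (Fin k → Fin n → ℂ) → ℝ
  | 0, _ => 1
  | k + 1, G => pr k (Fin.init G) * qf (PG k (Fin.init G)) (G (Fin.last k))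

/-- Hermitian projections -/
def IsPr (P : Matrix (Fin n) (Fin n) ℂ) : Prop := P.IsHermitian ∧ P * P = P

lemma IsPr.mulVec_mulVec {P : Matrix (Fin n) (Fin n) ℂ} (h : IsPr P) (g : Fin n → ℂ) :
    P *ᵥ (P *ᵥ g) = P *ᵥ g := by
  rw [Matrix.mulVec_mulVec, h.2]

lemma IsPr.star_mulVec {P : Matrix (Fin n) (Fin n) ℂ} (h : IsPr P) (g v : Fin n → ℂ) :
    star (P *ᵥ g) ⬝ᵥ v = star g ⬝ᵥ (P *ᵥ v) := by
  rw [Matrix.star_mulVec, h.1.eq, Matrix.dotProduct_mulVec]

lemma IsPr.norm_sq {P : Matrix (Fin n) (Fin n) ℂ} (h : IsPr P) (g : Fin n → ℂ) :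
    star (P *ᵥ g) ⬝ᵥ (P *ᵥ g) = (qf P g : ℂ) := by
  rw [h.star_mulVec, h.mulVec_mulVec, herm_real h.1]

lemma self_dot (w : Fin n → ℂ) : star w ⬝ᵥ w = ((∑ i, ‖w i‖ ^ 2 : ℝ) : ℂ) := by
  simp only [dotProduct, Pi.star_apply]
  push_cast
  refine Finset.sum_congr rfl fun i _ => ?_
  have := Complex.conj_mul' (w i)
  rw [← this]
  rfl

lemma IsPr.qf_eq {P : Matrix (Fin n) (Fin n) ℂ} (h : IsPr P) (g : Fin n → ℂ) :
    qf P g = ∑ i, ‖(P *ᵥ g) i‖ ^ 2 := by
  have := h.norm_sq g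
  rw [self_dot] at this
  exact (Complex.ofReal_injective this).symm

lemma IsPr.qf_nonneg {P : Matrix (Fin n) (Fin n) ℂ} (h : IsPr P) (g : Fin n → ℂ) : 0 ≤ qf P g := by
  rw [h.qf_eq]; positivity

lemma IsPr.qf_zero {P : Matrix (Fin n) (Fin n) ℂ} (h : IsPr P) {g : Fin n → ℂ} (h0 : qf P g = 0) :
    P *ᵥ g = 0 := by
  rw [h.qf_eq, Finset.sum_eq_zero_iff_of_nonneg (fun i _ => by positivity)] at h0
  funext i
  have := h0 i (Finset.mem_univ i)
  simpa using this

lemma IsPr.one : IsPr (1 : Matrix (Fin n) (Fin n) ℂ) := ⟨Matrix.isHermitian_one, mul_one _⟩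

lemma step_mulVec (P : Matrix (Fin n) (Fin n) ℂ) (g v : Fin n → ℂ) :
    step P g *ᵥ v = P *ᵥ v - ((((qf P g)⁻¹ : ℝ) : ℂ) * (star (P *ᵥ g) ⬝ᵥ v)) • (P *ᵥ g) := by
  unfold step
  rw [Matrix.sub_mulVec, Matrix.smul_mulVec, Matrix.vecMulVec_mulVec]
  simp [smul_smul]

lemma IsPr.step {P : Matrix (Fin n) (Fin n) ℂ} (h : IsPr P) (g : Fin n → ℂ) : IsPr (step P g) := by
  constructor
  · unfold SGC.step Matrix.IsHermitian
    rw [Matrix.conjTranspose_sub, Matrix.conjTranspose_smul, h.1.eq, Matrix.conjTranspose_vecMulVec]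
    simp
  · refine Matrix.ext_iff_mulVec.2 fun v => ?_
    rw [← Matrix.mulVec_mulVec]
    rw [step_mulVec, step_mulVec, Matrix.mulVec_sub, Matrix.mulVec_smul, h.mulVec_mulVec, h.mulVec_mulVec,
      dotProduct_sub, dotProduct_smul, h.norm_sq, h.star_mulVec g (P *ᵥ v), h.mulVec_mulVec, ← h.star_mulVec]
    by_cases hq : qf P g = 0
    · simp [hq]
    · have e : ((((qf P g)⁻¹ : ℝ) : ℂ) * (star (P *ᵥ g) ⬝ᵥ v)) • (qf P g : ℂ) = star (P *ᵥ g) ⬝ᵥ v := by
        rw [smul_eq_mul]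
        push_cast
        have : (qf P g : ℂ) ≠ 0 := by exact_mod_cast hq
        field_simp
      rw [e, sub_self, mul_zero, zero_smul, sub_zero]

lemma trace_step {P : Matrix (Fin n) (Fin n) ℂ} (h : IsPr P) {g : Fin n → ℂ} (hg : qf P g ≠ 0) :
    (step P g).trace = P.trace - 1 := by
  unfold step
  rw [Matrix.trace_sub, Matrix.trace_smul, Matrix.trace_vecMulVec, dotProduct_comm, h.norm_sq, smul_eq_mul]
  have : (qf P g : ℂ) ≠ 0 := by exact_mod_cast hg
  push_cast
  field_simp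

lemma step_self {P : Matrix (Fin n) (Fin n) ℂ} (h : IsPr P) (g : Fin n → ℂ) : step P g *ᵥ g = 0 := by
  rw [step_mulVec, h.star_mulVec, herm_real h.1]
  by_cases hq : qf P g = 0
  · rw [h.qf_zero hq]; simp
  · have : (qf P g : ℂ) ≠ 0 := by exact_mod_cast hq
    push_cast
    rw [inv_mul_cancel₀ this, one_smul, sub_self]

lemma step_kill {P : Matrix (Fin n) (Fin n) ℂ} (h : IsPr P) (g : Fin n → ℂ) {v : Fin n → ℂ}
    (hv : P *ᵥ v = 0) : step P g *ᵥ v = 0 := by
  rw [step_mulVec, h.star_mulVec, hv]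
  simp

lemma isPr_PG (k : ℕ) (G : Fin k → Fin n → ℂ) : IsPr (PG k G) := by
  induction k with
  | zero => exact IsPr.one
  | succ k ih => exact (ih _).step _

lemma PG_kill (k : ℕ) (G : Fin k → Fin n → ℂ) (i : Fin k) : PG k G *ᵥ (G i) = 0 := by
  induction k with
  | zero => exact i.elim0
  | succ k ih =>
    rw [PG]
    rcases Fin.eq_castSucc_or_eq_last i with ⟨j, rfl⟩ | rfl
    · exact step_kill (isPr_PG _ _) _ (ih (Fin.init G) j)
    · exact step_self (isPr_PG _ _) _

lemma PG_span (k : ℕ) (G : Fin k → Fin n → ℂ) (w : Fin n → ℂ) :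
    ∃ x : Fin k → ℂ, w - PG k G *ᵥ w = ∑ i, x i • G i := by
  induction k generalizing w with
  | zero => exact ⟨fun _ => 0, by simp [PG]⟩
  | succ k ih =>
    obtain ⟨x, hx⟩ := ih (Fin.init G) w
    obtain ⟨y, hy⟩ := ih (Fin.init G) (G (Fin.last k))
    set a : ℂ := ((((qf (PG k (Fin.init G)) (G (Fin.last k)))⁻¹ : ℝ) : ℂ) *
      (star (PG k (Fin.init G) *ᵥ G (Fin.last k)) ⬝ᵥ w)) with ha
    refine ⟨Fin.snoc (fun i => x i - a * y i) a, ?_⟩
    rw [PG, step_mulVec, ← ha, Fin.sum_univ_castSucc]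
    simp only [Fin.snoc_castSucc, Fin.snoc_last]
    have e1 : PG k (Fin.init G) *ᵥ G (Fin.last k) = G (Fin.last k) - ∑ i, y i • (Fin.init G) i := by
      rw [← hy]; abel
    have e2 : ∑ i : Fin k, (x i - a * y i) • G (Fin.castSucc i)
        = ∑ i, x i • (Fin.init G) i - a • ∑ i, y i • (Fin.init G) i := by
      rw [Finset.smul_sum, ← Finset.sum_sub_distrib]
      refine Finset.sum_congr rfl fun i _ => ?_
      rw [sub_smul, mul_smul]
      rfl
    rw [e2, ← hx, e1, smul_sub]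
    abel

/-- Gram determinant -/
noncomputable def gr {k : ℕ} (G : Fin k → Fin n → ℂ) : ℂ :=
  (Matrix.of fun i j => star (G i) ⬝ᵥ G j).det

lemma gr_succ {k : ℕ} (G : Fin (k + 1) → Fin n → ℂ) :
    gr G = gr (Fin.init G) * (qf (PG k (Fin.init G)) (G (Fin.last k)) : ℂ) := by
  obtain ⟨x, hx⟩ := PG_span k (Fin.init G) (G (Fin.last k))
  set P := PG k (Fin.init G) with hP
  set g := G (Fin.last k) with hg
  have hPr : IsPr P := isPr_PG _ _
  set A : Matrix (Fin (k + 1)) (Fin (k + 1)) ℂ := Matrix.of fun i j => star (G i) ⬝ᵥ G j with hA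
  have hkill : ∀ i : Fin k, star (G (Fin.castSucc i)) ⬝ᵥ (P *ᵥ g) = 0 := by
    intro i
    rw [← hPr.star_mulVec]
    have : P *ᵥ G (Fin.castSucc i) = 0 := PG_kill k (Fin.init G) i
    rw [this]; simp
  have hcol : (fun i => A i (Fin.last k)) = (fun i => ∑ j : Fin (k+1), (Fin.snoc x (0:ℂ) : Fin (k+1) → ℂ) j • A i j)
      + Pi.single (Fin.last k) (qf P g : ℂ) := by
    funext i
    rw [Pi.add_apply, Fin.sum_univ_castSucc]
    simp only [Fin.snoc_castSucc, Fin.snoc_last, zero_smul, add_zero, hA, Matrix.of_apply]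
    have e1 : G (Fin.last k) = ∑ j, x j • G (Fin.castSucc j) + P *ᵥ g := by
      have : g = (g - P *ᵥ g) + P *ᵥ g := by abel
      rw [hx] at this
      exact this
    conv_lhs => rw [e1]
    rw [dotProduct_add, dotProduct_sum]
    simp only [dotProduct_smul]
    congr 1
    rcases Fin.eq_castSucc_or_eq_last i with ⟨j, rfl⟩ | rfl
    · rw [hkill, Pi.single_eq_of_ne (Fin.castSucc_lt_last j).ne]
    · rw [Pi.single_eq_same]
      exact herm_real hPr.1 g
  have hdet : A.det = (A.updateCol (Fin.last k) (Pi.single (Fin.last k) (qf P g : ℂ))).det := by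
    have h1 : A = A.updateCol (Fin.last k) (fun i => A i (Fin.last k)) := by
      rw [Matrix.updateCol_eq_self]
    conv_lhs => rw [h1, hcol, Matrix.det_updateCol_add]
    have h2 := Matrix.det_updateCol_sum A (Fin.last k) (Fin.snoc x (0:ℂ) : Fin (k+1) → ℂ)
    rw [Fin.snoc_last, zero_smul] at h2
    rw [h2, zero_add]
  change A.det = _
  rw [hdet, Matrix.det_succ_column _ (Fin.last k), Fin.sum_univ_castSucc]
  rw [Finset.sum_eq_zero, zero_add]
  · simp only [Matrix.updateCol_self, Pi.single_eq_same]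
    have h3 : (-1 : ℂ) ^ (((Fin.last k : Fin (k+1)) : ℕ) + ((Fin.last k : Fin (k+1)) : ℕ)) = 1 := by
      rw [← two_mul, pow_mul]; simp
    rw [h3, one_mul, mul_comm]
    congr 1
    unfold gr
    congr 1
    ext i j
    simp only [Matrix.submatrix_apply, Fin.succAbove_last, Matrix.of_apply]
    rw [Matrix.updateCol_ne (Fin.castSucc_lt_last j).ne]
    rfl
  · intro i _
    rw [Matrix.updateCol_self, Pi.single_eq_of_ne (Fin.castSucc_lt_last i).ne]
    simp

lemma gr_eq (k : ℕ) (G : Fin k → Fin n → ℂ) : gr G = (pr k G : ℂ) := by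
  induction k with
  | zero => simp [gr, pr]
  | succ k ih =>
    rw [gr_succ, ih, pr]
    push_cast; rfl

lemma pr_nonneg (k : ℕ) (G : Fin k → Fin n → ℂ) : 0 ≤ pr k G := by
  induction k with
  | zero => simp [pr]
  | succ k ih => exact mul_nonneg (ih _) ((isPr_PG _ _).qf_nonneg _)

lemma trace_PG (k : ℕ) (G : Fin k → Fin n → ℂ) (h : pr k G ≠ 0) : (PG k G).trace = (n : ℂ) - k := by
  induction k with
  | zero => simp [PG]
  | succ k ih =>
    rw [pr] at h
    rw [PG, trace_step (isPr_PG _ _) (right_ne_zero_of_mul h), ih _ (left_ne_zero_of_mul h)]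
    push_cast; ring

/-- `g(e) = α b - β a` -/
noncomputable def ge (e : ℂ × ℂ) (x : (Fin n → ℂ) × (Fin n → ℂ)) : Fin n → ℂ := e.1 • x.2 - e.2 • x.1

lemma measurable_ge (e : ℂ × ℂ) : Measurable (ge e : (Fin n → ℂ) × (Fin n → ℂ) → Fin n → ℂ) := by
  unfold ge
  fun_prop

lemma measurable_PG {α : Type*} [MeasurableSpace α] (k : ℕ) (G : α → Fin k → Fin n → ℂ) (hG : Measurable G)
    (i j : Fin n) : Measurable (fun a => PG k (G a) i j) := by
  induction k generalizing i j with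
  | zero => exact measurable_const
  | succ k ih =>
    have h1 : ∀ i j, Measurable (fun a => PG k (Fin.init (G a)) i j) := fun i j =>
      ih (fun a => Fin.init (G a)) (by unfold Fin.init; fun_prop) i j
    have h2 : ∀ i, Measurable (fun a => (PG k (Fin.init (G a)) *ᵥ G a (Fin.last k)) i) := by
      intro i
      simp only [Matrix.mulVec, dotProduct]
      fun_prop
    have h3 : Measurable (fun a => qf (PG k (Fin.init (G a))) (G a (Fin.last k))) := by
      simp only [qf, dotProduct, Pi.star_apply]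
      fun_prop
    simp only [PG, step, Matrix.sub_apply, Matrix.smul_apply, Matrix.vecMulVec_apply, Pi.star_apply, smul_eq_mul]
    fun_prop

end Pool.Agent.helper13.SGC
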