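import Mathlib
import Pool.Agent.helper13.SGC.LA
/-! Columns of the Gaussian pencil. -/
set_option autoImplicit false
open MeasureTheory ProbabilityTheory Filter Topology
open scoped NNReal ENNReal ComplexConjugate Matrix Real
namespace Pool.Agent.helper13.SGC
open Pool.Agent.helper84.SG

/-- a column of the pencil -/
abbrev Col (n : ℕ) := (Fin n → ℂ) × (Fin n → ℂ)

/-- law of a column -/
noncomputable def kap (n : ℕ) : Measure (Col n) := (gv (Fin n)).prod (gv (Fin n))

instance (n : ℕ) : IsProbabilityMeasure (kap n) := by unfold kap; infer_instance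

/-- law of the first `k` columns -/
noncomputable def mu (n k : ℕ) : Measure (Fin k → Col n) := Measure.pi fun _ => kap n

instance (n k : ℕ) : IsProbabilityMeasure (mu n k) := by unfold mu; infer_instance

variable {n : ℕ}

/-- the first `k` columns of the pencil -/
def cols {k : ℕ} (hk : k ≤ n) (M : (Fin n → Fin n → ℂ) × (Fin n → Fin n → ℂ)) : Fin k → Col n :=
  fun j => (fun i => M.1 i (Fin.castLE hk j), fun i => M.2 i (Fin.castLE hk j))

lemma mp_transpose (m n : ℕ) :
    MeasurePreserving (fun (M : Fin m → Fin n → ℂ) (j : Fin n) (i : Fin m) => M i j) (gin m n)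
      (Measure.pi fun _ : Fin n => gv (Fin m)) := by
  have h1 : MeasurePreserving (MeasurableEquiv.curry (Fin m) (Fin n) ℂ).symm (gin m n)
      (Measure.infinitePi fun _ : Fin m × Fin n => cg) := by
    refine ⟨by fun_prop, ?_⟩
    have := Measure.infinitePi_map_curry_symm (fun (_ : Fin m) (_ : Fin n) => cg)
    simp only [Measure.infinitePi_eq_pi] at this ⊢
    exact this
  have h2 : MeasurePreserving (fun (x : Fin m × Fin n → ℂ) (p : Fin n × Fin m) => x (p.swap))
      (Measure.infinitePi fun _ : Fin m × Fin n => cg) (Measure.infinitePi fun _ : Fin n × Fin m => cg) := by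
    refine ⟨by fun_prop, ?_⟩
    exact Measure.map_infinitePi_infinitePi_of_inj (P := fun _ : Fin m × Fin n => cg)
      (f := Prod.swap) Prod.swap_injective
  have h3 : MeasurePreserving (MeasurableEquiv.curry (Fin n) (Fin m) ℂ)
      (Measure.infinitePi fun _ : Fin n × Fin m => cg) (Measure.pi fun _ : Fin n => gv (Fin m)) := by
    refine ⟨by fun_prop, ?_⟩
    have := Measure.infinitePi_map_curry (fun (_ : Fin n) (_ : Fin m) => cg)
    simp only [Measure.infinitePi_eq_pi] at this ⊢
    exact this
  exact (h3.comp h2).comp h1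

theorem mp_cols {k : ℕ} (hk : k ≤ n) : MeasurePreserving (cols hk) (pen n) (mu n k) := by
  have h1 := (mp_transpose n n).prod (mp_transpose n n)
  have h2 := (measurePreserving_arrowProdEquivProdArrow (Fin n → ℂ) (Fin n → ℂ) (Fin n)
    (fun _ => gv (Fin n)) (fun _ => gv (Fin n))).symm
  have h3 : MeasurePreserving (fun (x : Fin n → Col n) (j : Fin k) => x (Fin.castLE hk j)) (mu n n) (mu n k) := by
    refine ⟨by fun_prop, ?_⟩
    have := Measure.map_infinitePi_infinitePi_of_inj (P := fun _ : Fin n => kap n)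
      (f := Fin.castLE hk) (Fin.castLE_injective hk)
    simp only [Measure.infinitePi_eq_pi] at this
    exact this
  exact h3.comp (h2.comp h1)

theorem mp_snoc (k : ℕ) :
    MeasurePreserving (fun p : (Fin k → Col n) × Col n => (Fin.snoc p.1 p.2 : Fin (k + 1) → Col n))
      ((mu n k).prod (kap n)) (mu n (k + 1)) := by
  have h1 := (measurePreserving_piFinSuccAbove (fun _ : Fin (k + 1) => kap n) (Fin.last k)).symm
  have h2 := Measure.measurePreserving_swap (μ := mu n k) (ν := kap n)
  have h3 := h1.comp h2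
  have : (fun p : (Fin k → Col n) × Col n => (Fin.snoc p.1 p.2 : Fin (k + 1) → Col n))
      = (⇑(MeasurableEquiv.piFinSuccAbove (fun _ : Fin (k+1) => Col n) (Fin.last k)).symm ∘ Prod.swap) := by
    funext p
    simp only [Function.comp_apply, Prod.swap]
    change _ = Fin.insertNth (α := fun _ => Col n) (Fin.last k) p.2 p.1
    rw [Fin.insertNth_last']
  rw [this]
  exact h3

lemma lint_succ {k : ℕ} (F : (Fin (k + 1) → Col n) → ℝ≥0∞) (hF : Measurable F) :
    ∫⁻ c, F c ∂(mu n (k + 1)) = ∫⁻ c, ∫⁻ x, F (Fin.snoc c x) ∂(kap n) ∂(mu n k) := by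
  rw [← (mp_snoc k).lintegral_comp hF, 
    lintegral_prod (fun p : (Fin k → Col n) × Col n => F (Fin.snoc p.1 p.2)) (hF.comp (mp_snoc k).measurable).aemeasurable]

lemma int_succ {k : ℕ} {E : Type*} [NormedAddCommGroup E] [NormedSpace ℝ E] 
    {F : (Fin (k + 1) → Col n) → E} (hF : Integrable F (mu n (k + 1))) :
    ∫ c, F c ∂(mu n (k + 1)) = ∫ c, ∫ x, F (Fin.snoc c x) ∂(kap n) ∂(mu n k) := by
  rw [← mp_integral (mp_snoc k) hF.aestronglyMeasurable, integral_prod]
  exact (mp_snoc k).integrable_comp_of_integrable hF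

lemma ae_succ {k : ℕ} {p : (Fin (k + 1) → Col n) → Prop} (hp : MeasurableSet {c | p c})
    (h : ∀ᵐ c ∂(mu n k), ∀ᵐ x ∂(kap n), p (Fin.snoc c x)) : ∀ᵐ c ∂(mu n (k + 1)), p c := by
  rw [← (mp_snoc k).map_eq, ae_map_iff (mp_snoc k).measurable.aemeasurable hp]
  exact (Measure.ae_prod_iff_ae_ae ((mp_snoc k).measurable hp)).2 h

/-- the orthogonal companion of `ge` -/
noncomputable def gp (e : ℂ × ℂ) (x : Col n) : Fin n → ℂ := conj e.1 • x.1 + conj e.2 • x.2

theorem mp_pair {e : ℂ × ℂ} (he : Unit2 e) :
    MeasurePreserving (fun x : Col n => (ge e x, gp e x)) (kap n) (kap n) := by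
  have he2 : e.1 * conj e.1 + e.2 * conj e.2 = 1 := by
    rw [Complex.mul_conj', Complex.mul_conj']
    unfold Unit2 at he
    exact_mod_cast he
  have h1 : MeasurePreserving (fun p : ℂ × ℂ => (e.1 * p.2 - e.2 * p.1, conj e.1 * p.1 + conj e.2 * p.2))
      (cg.prod cg) (cg.prod cg) := by
    have hU := mp_unitary (ι := Fin 2) (!![-e.2, e.1; conj e.1, conj e.2]) (by
      ext i j
      fin_cases i <;> fin_cases j <;>
        simp [Matrix.mul_apply, Fin.sum_univ_two, Matrix.conjTranspose_apply]
      · linear_combination he2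
      · ring
      · ring
      · linear_combination he2)
    have ha := measurePreserving_finTwoArrow cg
    have h := (ha.comp hU).comp ha.symm
    convert h using 1
    funext p
    simp [MeasurableEquiv.finTwoArrow, dotProduct, Fin.sum_univ_two]
    ring
  have h2 := measurePreserving_pi (fun _ : Fin n => cg.prod cg) (fun _ : Fin n => cg.prod cg)
    (f := fun _ => (fun p : ℂ × ℂ => (e.1 * p.2 - e.2 * p.1, conj e.1 * p.1 + conj e.2 * p.2))) (fun _ => h1)
  have h3 := measurePreserving_arrowProdEquivProdArrow ℂ ℂ (Fin n) (fun _ => cg) (fun _ => cg)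
  have h4 := (h3.comp h2).comp h3.symm
  exact h4

theorem mp_ge {e : ℂ × ℂ} (he : Unit2 e) : MeasurePreserving (ge e) (kap n) (gv (Fin n)) :=
  (measurePreserving_fst (μ := gv (Fin n)) (ν := gv (Fin n))).comp (mp_pair he)

end Pool.Agent.helper13.SGC
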