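import Mathlib
import Pool.Agent.helper13.SGC.Col
/-! Integrals over one column. -/
set_option autoImplicit false
open MeasureTheory ProbabilityTheory Filter Topology
open scoped NNReal ENNReal ComplexConjugate Matrix Real
namespace Pool.Agent.helper13.SGC
open Pool.Agent.helper84.SG

variable {n : ℕ}

/-! ### linear forms -/

lemma outer_herm (v : Fin n → ℂ) : (Matrix.vecMulVec v (star v)).IsHermitian := by
  unfold Matrix.IsHermitian
  rw [Matrix.conjTranspose_vecMulVec]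
  simp

lemma qf_outer (v w : Fin n → ℂ) : qf (Matrix.vecMulVec v (star v)) w = ‖star v ⬝ᵥ w‖ ^ 2 := by
  unfold qf
  rw [Matrix.vecMulVec_mulVec]
  have h : star w ⬝ᵥ (MulOpposite.op (star v ⬝ᵥ w) • v) = conj (star v ⬝ᵥ w) * (star v ⬝ᵥ w) := by
    rw [op_smul_eq_smul, dotProduct_smul, smul_eq_mul, mul_comm]
    congr 1
    have := Matrix.star_dotProduct w v
    rw [this]
    rfl
  rw [h, Complex.conj_mul', ← Complex.ofReal_pow, Complex.ofReal_re]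

lemma lin_sq (v : Fin n → ℂ) : Integrable (fun w => ‖star v ⬝ᵥ w‖ ^ 2) (gv (Fin n)) ∧
    ∫ w, ‖star v ⬝ᵥ w‖ ^ 2 ∂(gv (Fin n)) = ∑ i, ‖v i‖ ^ 2 := by
  have h := herm_mom (outer_herm v)
  simp_rw [qf_outer] at h
  refine ⟨h.1, ?_⟩
  rw [h.2.2.1, Matrix.trace_vecMulVec, dotProduct_comm, self_dot, Complex.ofReal_re]

lemma lin_int (v : Fin n → ℂ) : Integrable (fun w => star v ⬝ᵥ w) (gv (Fin n)) := by
  have hm : Measurable (fun w : Fin n → ℂ => star v ⬝ᵥ w) := by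
    simp only [dotProduct]; fun_prop
  have : MemLp (fun w : Fin n → ℂ => star v ⬝ᵥ w) 2 (gv (Fin n)) := 
    (memLp_two_iff_integrable_sq_norm hm.aestronglyMeasurable).2 (lin_sq v).1
  exact this.integrable (by norm_num)

lemma lin_zero (v : Fin n → ℂ) : ∫ w, star v ⬝ᵥ w ∂(gv (Fin n)) = 0 := by
  have hm : Measurable (fun w : Fin n → ℂ => star v ⬝ᵥ w) := by
    simp only [dotProduct]; fun_prop
  have h := mp_integral (mp_unitary (ι := Fin n) (-1) (by simp)) (f := fun w => star v ⬝ᵥ w) hm.aestronglyMeasurable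
  simp only [Matrix.neg_mulVec, Matrix.one_mulVec, dotProduct_neg] at h
  rw [integral_neg] at h
  have : (2:ℂ) * ∫ w, star v ⬝ᵥ w ∂(gv (Fin n)) = 0 := by linear_combination -h
  simpa using this

/-! ### real moments of `N` -/

lemma N_mom {P : Matrix (Fin n) (Fin n) ℂ} (hP : IsPr P) {m : ℕ} (hm : P.trace = (m + 1 : ℕ)) {e : ℂ × ℂ}
    (he : Unit2 e) (k : ℕ) :
    Integrable (fun x => qf P (ge e x) ^ k) (kap n) ∧
      ∫ x, qf P (ge e x) ^ k ∂(kap n) = ∏ i ∈ Finset.range k, ((m:ℝ) + 1 + i) := by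
  have h := mom_proj_nat hP.1 hP.2 hm k
  refine ⟨(mp_ge he).integrable_comp_of_integrable h.1, ?_⟩
  rw [← h.2, mp_integral (mp_ge he) (f := fun g => qf P g ^ k) h.1.aestronglyMeasurable]

lemma N_poly {P : Matrix (Fin n) (Fin n) ℂ} (hP : IsPr P) {m : ℕ} (hm : P.trace = (m + 1 : ℕ)) {e : ℂ × ℂ}
    (he : Unit2 e) (K : ℕ) (c : ℕ → ℝ) :
    Integrable (fun x => ∑ i ∈ Finset.range K, c i * qf P (ge e x) ^ i) (kap n) ∧
      ∫ x, ∑ i ∈ Finset.range K, c i * qf P (ge e x) ^ i ∂(kap n)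
        = ∑ i ∈ Finset.range K, c i * ∏ j ∈ Finset.range i, ((m:ℝ) + 1 + j) := by
  have hJ : ∀ (k : ℕ) (c : ℝ), Integrable (fun x => c * qf P (ge e x) ^ k) (kap n) :=
    fun k c => (N_mom hP hm he k).1.const_mul c
  refine ⟨integrable_finsetSum _ fun i _ => hJ i _, ?_⟩
  rw [integral_finsetSum _ (fun i _ => hJ i _)]
  refine Finset.sum_congr rfl fun i _ => ?_
  rw [integral_const_mul, (N_mom hP hm he i).2]

/-- centred moments of `T = N/m - 1` -/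
lemma T_mom {P : Matrix (Fin n) (Fin n) ℂ} (hP : IsPr P) {m : ℕ} (hm : P.trace = (m + 1 : ℕ)) {e : ℂ × ℂ}
    (he : Unit2 e) :
    (∀ k : ℕ, Integrable (fun x => (qf P (ge e x) / ((m:ℝ) + 1) - 1) ^ k) (kap n)) ∧
    ∫ x, (qf P (ge e x) / ((m:ℝ) + 1) - 1) ∂(kap n) = 0 ∧
    ∫ x, (qf P (ge e x) / ((m:ℝ) + 1) - 1) ^ 2 ∂(kap n) = 1 / ((m:ℝ) + 1) ∧
    ∫ x, (qf P (ge e x) / ((m:ℝ) + 1) - 1) ^ 4 ∂(kap n) ≤ 9 / ((m:ℝ) + 1) ^ 2 := by
  have hm0 : (0:ℝ) < (m:ℝ) + 1 := by positivity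
  have hexp : ∀ k x, (qf P (ge e x) / ((m:ℝ) + 1) - 1) ^ k
        = ∑ i ∈ Finset.range (k + 1), (((((m:ℝ) + 1)⁻¹) ^ i * (-1) ^ (k - i) * (k.choose i : ℝ)) * qf P (ge e x) ^ i) := by
    intro k x
    rw [div_eq_inv_mul, sub_eq_add_neg, add_pow]
    refine Finset.sum_congr rfl fun i _ => ?_
    rw [mul_pow]; ring
  have hint : ∀ k, ∫ x, (qf P (ge e x) / ((m:ℝ) + 1) - 1) ^ k ∂(kap n)
      = ∑ i ∈ Finset.range (k + 1), (((((m:ℝ) + 1)⁻¹) ^ i * (-1) ^ (k - i) * (k.choose i : ℝ)) * ∏ j ∈ Finset.range i, ((m:ℝ) + 1 + j)) := by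
    intro k
    simp_rw [hexp k]
    exact (N_poly hP hm he (k + 1) _).2
  refine ⟨?_, ?_, ?_, ?_⟩
  · intro k
    simp_rw [hexp k]
    exact (N_poly hP hm he (k + 1) _).1
  · have h := hint 1
    simp only [pow_one] at h
    rw [h]
    simp [Finset.sum_range_succ, hm0.ne']
  · rw [hint 2]
    simp [Finset.sum_range_succ, Finset.prod_range_succ, Nat.choose]
    field_simp
    ring
  · rw [hint 4]
    have e5 : ∑ i ∈ Finset.range (4 + 1), (((((m:ℝ) + 1)⁻¹) ^ i * (-1) ^ (4 - i) * (Nat.choose 4 i : ℝ)) * ∏ j ∈ Finset.range i, ((m:ℝ) + 1 + j))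
        = (3 * ((m:ℝ) + 1) + 6) * (((m:ℝ) + 1) ^ 3)⁻¹ := by
      simp [Finset.sum_range_succ, Finset.prod_range_succ, Nat.choose]
      field_simp
      ring
    rw [e5]
    have e6 : 9 / ((m:ℝ) + 1) ^ 2 = (9 * ((m:ℝ) + 1)) * (((m:ℝ) + 1) ^ 3)⁻¹ := by
      field_simp
    rw [e6]
    have : (m:ℝ) ≥ 0 := by positivity
    gcongr
    nlinarith

end Pool.Agent.helper13.SGC
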