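import Mathlib
import Pool.Agent.helper13.SGC.One
/-! Mixed moments over one column. -/
set_option autoImplicit false
open MeasureTheory ProbabilityTheory Filter Topology
open scoped NNReal ENNReal ComplexConjugate Matrix Real
namespace Pool.Agent.helper13.SGC
open Pool.Agent.helper84.SG

variable {n : ℕ}

/-- `ρ(e,e')` -/
noncomputable def rho (e e' : ℂ × ℂ) : ℂ := e'.1 * conj e.1 + e'.2 * conj e.2
/-- `η(e,e')` -/
noncomputable def eta (e e' : ℂ × ℂ) : ℂ := e'.1 * e.2 - e'.2 * e.1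

lemma rho_sq (e e' : ℂ × ℂ) : ‖rho e e'‖ ^ 2 = ip2 e e' := by
  unfold rho ip2
  have : e'.1 * conj e.1 + e'.2 * conj e.2 = conj (e.1 * conj e'.1 + e.2 * conj e'.2) := by
    simp [mul_comm]
  rw [this, RCLike.norm_conj]

lemma unit_mul {e : ℂ × ℂ} (he : Unit2 e) : e.1 * conj e.1 + e.2 * conj e.2 = 1 := by
  rw [Complex.mul_conj', Complex.mul_conj']
  unfold Unit2 at he
  exact_mod_cast he

lemma eta_sq {e e' : ℂ × ℂ} (he : Unit2 e) (he' : Unit2 e') : ‖eta e e'‖ ^ 2 = 1 - ip2 e e' := by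
  rw [← rho_sq]
  have h1 := unit_mul he
  have h2 := unit_mul he'
  have h : ((‖eta e e'‖ ^ 2 : ℝ) : ℂ) = ((1 - ‖rho e e'‖ ^ 2 : ℝ) : ℂ) := by
    push_cast
    rw [← Complex.mul_conj', ← Complex.mul_conj']
    unfold eta rho
    simp only [map_sub, map_add, map_mul, Complex.conj_conj]
    linear_combination (e'.1 * conj e'.1 + e'.2 * conj e'.2) * h1 + h2
  exact_mod_cast h

lemma ip2_nonneg (e e' : ℂ × ℂ) : 0 ≤ ip2 e e' := by unfold ip2; positivity

lemma ip2_le {e e' : ℂ × ℂ} (he : Unit2 e) (he' : Unit2 e') : ip2 e e' ≤ 1 := by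
  have := eta_sq he he'
  nlinarith [sq_nonneg ‖eta e e'‖]

lemma ge_decomp {e : ℂ × ℂ} (he : Unit2 e) (e' : ℂ × ℂ) (x : Col n) :
    ge e' x = rho e e' • ge e x + eta e e' • gp e x := by
  have h1 := unit_mul he
  funext i
  simp only [ge, gp, rho, eta, Pi.sub_apply, Pi.add_apply, Pi.smul_apply, smul_eq_mul]
  linear_combination (- e'.1 * x.2 i + e'.2 * x.1 i) * h1

/-- sesquilinear form -/
noncomputable def sq2 (A : Matrix (Fin n) (Fin n) ℂ) (g w : Fin n → ℂ) : ℂ := star g ⬝ᵥ (A *ᵥ w)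

lemma sq2_eq (A : Matrix (Fin n) (Fin n) ℂ) (g w : Fin n → ℂ) : sq2 A g w = star (Aᴴ *ᵥ g) ⬝ᵥ w := by
  unfold sq2
  rw [Matrix.star_mulVec, Matrix.conjTranspose_conjTranspose, Matrix.dotProduct_mulVec]

lemma sq2_conj (A : Matrix (Fin n) (Fin n) ℂ) (g w : Fin n → ℂ) : conj (sq2 A g w) = sq2 Aᴴ w g := by
  rw [sq2_eq, sq2, starRingEnd_apply, ← Matrix.star_dotProduct]

lemma qf_comb {P : Matrix (Fin n) (Fin n) ℂ} (hP : P.IsHermitian) (a b : ℂ) (g w : Fin n → ℂ) :
    qf P (a • g + b • w) = ‖a‖ ^ 2 * qf P g + ‖b‖ ^ 2 * qf P w + 2 * (conj a * b * sq2 P g w).re := by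
  unfold qf
  have h1 : star (a • g + b • w) ⬝ᵥ (P *ᵥ (a • g + b • w))
      = conj a * a * (star g ⬝ᵥ (P *ᵥ g)) + conj b * b * (star w ⬝ᵥ (P *ᵥ w))
        + (conj a * b * sq2 P g w + conj (conj a * b * sq2 P g w)) := by
    rw [map_mul, sq2_conj, hP.eq]
    unfold sq2
    simp only [Matrix.mulVec_add, Matrix.mulVec_smul, star_add, star_smul, add_dotProduct, dotProduct_add,
      smul_dotProduct, dotProduct_smul, smul_eq_mul, map_mul, Complex.conj_conj, RCLike.star_def]
    ring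
  rw [h1, Complex.add_re, Complex.add_re, Complex.add_conj, Complex.conj_mul', Complex.conj_mul']
  rw [← Complex.ofReal_pow, ← Complex.ofReal_pow, Complex.re_ofReal_mul, Complex.re_ofReal_mul, Complex.ofReal_re]

lemma trace_real {P P' : Matrix (Fin n) (Fin n) ℂ} (hP : P.IsHermitian) (hP' : P'.IsHermitian) :
    ((P * P').trace.re : ℂ) = (P * P').trace := by
  have : conj (P * P').trace = (P * P').trace := by
    rw [starRingEnd_apply, ← Matrix.trace_conjTranspose, Matrix.conjTranspose_mul, hP.eq, hP'.eq, Matrix.trace_mul_comm]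
  exact (Complex.conj_eq_iff_re.1 this)

/-- the overlap -/
noncomputable def ov (P P' : Matrix (Fin n) (Fin n) ℂ) : ℝ := (P * P').trace.re

lemma ov_comm (P P' : Matrix (Fin n) (Fin n) ℂ) : ov P P' = ov P' P := by
  unfold ov; rw [Matrix.trace_mul_comm]

/-- covariance of two Hermitian forms -/
lemma cov_form {P P' : Matrix (Fin n) (Fin n) ℂ} (hP : P.IsHermitian) (hP' : P'.IsHermitian) :
    Integrable (fun g => qf P g * qf P' g) (gv (Fin n)) ∧
    ∫ g, qf P g * qf P' g ∂(gv (Fin n)) = P.trace.re * P'.trace.re + ov P P' := by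
  have h1 := herm_mom hP
  have h2 := herm_mom hP'
  have h3 := herm_mom (hP.add hP')
  have e : ∀ g, qf P g * qf P' g = (1/2) * (qf (P + P') g ^ 2 - qf P g ^ 2 - qf P' g ^ 2) := by
    intro g
    have : qf (P + P') g = qf P g + qf P' g := by
      unfold qf
      rw [Matrix.add_mulVec, dotProduct_add, Complex.add_re]
    rw [this]; ring
  simp_rw [e]
  refine ⟨((h3.2.1.sub h1.2.1).sub h2.2.1).const_mul _, ?_⟩
  rw [integral_const_mul, integral_sub (f := fun g => qf (P + P') g ^ 2 - qf P g ^ 2) (h3.2.1.sub h1.2.1) h2.2.1,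
    integral_sub h3.2.1 h1.2.1, h3.2.2.2, h1.2.2.2, h2.2.2.2]
  have e2 : ((P + P') * (P + P')).trace.re = (P * P).trace.re + (P' * P').trace.re + 2 * ov P P' := by
    unfold ov
    rw [Matrix.add_mul, Matrix.mul_add, Matrix.mul_add]
    simp only [Matrix.trace_add, Complex.add_re]
    rw [Matrix.trace_mul_comm P' P]
    ring
  rw [e2, Matrix.trace_add, Complex.add_re]
  ring

/-- second moment of a non Hermitian form `g* P P' g` -/
lemma abs_form {P P' : Matrix (Fin n) (Fin n) ℂ} (hP : IsPr P) (hP' : IsPr P') :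
    Integrable (fun g => ‖sq2 (P * P') g g‖ ^ 2) (gv (Fin n)) ∧
    ∫ g, ‖sq2 (P * P') g g‖ ^ 2 ∂(gv (Fin n)) = ov P P' ^ 2 + ov P P' := by
  set A := P * P' with hA
  have hAs : Aᴴ = P' * P := by rw [hA, Matrix.conjTranspose_mul, hP.1.eq, hP'.1.eq]
  set H : Matrix (Fin n) (Fin n) ℂ := (1/2 : ℂ) • (A + Aᴴ) with hH
  set K : Matrix (Fin n) (Fin n) ℂ := (-Complex.I/2 : ℂ) • (A - Aᴴ) with hK
  have hHh : H.IsHermitian := by
    unfold Matrix.IsHermitian
    rw [hH, Matrix.conjTranspose_smul, Matrix.conjTranspose_add, Matrix.conjTranspose_conjTranspose, add_comm]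
    congr 1
    simp
  have hKh : K.IsHermitian := by
    unfold Matrix.IsHermitian
    rw [hK, Matrix.conjTranspose_smul, Matrix.conjTranspose_sub, Matrix.conjTranspose_conjTranspose]
    have : star (-Complex.I / 2 : ℂ) = Complex.I / 2 := by simp
    rw [this, ← neg_sub A, smul_neg, ← neg_smul]
    congr 1
    ring
  have h1 := herm_mom hHh
  have h2 := herm_mom hKh
  have e : ∀ g, ‖sq2 A g g‖ ^ 2 = qf H g ^ 2 + qf K g ^ 2 := by
    intro g
    have hd : A = H + Complex.I • K := by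
      rw [hH, hK, smul_smul]
      have : Complex.I * (-Complex.I / 2) = 1/2 := by
        have := Complex.I_mul_I
        linear_combination (-1/2) * this
      rw [this, ← smul_add, add_add_sub_cancel, ← two_smul ℂ, smul_smul]
      norm_num
    have : sq2 A g g = (qf H g : ℂ) + Complex.I * (qf K g : ℂ) := by
      have gen : ∀ (H K : Matrix (Fin n) (Fin n) ℂ), sq2 (H + Complex.I • K) g g
          = star g ⬝ᵥ (H *ᵥ g) + Complex.I * (star g ⬝ᵥ (K *ᵥ g)) := by
        intro H K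
        unfold sq2
        rw [Matrix.add_mulVec, Matrix.smul_mulVec, dotProduct_add, dotProduct_smul, smul_eq_mul]
      rw [← herm_real hHh, ← herm_real hKh, ← gen, ← hd]
    rw [this, Complex.sq_norm, Complex.normSq_apply]
    simp
    ring
  simp_rw [e]
  refine ⟨h1.2.1.add h2.2.1, ?_⟩
  rw [integral_add h1.2.1 h2.2.1, h1.2.2.2, h2.2.2.2]
  have t0 : A.trace = (ov P P' : ℂ) := (trace_real hP.1 hP'.1).symm
  have t1 : Aᴴ.trace = (ov P P' : ℂ) := by rw [hAs, Matrix.trace_mul_comm, ← hA, t0]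
  have tH : H.trace.re = ov P P' := by
    rw [hH, Matrix.trace_smul, Matrix.trace_add, t0, t1, smul_eq_mul]
    simp
    ring
  have tK : K.trace.re = 0 := by
    rw [hK, Matrix.trace_smul, Matrix.trace_sub, t0, t1, sub_self, smul_zero]
    simp
  have tA : (A * Aᴴ).trace = (ov P P' : ℂ) := by
    rw [hAs, hA, Matrix.mul_assoc, ← Matrix.mul_assoc P' P', hP'.2, Matrix.trace_mul_comm, Matrix.mul_assoc, hP.2,
      Matrix.trace_mul_comm, ← hA, t0]
  have tB : (Aᴴ * A).trace = (ov P P' : ℂ) := by rw [Matrix.trace_mul_comm, tA]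
  have t2 : (H * H).trace.re + (K * K).trace.re = ov P P' := by
    have : (H * H).trace + (K * K).trace = (ov P P' : ℂ) := by
      rw [hH, hK]
      simp only [Matrix.smul_mul, Matrix.mul_smul, Matrix.trace_smul, smul_eq_mul, Matrix.add_mul, Matrix.mul_add,
        Matrix.sub_mul, Matrix.mul_sub, Matrix.trace_add, Matrix.trace_sub, tA, tB]
      have := Complex.I_mul_I
      linear_combination (1/4 * (A * A).trace - 1/2 * (ov P P' : ℂ) + 1/4 * (Aᴴ * Aᴴ).trace) * this
    rw [← Complex.add_re, this, Complex.ofReal_re]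
  rw [tH, tK]
  linarith

end Pool.Agent.helper13.SGC
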