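import Mathlib
import Pool.Agent.helper13.SGC.Two
/-! Mixed moments over one column, part 2. -/
set_option autoImplicit false
open MeasureTheory ProbabilityTheory Filter Topology
open scoped NNReal ENNReal ComplexConjugate Matrix Real
namespace Pool.Agent.helper13.SGC
open Pool.Agent.helper84.SG

variable {n : ℕ}

lemma int_aff {α : Type*} [MeasurableSpace α] {μ : Measure α} [IsProbabilityMeasure μ] {f g : α → ℝ}
    (hf : Integrable f μ) (hg : Integrable g μ) (a b c : ℝ) :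
    ∫ x, (a + b * f x + c * g x) ∂μ = a + b * ∫ x, f x ∂μ + c * ∫ x, g x ∂μ := by
  have h1 : Integrable (fun x => a + b * f x) μ := (integrable_const a).add (hf.const_mul b)
  rw [integral_add h1 (hg.const_mul c), integral_add (integrable_const a) (hf.const_mul b), integral_const_mul,
    integral_const_mul]
  simp

lemma nsq_add (u v : ℂ) : ‖u + v‖ ^ 2 = ‖u‖ ^ 2 + ‖v‖ ^ 2 + 2 * (conj u * v).re := by
  rw [Complex.sq_norm, Complex.sq_norm, Complex.sq_norm, Complex.normSq_add]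
  simp [Complex.mul_re]

lemma cs (u v : Fin n → ℂ) : ‖star u ⬝ᵥ v‖ ^ 2 ≤ (∑ i, ‖u i‖ ^ 2) * ∑ i, ‖v i‖ ^ 2 := by
  have h1 : ‖star u ⬝ᵥ v‖ ≤ ∑ i, ‖u i‖ * ‖v i‖ := by
    unfold dotProduct
    refine (norm_sum_le _ _).trans (Finset.sum_le_sum fun i _ => ?_)
    rw [norm_mul, Pi.star_apply, norm_star]
  calc ‖star u ⬝ᵥ v‖ ^ 2 ≤ (∑ i, ‖u i‖ * ‖v i‖) ^ 2 := by gcongr
    _ ≤ _ := Finset.sum_mul_sq_le_sq_mul_sq _ _ _

lemma sq2_proj {P P' : Matrix (Fin n) (Fin n) ℂ} (hP : IsPr P) (g w : Fin n → ℂ) :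
    sq2 (P * P') g w = star (P *ᵥ g) ⬝ᵥ (P' *ᵥ w) := by
  unfold sq2
  rw [hP.star_mulVec, Matrix.mulVec_mulVec]

lemma sq2_le {P P' : Matrix (Fin n) (Fin n) ℂ} (hP : IsPr P) (hP' : IsPr P') (g w : Fin n → ℂ) :
    ‖sq2 (P * P') g w‖ ^ 2 ≤ qf P g * qf P' w := by
  rw [sq2_proj hP, hP.qf_eq, hP'.qf_eq]
  exact cs _ _

lemma IsPr.compl {P : Matrix (Fin n) (Fin n) ℂ} (hP : IsPr P) : IsPr (1 - P) := by
  constructor
  · exact Matrix.isHermitian_one.sub hP.1
  · rw [Matrix.sub_mul, Matrix.mul_sub, Matrix.mul_sub, hP.2]; simp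

lemma IsPr.qf_le {P : Matrix (Fin n) (Fin n) ℂ} (hP : IsPr P) (v : Fin n → ℂ) : qf P v ≤ ∑ i, ‖v i‖ ^ 2 := by
  have h := hP.compl.qf_nonneg v
  have e : qf (1 - P) v = (∑ i, ‖v i‖ ^ 2) - qf P v := by
    unfold qf
    rw [Matrix.sub_mulVec, Matrix.one_mulVec, dotProduct_sub, Complex.sub_re, self_dot, Complex.ofReal_re]
  linarith

lemma measurable_qf' (P : Matrix (Fin n) (Fin n) ℂ) {α : Type*} [MeasurableSpace α] {f : α → Fin n → ℂ}
    (hf : Measurable f) : Measurable (fun x => qf P (f x)) := (measurable_qf P).comp hf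

lemma measurable_sq2 (A : Matrix (Fin n) (Fin n) ℂ) {α : Type*} [MeasurableSpace α] {f g : α → Fin n → ℂ}
    (hf : Measurable f) (hg : Measurable g) : Measurable (fun x => sq2 A (f x) (g x)) := by
  unfold sq2
  simp only [dotProduct, Matrix.mulVec, Pi.star_apply]
  fun_prop

lemma lin_re (v : Fin n → ℂ) (c : ℂ) : Integrable (fun w => (c * (star v ⬝ᵥ w)).re) (gv (Fin n)) ∧
    ∫ w, (c * (star v ⬝ᵥ w)).re ∂(gv (Fin n)) = 0 := by
  have h := (lin_int v).const_mul c
  refine ⟨h.re, ?_⟩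
  have := Complex.reCLM.integral_comp_comm h
  simp only [Complex.reCLM_apply] at this
  rw [this, integral_const_mul, lin_zero]
  simp

/-- `E N N'` -/
theorem NN_mom {P P' : Matrix (Fin n) (Fin n) ℂ} (hP : IsPr P) (hP' : IsPr P') {m : ℕ}
    (hm : P.trace = (m + 1 : ℕ)) (hm' : P'.trace = (m + 1 : ℕ)) {e e' : ℂ × ℂ} (he : Unit2 e) (he' : Unit2 e') :
    Integrable (fun x => qf P (ge e x) * qf P' (ge e' x)) (kap n) ∧
    ∫ x, qf P (ge e x) * qf P' (ge e' x) ∂(kap n) = ((m:ℝ) + 1) ^ 2 + ip2 e e' * ov P P' := by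
  have hI : Integrable (fun x => qf P (ge e x) * qf P' (ge e' x)) (kap n) := by
    have m1 : MemLp (fun x : Col n => qf P (ge e x)) 2 (kap n) :=
      (memLp_two_iff_integrable_sq (measurable_qf' P (measurable_ge e)).aestronglyMeasurable).2 (N_mom hP hm he 2).1
    have m2 : MemLp (fun x : Col n => qf P' (ge e' x)) 2 (kap n) :=
      (memLp_two_iff_integrable_sq (measurable_qf' P' (measurable_ge e')).aestronglyMeasurable).2 (N_mom hP' hm' he' 2).1
    exact m1.integrable_mul m2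
  refine ⟨hI, ?_⟩
  set F : Col n → ℝ := fun p => qf P p.1 * qf P' (rho e e' • p.1 + eta e e' • p.2) with hF
  have hFm : Measurable F := by
    refine (measurable_qf' P measurable_fst).mul (measurable_qf' P' ?_)
    fun_prop
  have hFe : ∀ x, qf P (ge e x) * qf P' (ge e' x) = F (ge e x, gp e x) := by
    intro x
    rw [hF]
    simp only
    rw [← ge_decomp he e' x]
  have hFi : Integrable F (kap n) := by
    have := (mp_pair (n := n) he).integrable_comp hFm.aestronglyMeasurable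
    refine this.1 (hI.congr ?_)
    exact Eventually.of_forall hFe
  simp_rw [hFe]
  rw [mp_integral (mp_pair he) hFm.aestronglyMeasurable]
  unfold kap at hFi ⊢
  rw [integral_prod _ hFi]
  have hin : ∀ g : Fin n → ℂ, ∫ w, F (g, w) ∂(gv (Fin n))
      = ip2 e e' * (qf P g * qf P' g) + ((1 - ip2 e e') * ((m:ℝ) + 1)) * qf P g := by
    intro g
    have h1 := herm_mom hP'.1
    have h2 := lin_re (P'ᴴ *ᵥ g) (conj (rho e e') * eta e e')
    have e1 : ∀ w, F (g, w) = qf P g * ((ip2 e e' * qf P' g + (1 - ip2 e e') * qf P' w) +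
        2 * (conj (rho e e') * eta e e' * (star (P'ᴴ *ᵥ g) ⬝ᵥ w)).re) := by
      intro w
      rw [hF]
      simp only
      rw [qf_comb hP'.1, rho_sq, eta_sq he he', sq2_eq]
    simp_rw [e1]
    rw [integral_const_mul, int_aff h1.1 h2.1, h2.2, h1.2.2.1, hm']
    push_cast
    simp only [Complex.add_re, Complex.natCast_re, Complex.one_re]
    ring
  simp_rw [hin]
  have h3 := cov_form hP.1 hP'.1
  have h4 := herm_mom hP.1
  rw [integral_add (h3.1.const_mul _) (h4.1.const_mul _), integral_const_mul, integral_const_mul, h3.2, h4.2.2.1, hm, hm']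
  push_cast
  simp only [Complex.add_re, Complex.natCast_re, Complex.one_re]
  ring

/-- `E |⟨Pg, P'g'⟩|²` -/
theorem QQ_mom {P P' : Matrix (Fin n) (Fin n) ℂ} (hP : IsPr P) (hP' : IsPr P') {m : ℕ}
    (hm : P.trace = (m + 1 : ℕ)) (hm' : P'.trace = (m + 1 : ℕ)) {e e' : ℂ × ℂ} (he : Unit2 e) (he' : Unit2 e') :
    Integrable (fun x => ‖sq2 (P * P') (ge e x) (ge e' x)‖ ^ 2) (kap n) ∧
    ∫ x, ‖sq2 (P * P') (ge e x) (ge e' x)‖ ^ 2 ∂(kap n) = ip2 e e' * ov P P' ^ 2 + ov P P' := by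
  have hI : Integrable (fun x => ‖sq2 (P * P') (ge e x) (ge e' x)‖ ^ 2) (kap n) := by
    refine (NN_mom hP hP' hm hm' he he').1.mono' ?_ ?_
    · exact ((measurable_sq2 _ (measurable_ge e) (measurable_ge e')).norm.pow_const 2).aestronglyMeasurable
    · refine Eventually.of_forall fun x => ?_
      rw [Real.norm_of_nonneg (by positivity)]
      exact sq2_le hP hP' _ _
  refine ⟨hI, ?_⟩
  set A := P * P' with hA
  set F : Col n → ℝ := fun p => ‖sq2 A p.1 (rho e e' • p.1 + eta e e' • p.2)‖ ^ 2 with hF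
  have hFm : Measurable F := by
    refine (measurable_sq2 _ measurable_fst ?_).norm.pow_const 2
    fun_prop
  have hFe : ∀ x, ‖sq2 A (ge e x) (ge e' x)‖ ^ 2 = F (ge e x, gp e x) := by
    intro x
    rw [hF]
    simp only
    rw [← ge_decomp he e' x]
  have hFi : Integrable F (kap n) := by
    have := (mp_pair (n := n) he).integrable_comp hFm.aestronglyMeasurable
    refine this.1 (hI.congr ?_)
    exact Eventually.of_forall hFe
  simp_rw [hFe]
  rw [mp_integral (mp_pair he) hFm.aestronglyMeasurable]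
  unfold kap at hFi ⊢
  rw [integral_prod _ hFi]
  have hAA : (A * Aᴴ).IsHermitian := Matrix.isHermitian_mul_conjTranspose_self A
  have hin : ∀ g : Fin n → ℂ, ∫ w, F (g, w) ∂(gv (Fin n))
      = ip2 e e' * ‖sq2 A g g‖ ^ 2 + (1 - ip2 e e') * qf (A * Aᴴ) g := by
    intro g
    have h1 := lin_sq (Aᴴ *ᵥ g)
    have h2 := lin_re (Aᴴ *ᵥ g) (conj (rho e e' * sq2 A g g) * eta e e')
    have e1 : ∀ w, F (g, w) = (ip2 e e' * ‖sq2 A g g‖ ^ 2 + (1 - ip2 e e') * ‖star (Aᴴ *ᵥ g) ⬝ᵥ w‖ ^ 2) +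
        2 * (conj (rho e e' * sq2 A g g) * eta e e' * (star (Aᴴ *ᵥ g) ⬝ᵥ w)).re := by
      intro w
      rw [hF]
      simp only
      have e2 : sq2 A g (rho e e' • g + eta e e' • w) = rho e e' * sq2 A g g + eta e e' * (star (Aᴴ *ᵥ g) ⬝ᵥ w) := by
        rw [← sq2_eq]
        unfold sq2
        rw [Matrix.mulVec_add, Matrix.mulVec_smul, Matrix.mulVec_smul, dotProduct_add, dotProduct_smul, dotProduct_smul,
          smul_eq_mul, smul_eq_mul]
      rw [e2, nsq_add, ← eta_sq he he', ← rho_sq, ← mul_pow, ← mul_pow, ← norm_mul, ← norm_mul, mul_assoc]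
    simp_rw [e1]
    rw [int_aff h1.1 h2.1, h2.2, h1.2]
    have e3 : ∑ i, ‖(Aᴴ *ᵥ g) i‖ ^ 2 = qf (A * Aᴴ) g := by
      have := self_dot (Aᴴ *ᵥ g)
      rw [Matrix.star_mulVec, Matrix.conjTranspose_conjTranspose, ← Matrix.dotProduct_mulVec, Matrix.mulVec_mulVec] at this
      unfold qf
      rw [this, Complex.ofReal_re]
    rw [e3]
    ring
  simp_rw [hin]
  have h3 := abs_form hP hP'
  have h4 := herm_mom hAA
  rw [← hA] at h3
  have tA : (A * Aᴴ).trace = (ov P P' : ℂ) := by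
    have hAs : Aᴴ = P' * P := by rw [hA, Matrix.conjTranspose_mul, hP.1.eq, hP'.1.eq]
    rw [hAs, hA, Matrix.mul_assoc, ← Matrix.mul_assoc P' P', hP'.2, Matrix.trace_mul_comm, Matrix.mul_assoc, hP.2,
      Matrix.trace_mul_comm, ← hA]
    exact (trace_real hP.1 hP'.1).symm
  rw [integral_add (h3.1.const_mul _) (h4.1.const_mul _), integral_const_mul, integral_const_mul, h3.2, h4.2.2.1, tA,
    Complex.ofReal_re]
  ring

end Pool.Agent.helper13.SGC
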