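import Mathlib
import Pool.Agent.helper13.SGC.Three
/-! Drift of the overlap. -/
set_option autoImplicit false
open MeasureTheory ProbabilityTheory Filter Topology
open scoped NNReal ENNReal ComplexConjugate Matrix Real
namespace Pool.Agent.helper13.SGC
open Pool.Agent.helper84.SG

variable {n : ℕ}

/-- `E ⟨P g, P' P g⟩` -/
theorem PP_mom {P P' : Matrix (Fin n) (Fin n) ℂ} (hP : IsPr P) (hP' : IsPr P') {e : ℂ × ℂ} (he : Unit2 e) :
    Integrable (fun x => qf P' (P *ᵥ ge e x)) (kap n) ∧ ∫ x, qf P' (P *ᵥ ge e x) ∂(kap n) = ov P P' := by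
  have hH : (P * P' * P).IsHermitian := by
    unfold Matrix.IsHermitian
    rw [Matrix.conjTranspose_mul, Matrix.conjTranspose_mul, hP.1.eq, hP'.1.eq, Matrix.mul_assoc]
  have e1 : ∀ g, qf P' (P *ᵥ g) = qf (P * P' * P) g := by
    intro g
    unfold qf
    rw [hP.star_mulVec, Matrix.mulVec_mulVec, Matrix.mulVec_mulVec, Matrix.mul_assoc]
  have h := herm_mom hH
  have ht : (P * P' * P).trace.re = ov P P' := by
    unfold ov
    rw [Matrix.trace_mul_comm, ← Matrix.mul_assoc, hP.2]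
  simp_rw [e1]
  refine ⟨(mp_ge he).integrable_comp_of_integrable h.1, ?_⟩
  rw [mp_integral (mp_ge he) h.1.aestronglyMeasurable, h.2.2.1, ht]

lemma qf_PP_le {P P' : Matrix (Fin n) (Fin n) ℂ} (hP : IsPr P) (hP' : IsPr P') (g : Fin n → ℂ) :
    qf P' (P *ᵥ g) ≤ qf P g := by
  rw [hP.qf_eq]
  exact hP'.qf_le _

lemma ov_nonneg {P P' : Matrix (Fin n) (Fin n) ℂ} (hP : IsPr P) (hP' : IsPr P') : 0 ≤ ov P P' := by
  have he : Unit2 ((1 : ℂ), (0 : ℂ)) := by unfold Unit2; simp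
  rw [← (PP_mom hP hP' he).2]
  exact integral_nonneg fun x => hP'.qf_nonneg _

lemma ov_le {P P' : Matrix (Fin n) (Fin n) ℂ} (hP : IsPr P) (hP' : IsPr P') : ov P P' ≤ P.trace.re := by
  have he : Unit2 ((1 : ℂ), (0 : ℂ)) := by unfold Unit2; simp
  have h := herm_mom hP.1
  rw [← (PP_mom hP hP' he).2, ← h.2.2.1, ← mp_integral (mp_ge he) h.1.aestronglyMeasurable]
  exact integral_mono (PP_mom hP hP' he).1 ((mp_ge he).integrable_comp_of_integrable h.1) fun x => qf_PP_le hP hP' _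

lemma ov_step {P P' : Matrix (Fin n) (Fin n) ℂ} (hP : IsPr P) (hP' : IsPr P') (g g' : Fin n → ℂ) :
    ov (step P g) (step P' g') = ov P P' - (qf P g)⁻¹ * qf P' (P *ᵥ g) - (qf P' g')⁻¹ * qf P (P' *ᵥ g')
      + (qf P g * qf P' g')⁻¹ * ‖sq2 (P * P') g g'‖ ^ 2 := by
  have h1 : (step P g * step P' g').trace = (P * P').trace - (((qf P g)⁻¹ : ℝ) : ℂ) * (star (P *ᵥ g) ⬝ᵥ (P' *ᵥ (P *ᵥ g)))
      - (((qf P' g')⁻¹ : ℝ) : ℂ) * (star (P' *ᵥ g') ⬝ᵥ (P *ᵥ (P' *ᵥ g')))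
      + (((qf P g)⁻¹ : ℝ) : ℂ) * (((qf P' g')⁻¹ : ℝ) : ℂ) *
        ((star (P *ᵥ g) ⬝ᵥ (P' *ᵥ g')) * (star (P' *ᵥ g') ⬝ᵥ (P *ᵥ g))) := by
    unfold step
    rw [Matrix.sub_mul, Matrix.mul_sub, Matrix.mul_sub]
    simp only [Matrix.smul_mul, Matrix.mul_smul, Matrix.trace_smul, smul_eq_mul, Matrix.trace_sub]
    have t1 : (Matrix.vecMulVec (P *ᵥ g) (star (P *ᵥ g)) * P').trace = star (P *ᵥ g) ⬝ᵥ (P' *ᵥ (P *ᵥ g)) := by
      rw [Matrix.trace_mul_comm, Matrix.mul_vecMulVec, Matrix.trace_vecMulVec, dotProduct_comm]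
    have t2 : (P * Matrix.vecMulVec (P' *ᵥ g') (star (P' *ᵥ g'))).trace = star (P' *ᵥ g') ⬝ᵥ (P *ᵥ (P' *ᵥ g')) := by
      rw [Matrix.mul_vecMulVec, Matrix.trace_vecMulVec, dotProduct_comm]
    have t3 : (Matrix.vecMulVec (P *ᵥ g) (star (P *ᵥ g)) * Matrix.vecMulVec (P' *ᵥ g') (star (P' *ᵥ g'))).trace
        = (star (P *ᵥ g) ⬝ᵥ (P' *ᵥ g')) * (star (P' *ᵥ g') ⬝ᵥ (P *ᵥ g)) := by
      rw [Matrix.vecMulVec_mul_vecMulVec, Matrix.trace_vecMulVec, dotProduct_smul, smul_eq_mul, dotProduct_comm (P *ᵥ g)]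
    rw [t1, t2, t3]
    ring
  have h2 : (star (P *ᵥ g) ⬝ᵥ (P' *ᵥ g')) * (star (P' *ᵥ g') ⬝ᵥ (P *ᵥ g)) = ((‖sq2 (P * P') g g'‖ ^ 2 : ℝ) : ℂ) := by
    rw [sq2_proj hP]
    have := Complex.mul_conj' (star (P *ᵥ g) ⬝ᵥ (P' *ᵥ g'))
    rw [starRingEnd_apply, ← Matrix.star_dotProduct] at this
    push_cast
    exact this
  rw [h2, herm_real hP'.1, herm_real hP.1] at h1
  unfold ov
  rw [h1]
  simp only [Complex.sub_re, Complex.add_re, ← Complex.ofReal_mul, Complex.ofReal_re]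
  rw [mul_inv]

lemma scal {s N m : ℝ} (hs : 0 ≤ s) (hsN : s ≤ N) (hm : 0 < m) : |N⁻¹ * s - s / m| ≤ |N / m - 1| := by
  rcases eq_or_lt_of_le (hs.trans hsN) with h | h
  · have : s = 0 := by linarith
    simp [this]
  · have e : N⁻¹ * s - s / m = (N⁻¹ * s) * (1 - N / m) := by field_simp
    have h1 : N⁻¹ * s ≤ 1 := by
      rw [inv_mul_le_iff₀ h]; linarith
    have h0 : 0 ≤ N⁻¹ * s := by positivity
    rw [e, abs_mul, abs_of_nonneg h0, abs_sub_comm 1]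
    exact mul_le_of_le_one_left (abs_nonneg _) h1

lemma scal01 {s N : ℝ} (hs : 0 ≤ s) (hsN : s ≤ N) : 0 ≤ N⁻¹ * s ∧ N⁻¹ * s ≤ 1 := by
  rcases eq_or_lt_of_le (hs.trans hsN) with h | h
  · simp [← h]
  · refine ⟨by positivity, ?_⟩
    rw [inv_mul_le_iff₀ h]; linarith

/-- the increment of the overlap -/
noncomputable def dl (P P' : Matrix (Fin n) (Fin n) ℂ) (e e' : ℂ × ℂ) (x : Col n) : ℝ :=
  ov (step P (ge e x)) (step P' (ge e' x)) - ov P P'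

lemma dl_eq {P P' : Matrix (Fin n) (Fin n) ℂ} (hP : IsPr P) (hP' : IsPr P') (e e' : ℂ × ℂ) (x : Col n) :
    dl P P' e e' x = - ((qf P (ge e x))⁻¹ * qf P' (P *ᵥ ge e x)) - (qf P' (ge e' x))⁻¹ * qf P (P' *ᵥ ge e' x)
      + (qf P (ge e x) * qf P' (ge e' x))⁻¹ * ‖sq2 (P * P') (ge e x) (ge e' x)‖ ^ 2 := by
  unfold dl
  rw [ov_step hP hP']
  ring

lemma dl_abs {P P' : Matrix (Fin n) (Fin n) ℂ} (hP : IsPr P) (hP' : IsPr P') (e e' : ℂ × ℂ) (x : Col n) :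
    |dl P P' e e' x| ≤ 2 := by
  rw [dl_eq hP hP']
  have h1 := scal01 (hP'.qf_nonneg (P *ᵥ ge e x)) (qf_PP_le hP hP' (ge e x))
  have h2 := scal01 (hP.qf_nonneg (P' *ᵥ ge e' x)) (qf_PP_le hP' hP (ge e' x))
  have h3 := scal01 (by positivity : 0 ≤ ‖sq2 (P * P') (ge e x) (ge e' x)‖ ^ 2) (sq2_le hP hP' (ge e x) (ge e' x))
  rw [abs_le]
  constructor <;> linarith [h1.1, h1.2, h2.1, h2.2, h3.1, h3.2]

lemma measurable_mulVec (P : Matrix (Fin n) (Fin n) ℂ) {α : Type*} [MeasurableSpace α] {f : α → Fin n → ℂ}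
    (hf : Measurable f) : Measurable (fun x => P *ᵥ f x) := by
  refine measurable_pi_lambda _ fun i => ?_
  simp only [Matrix.mulVec, dotProduct]
  fun_prop

lemma measurable_dl {P P' : Matrix (Fin n) (Fin n) ℂ} (hP : IsPr P) (hP' : IsPr P') (e e' : ℂ × ℂ) :
    Measurable (dl P P' e e') := by
  have : dl P P' e e' = fun x => - ((qf P (ge e x))⁻¹ * qf P' (P *ᵥ ge e x)) - (qf P' (ge e' x))⁻¹ * qf P (P' *ᵥ ge e' x)
      + (qf P (ge e x) * qf P' (ge e' x))⁻¹ * ‖sq2 (P * P') (ge e x) (ge e' x)‖ ^ 2 := by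
    funext x
    exact dl_eq hP hP' e e' x
  rw [this]
  have m1 := measurable_qf' P (measurable_ge (n := n) e)
  have m2 := measurable_qf' P' (measurable_ge (n := n) e')
  have m3 := measurable_qf' P' (measurable_mulVec P (measurable_ge (n := n) e))
  have m4 := measurable_qf' P (measurable_mulVec P' (measurable_ge (n := n) e'))
  have m5 := (measurable_sq2 (P * P') (measurable_ge (n := n) e) (measurable_ge (n := n) e')).norm.pow_const 2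
  exact (((m1.inv.mul m3).neg).sub (m2.inv.mul m4)).add ((m1.mul m2).inv.mul m5)

lemma abs_T {P : Matrix (Fin n) (Fin n) ℂ} (hP : IsPr P) {m : ℕ} (hm : P.trace = (m + 1 : ℕ)) {e : ℂ × ℂ}
    (he : Unit2 e) : Integrable (fun x => |qf P (ge e x) / ((m:ℝ) + 1) - 1|) (kap n) ∧
    ∫ x, |qf P (ge e x) / ((m:ℝ) + 1) - 1| ∂(kap n) ≤ 1 / √((m:ℝ) + 1) := by
  have h := T_mom hP hm he
  have hi := h.1 1
  simp only [pow_one] at hi
  refine ⟨hi.abs, ?_⟩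
  have hs : 0 < √((m:ℝ) + 1) := Real.sqrt_pos.2 (by positivity)
  have hss : √((m:ℝ) + 1) * √((m:ℝ) + 1) = (m:ℝ) + 1 := Real.mul_self_sqrt (by positivity)
  set s := √((m:ℝ) + 1) with hsdef
  have h1 : ∀ x, |qf P (ge e x) / ((m:ℝ) + 1) - 1| ≤ (s / 2) * (qf P (ge e x) / ((m:ℝ) + 1) - 1) ^ 2 + 1 / (2 * s) := by
    intro x
    set T := qf P (ge e x) / ((m:ℝ) + 1) - 1
    rw [← sq_abs T]
    have : (s / 2) * |T| ^ 2 + 1 / (2 * s) - |T| = (1 / (2 * s)) * (s * |T| - 1) ^ 2 := by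
      field_simp
      ring
    have h2 : 0 ≤ (1 / (2 * s)) * (s * |T| - 1) ^ 2 := by positivity
    linarith
  calc ∫ x, |qf P (ge e x) / ((m:ℝ) + 1) - 1| ∂(kap n)
      ≤ ∫ x, ((s / 2) * (qf P (ge e x) / ((m:ℝ) + 1) - 1) ^ 2 + 1 / (2 * s)) ∂(kap n) :=
        integral_mono hi.abs (((h.1 2).const_mul _).add (integrable_const _)) h1
    _ = (s / 2) * (1 / ((m:ℝ) + 1)) + 1 / (2 * s) := by
        rw [integral_add ((h.1 2).const_mul _) (integrable_const _), integral_const_mul, h.2.2.1]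
        simp
    _ = 1 / s := by
        rw [← hss]
        field_simp
        ring

/-- the drift of the overlap -/
theorem drift {P P' : Matrix (Fin n) (Fin n) ℂ} (hP : IsPr P) (hP' : IsPr P') {m : ℕ}
    (hm : P.trace = (m + 1 : ℕ)) (hm' : P'.trace = (m + 1 : ℕ)) {e e' : ℂ × ℂ} (he : Unit2 e) (he' : Unit2 e') :
    |∫ x, dl P P' e e' x ∂(kap n) - (-2 * ov P P' / ((m:ℝ) + 1) + ip2 e e' * ov P P' ^ 2 / ((m:ℝ) + 1) ^ 2)|
      ≤ 6 / √((m:ℝ) + 1) := by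
  have hm0 : (0:ℝ) < (m:ℝ) + 1 := by positivity
  have k1 := PP_mom hP hP' he
  have k2 := PP_mom hP' hP he'
  have k3 := QQ_mom hP hP' hm hm' he he'
  have T1 := abs_T hP hm he
  have T2 := abs_T hP' hm' he'
  have S1 := T_mom hP hm he
  have S2 := T_mom hP' hm' he'
  have hdi : Integrable (dl P P' e e') (kap n) := by
    refine (integrable_const (2:ℝ)).mono' (measurable_dl hP hP' e e').aestronglyMeasurable ?_
    exact Eventually.of_forall fun x => dl_abs hP hP' e e' x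
  set G : Col n → ℝ := fun x => -(qf P' (P *ᵥ ge e x) / ((m:ℝ) + 1)) - qf P (P' *ᵥ ge e' x) / ((m:ℝ) + 1)
    + ‖sq2 (P * P') (ge e x) (ge e' x)‖ ^ 2 / ((m:ℝ) + 1) ^ 2 with hG
  have hGi : Integrable G (kap n) := ((k1.1.div_const _).neg.sub (k2.1.div_const _)).add (k3.1.div_const _)
  have hGint : ∫ x, G x ∂(kap n) = -2 * ov P P' / ((m:ℝ) + 1) + (ip2 e e' * ov P P' ^ 2 + ov P P') / ((m:ℝ) + 1) ^ 2 := by
    have hh1 : Integrable (fun x => -(qf P' (P *ᵥ ge e x) / ((m:ℝ) + 1)) - qf P (P' *ᵥ ge e' x) / ((m:ℝ) + 1)) (kap n) :=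
      (k1.1.div_const _).neg.sub (k2.1.div_const _)
    have hh2 : Integrable (fun x => -(qf P' (P *ᵥ ge e x) / ((m:ℝ) + 1))) (kap n) := (k1.1.div_const _).neg
    rw [hG, integral_add hh1 (k3.1.div_const _), integral_sub hh2 (k2.1.div_const _), integral_neg,
      integral_div, integral_div, integral_div, k1.2, k2.2, k3.2, ov_comm P' P]
    ring
  set B : Col n → ℝ := fun x => 2 * |qf P (ge e x) / ((m:ℝ) + 1) - 1| + 2 * |qf P' (ge e' x) / ((m:ℝ) + 1) - 1|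
    + ((1/2) * (qf P (ge e x) / ((m:ℝ) + 1) - 1) ^ 2 + (1/2) * (qf P' (ge e' x) / ((m:ℝ) + 1) - 1) ^ 2) with hB
  have hBi : Integrable B (kap n) :=
    ((T1.1.const_mul _).add (T2.1.const_mul _)).add (((S1.1 2).const_mul _).add ((S2.1 2).const_mul _))
  have hpt : ∀ x, |dl P P' e e' x - G x| ≤ B x := by
    intro x
    rw [dl_eq hP hP', hG, hB]
    simp only
    have a1 := scal (hP'.qf_nonneg (P *ᵥ ge e x)) (qf_PP_le hP hP' (ge e x)) hm0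
    have a2 := scal (hP.qf_nonneg (P' *ᵥ ge e' x)) (qf_PP_le hP' hP (ge e' x)) hm0
    have a3 := scal (by positivity : 0 ≤ ‖sq2 (P * P') (ge e x) (ge e' x)‖ ^ 2) (sq2_le hP hP' (ge e x) (ge e' x))
      (by positivity : 0 < ((m:ℝ) + 1) ^ 2)
    set N := qf P (ge e x)
    set N' := qf P' (ge e' x)
    set s1 := qf P' (P *ᵥ ge e x)
    set s2 := qf P (P' *ᵥ ge e' x)
    set s3 := ‖sq2 (P * P') (ge e x) (ge e' x)‖ ^ 2
    have a4 : |N * N' / ((m:ℝ) + 1) ^ 2 - 1| ≤ |N / ((m:ℝ) + 1) - 1| + |N' / ((m:ℝ) + 1) - 1|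
        + ((1/2) * (N / ((m:ℝ) + 1) - 1) ^ 2 + (1/2) * (N' / ((m:ℝ) + 1) - 1) ^ 2) := by
      have e1 : N * N' / ((m:ℝ) + 1) ^ 2 - 1 = (N / ((m:ℝ) + 1) - 1) + (N' / ((m:ℝ) + 1) - 1)
          + (N / ((m:ℝ) + 1) - 1) * (N' / ((m:ℝ) + 1) - 1) := by
        field_simp
        ring
      rw [e1]
      set a := N / ((m:ℝ) + 1) - 1
      set b := N' / ((m:ℝ) + 1) - 1
      have : |a * b| ≤ (1/2) * a ^ 2 + (1/2) * b ^ 2 := by
        rw [abs_le]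
        constructor <;> nlinarith [sq_nonneg (a + b), sq_nonneg (a - b)]
      calc |a + b + a * b| ≤ |a + b| + |a * b| := abs_add_le _ _
        _ ≤ |a| + |b| + |a * b| := by gcongr; exact abs_add_le _ _
        _ ≤ _ := by linarith
    have e2 : -(N⁻¹ * s1) - N'⁻¹ * s2 + (N * N')⁻¹ * s3 - (-(s1 / ((m:ℝ) + 1)) - s2 / ((m:ℝ) + 1) + s3 / ((m:ℝ) + 1) ^ 2)
        = -(N⁻¹ * s1 - s1 / ((m:ℝ) + 1)) - (N'⁻¹ * s2 - s2 / ((m:ℝ) + 1)) + ((N * N')⁻¹ * s3 - s3 / ((m:ℝ) + 1) ^ 2) := by ring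
    rw [e2]
    rw [abs_le] at a1 a2 a3 ⊢
    constructor <;> linarith [a1.1, a1.2, a2.1, a2.2, a3.1, a3.2, a4]
  have hs : 0 < √((m:ℝ) + 1) := Real.sqrt_pos.2 (by positivity)
  have hss : √((m:ℝ) + 1) * √((m:ℝ) + 1) = (m:ℝ) + 1 := Real.mul_self_sqrt (by positivity)
  have hs1 : 1 ≤ √((m:ℝ) + 1) := by
    rw [Real.one_le_sqrt]; linarith [(Nat.cast_nonneg m : (0:ℝ) ≤ m)]
  have hinv : 1 / ((m:ℝ) + 1) ≤ 1 / √((m:ℝ) + 1) :=
    one_div_le_one_div_of_le hs (by nlinarith [hss, hs1])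
  have hBint : ∫ x, B x ∂(kap n) ≤ 5 / √((m:ℝ) + 1) := by
    have hh1 : Integrable (fun x => 2 * |qf P (ge e x) / ((m:ℝ) + 1) - 1| + 2 * |qf P' (ge e' x) / ((m:ℝ) + 1) - 1|) (kap n) :=
      (T1.1.const_mul _).add (T2.1.const_mul _)
    have hh2 : Integrable (fun x => (1/2) * (qf P (ge e x) / ((m:ℝ) + 1) - 1) ^ 2 + (1/2) * (qf P' (ge e' x) / ((m:ℝ) + 1) - 1) ^ 2) (kap n) :=
      ((S1.1 2).const_mul _).add ((S2.1 2).const_mul _)
    rw [hB, integral_add hh1 hh2, integral_add (T1.1.const_mul _) (T2.1.const_mul _),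
      integral_add ((S1.1 2).const_mul _) ((S2.1 2).const_mul _), integral_const_mul, integral_const_mul,
      integral_const_mul, integral_const_mul, S1.2.2.1, S2.2.2.1]
    have h5 : 5 / √((m:ℝ) + 1) = 5 * (1 / √((m:ℝ) + 1)) := by ring
    rw [h5]
    linarith [T1.2, T2.2]
  have hO0 := ov_nonneg hP hP'
  have hO1 : ov P P' ≤ (m:ℝ) + 1 := by
    have := ov_le hP hP'
    rw [hm] at this
    simpa using this
  have hO : ov P P' / ((m:ℝ) + 1) ^ 2 ≤ 1 / √((m:ℝ) + 1) := by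
    refine le_trans ?_ hinv
    rw [div_le_div_iff₀ (by positivity) hm0]
    nlinarith
  have hO' : 0 ≤ ov P P' / ((m:ℝ) + 1) ^ 2 := by positivity
  have hfin : |∫ x, dl P P' e e' x ∂(kap n) - ∫ x, G x ∂(kap n)| ≤ 5 / √((m:ℝ) + 1) := by
    rw [← integral_sub hdi hGi]
    calc |∫ x, (dl P P' e e' x - G x) ∂(kap n)| ≤ ∫ x, |dl P P' e e' x - G x| ∂(kap n) := abs_integral_le_integral_abs
      _ ≤ ∫ x, B x ∂(kap n) := integral_mono (hdi.sub hGi).abs hBi hpt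
      _ ≤ _ := hBint
  rw [hGint, add_div] at hfin
  have h6 : 6 / √((m:ℝ) + 1) = 5 / √((m:ℝ) + 1) + 1 / √((m:ℝ) + 1) := by ring
  rw [h6]
  rw [abs_le] at hfin ⊢
  constructor <;> linarith [hfin.1, hfin.2]

end Pool.Agent.helper13.SGC
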