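import Mathlib
import Pool.Agent.helper13.SGC.Four
/-! One step of the central limit theorem. -/
set_option autoImplicit false
open MeasureTheory ProbabilityTheory Filter Topology
open scoped NNReal ENNReal ComplexConjugate Matrix Real
namespace Pool.Agent.helper13.SGC
open Pool.Agent.helper84.SG

variable {n : ℕ}

lemma cexp_cubic (x : ℝ) : ‖Complex.exp (Complex.I * x) - (1 + Complex.I * x - (x:ℂ) ^ 2 / 2)‖ ≤ 4 * |x| ^ 3 := by
  have hn : ‖Complex.I * (x:ℂ)‖ = |x| := by simp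
  by_cases h : |x| ≤ 1
  · have h1 := Complex.norm_exp_sub_sum_le_norm_mul_exp (Complex.I * x) 3
    rw [hn] at h1
    have e1 : ∑ m ∈ Finset.range 3, (Complex.I * (x:ℂ)) ^ m / (m.factorial : ℂ) = 1 + Complex.I * x - (x:ℂ) ^ 2 / 2 := by
      simp only [Finset.sum_range_succ, Finset.sum_range_zero, Nat.factorial, mul_pow, Complex.I_sq]
      push_cast
      ring
    rw [e1] at h1
    refine h1.trans ?_
    have h2 : Real.exp |x| ≤ 4 := by
      have : Real.exp |x| ≤ Real.exp 1 := Real.exp_le_exp.2 h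
      have := Real.exp_one_lt_d9
      linarith
    have : 0 ≤ |x| ^ 3 := by positivity
    nlinarith
  · push Not at h
    have h1 : ‖Complex.exp (Complex.I * x)‖ = 1 := by
      rw [mul_comm, Complex.norm_exp_ofReal_mul_I]
    have h2 : ‖(1 + Complex.I * x - (x:ℂ) ^ 2 / 2)‖ ≤ 1 + |x| + |x| ^ 2 / 2 := by
      refine (norm_sub_le _ _).trans (add_le_add ((norm_add_le _ _).trans ?_) ?_)
      · rw [hn]; simp
      · simp
    calc _ ≤ ‖Complex.exp (Complex.I * x)‖ + ‖(1 + Complex.I * x - (x:ℂ) ^ 2 / 2)‖ := norm_sub_le _ _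
      _ ≤ 1 + (1 + |x| + |x| ^ 2 / 2) := by rw [h1]; gcongr
      _ ≤ _ := by
        have h3 : 1 ≤ |x| ^ 2 := by nlinarith
        have h4 : |x| ^ 2 ≤ |x| ^ 3 := by nlinarith
        nlinarith

lemma sum_pow_le {l : ℕ} (f : Fin l → ℝ) (p : ℕ) (hp : Even (p + 1)) :
    (∑ a, f a) ^ (p + 1) ≤ (l:ℝ) ^ p * ∑ a, f a ^ (p + 1) := by
  have h1 : (∑ a, f a) ^ (p + 1) ≤ (∑ a, |f a|) ^ (p + 1) := by
    rw [← hp.pow_abs]
    exact pow_le_pow_left₀ (abs_nonneg _) (Finset.abs_sum_le_sum_abs _ _) _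
  rcases Nat.eq_zero_or_pos l with hl | hl
  · subst hl
    simp
  have h2 := pow_sum_div_card_le_sum_pow (s := (Finset.univ : Finset (Fin l))) (f := fun a => |f a|)
    (fun a _ => abs_nonneg _) p
  rw [Finset.card_univ, Fintype.card_fin, div_le_iff₀ (by positivity)] at h2
  refine h1.trans (h2.trans (le_of_eq ?_))
  rw [mul_comm]
  congr 1
  exact Finset.sum_congr rfl fun a _ => hp.pow_abs _

/-- a linear combination of the centred normalised distances -/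
noncomputable def Xs {l : ℕ} (t : Fin l → ℝ) (e : Fin l → ℂ × ℂ) (P : Fin l → Matrix (Fin n) (Fin n) ℂ) (m : ℝ)
    (x : Col n) : ℝ := ∑ a, t a * (qf (P a) (ge (e a) x) / m - 1)

/-- its conditional variance -/
noncomputable def vs {l : ℕ} (t : Fin l → ℝ) (e : Fin l → ℂ × ℂ) (P : Fin l → Matrix (Fin n) (Fin n) ℂ) (m : ℝ) : ℝ :=
  ∑ a, ∑ b, t a * t b * (ip2 (e a) (e b) * ov (P a) (P b) / m ^ 2)

noncomputable def C2 {l : ℕ} (t : Fin l → ℝ) : ℝ := (l:ℝ) * ∑ a, t a ^ 2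
noncomputable def C4 {l : ℕ} (t : Fin l → ℝ) : ℝ := 9 * ((l:ℝ) ^ 3 * ∑ a, t a ^ 4)

lemma C2_nonneg {l : ℕ} (t : Fin l → ℝ) : 0 ≤ C2 t := by unfold C2; positivity
lemma C4_nonneg {l : ℕ} (t : Fin l → ℝ) : 0 ≤ C4 t := by unfold C4; positivity

section
variable {l : ℕ} {t : Fin l → ℝ} {e : Fin l → ℂ × ℂ} {P : Fin l → Matrix (Fin n) (Fin n) ℂ} {m : ℕ}

lemma measurable_Xs (t : Fin l → ℝ) (e : Fin l → ℂ × ℂ) (P : Fin l → Matrix (Fin n) (Fin n) ℂ) (m : ℝ) :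
    Measurable (Xs t e P m) := by
  unfold Xs
  refine Finset.measurable_sum _ fun a _ => ?_
  have := measurable_qf' (P a) (measurable_ge (n := n) (e a))
  fun_prop

lemma TT_mom (he : ∀ a, Unit2 (e a)) (hP : ∀ a, IsPr (P a)) (hm : ∀ a, (P a).trace = (m + 1 : ℕ)) (a b : Fin l) :
    Integrable (fun x => (qf (P a) (ge (e a) x) / ((m:ℝ) + 1) - 1) * (qf (P b) (ge (e b) x) / ((m:ℝ) + 1) - 1)) (kap n) ∧
    ∫ x, (qf (P a) (ge (e a) x) / ((m:ℝ) + 1) - 1) * (qf (P b) (ge (e b) x) / ((m:ℝ) + 1) - 1) ∂(kap n)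
      = ip2 (e a) (e b) * ov (P a) (P b) / ((m:ℝ) + 1) ^ 2 := by
  have hm0 : (0:ℝ) < (m:ℝ) + 1 := by positivity
  have h1 := NN_mom (hP a) (hP b) (hm a) (hm b) (he a) (he b)
  have h2 := N_mom (hP a) (hm a) (he a) 1
  have h3 := N_mom (hP b) (hm b) (he b) 1
  simp only [pow_one, Finset.prod_range_one, Nat.cast_zero, add_zero] at h2 h3
  have e1 : ∀ x, (qf (P a) (ge (e a) x) / ((m:ℝ) + 1) - 1) * (qf (P b) (ge (e b) x) / ((m:ℝ) + 1) - 1)
      = ((1 + (-1 / ((m:ℝ) + 1)) * qf (P a) (ge (e a) x)) + (-1 / ((m:ℝ) + 1)) * qf (P b) (ge (e b) x))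
        + (1 / ((m:ℝ) + 1) ^ 2) * (qf (P a) (ge (e a) x) * qf (P b) (ge (e b) x)) := by
    intro x
    field_simp
    ring
  simp_rw [e1]
  have i1 : Integrable (fun x => 1 + (-1 / ((m:ℝ) + 1)) * qf (P a) (ge (e a) x)) (kap n) := (integrable_const _).add (h2.1.const_mul _)
  have i2 : Integrable (fun x => (1 + (-1 / ((m:ℝ) + 1)) * qf (P a) (ge (e a) x)) + (-1 / ((m:ℝ) + 1)) * qf (P b) (ge (e b) x)) (kap n) :=
    i1.add (h3.1.const_mul _)
  refine ⟨i2.add (h1.1.const_mul _), ?_⟩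
  rw [integral_add i2 (h1.1.const_mul _), int_aff h2.1 h3.1, integral_const_mul, h1.2, h2.2, h3.2]
  field_simp
  ring

lemma X_one (he : ∀ a, Unit2 (e a)) (hP : ∀ a, IsPr (P a)) (hm : ∀ a, (P a).trace = (m + 1 : ℕ)) :
    Integrable (Xs t e P ((m:ℝ) + 1)) (kap n) ∧ ∫ x, Xs t e P ((m:ℝ) + 1) x ∂(kap n) = 0 := by
  have h : ∀ a, Integrable (fun x => t a * (qf (P a) (ge (e a) x) / ((m:ℝ) + 1) - 1)) (kap n) := by
    intro a
    have := (T_mom (hP a) (hm a) (he a)).1 1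
    simp only [pow_one] at this
    exact this.const_mul _
  refine ⟨integrable_finsetSum _ fun a _ => h a, ?_⟩
  unfold Xs
  rw [integral_finsetSum _ fun a _ => h a]
  refine Finset.sum_eq_zero fun a _ => ?_
  rw [integral_const_mul, (T_mom (hP a) (hm a) (he a)).2.1, mul_zero]

lemma X_two (he : ∀ a, Unit2 (e a)) (hP : ∀ a, IsPr (P a)) (hm : ∀ a, (P a).trace = (m + 1 : ℕ)) :
    Integrable (fun x => Xs t e P ((m:ℝ) + 1) x ^ 2) (kap n) ∧
    ∫ x, Xs t e P ((m:ℝ) + 1) x ^ 2 ∂(kap n) = vs t e P ((m:ℝ) + 1) ∧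
    vs t e P ((m:ℝ) + 1) ≤ C2 t / ((m:ℝ) + 1) := by
  have e1 : ∀ x, Xs t e P ((m:ℝ) + 1) x ^ 2 = ∑ a, ∑ b, (t a * t b) *
      ((qf (P a) (ge (e a) x) / ((m:ℝ) + 1) - 1) * (qf (P b) (ge (e b) x) / ((m:ℝ) + 1) - 1)) := by
    intro x
    unfold Xs
    rw [sq, Finset.sum_mul_sum]
    refine Finset.sum_congr rfl fun a _ => Finset.sum_congr rfl fun b _ => by ring
  have hT := TT_mom (m := m) he hP hm
  have i1 : Integrable (fun x => Xs t e P ((m:ℝ) + 1) x ^ 2) (kap n) := by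
    simp_rw [e1]
    exact integrable_finsetSum _ fun a _ => integrable_finsetSum _ fun b _ => (hT a b).1.const_mul _
  have i2 : ∫ x, Xs t e P ((m:ℝ) + 1) x ^ 2 ∂(kap n) = vs t e P ((m:ℝ) + 1) := by
    simp_rw [e1]
    rw [integral_finsetSum _ fun a _ => integrable_finsetSum _ fun b _ => (hT a b).1.const_mul _]
    unfold vs
    refine Finset.sum_congr rfl fun a _ => ?_
    rw [integral_finsetSum _ fun b _ => (hT a b).1.const_mul _]
    refine Finset.sum_congr rfl fun b _ => ?_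
    rw [integral_const_mul, (hT a b).2]
  refine ⟨i1, i2, ?_⟩
  rw [← i2]
  have h2 : ∀ a, Integrable (fun x => t a ^ 2 * (qf (P a) (ge (e a) x) / ((m:ℝ) + 1) - 1) ^ 2) (kap n) :=
    fun a => ((T_mom (hP a) (hm a) (he a)).1 2).const_mul _
  calc ∫ x, Xs t e P ((m:ℝ) + 1) x ^ 2 ∂(kap n)
      ≤ ∫ x, (l:ℝ) * ∑ a, t a ^ 2 * (qf (P a) (ge (e a) x) / ((m:ℝ) + 1) - 1) ^ 2 ∂(kap n) := by
        refine integral_mono i1 ((integrable_finsetSum _ fun a _ => h2 a).const_mul _) fun x => ?_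
        have := sum_pow_le (fun a => t a * (qf (P a) (ge (e a) x) / ((m:ℝ) + 1) - 1)) 1 (by decide)
        simp only [mul_pow, pow_one] at this
        exact this
    _ = C2 t / ((m:ℝ) + 1) := by
        rw [integral_const_mul, integral_finsetSum _ fun a _ => h2 a]
        unfold C2
        rw [mul_div_assoc, Finset.sum_div]
        congr 1
        refine Finset.sum_congr rfl fun a _ => ?_
        rw [integral_const_mul, (T_mom (hP a) (hm a) (he a)).2.2.1]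
        ring

lemma X_four (he : ∀ a, Unit2 (e a)) (hP : ∀ a, IsPr (P a)) (hm : ∀ a, (P a).trace = (m + 1 : ℕ)) :
    Integrable (fun x => Xs t e P ((m:ℝ) + 1) x ^ 4) (kap n) ∧
    ∫ x, Xs t e P ((m:ℝ) + 1) x ^ 4 ∂(kap n) ≤ C4 t / ((m:ℝ) + 1) ^ 2 := by
  have h2 : ∀ a, Integrable (fun x => t a ^ 4 * (qf (P a) (ge (e a) x) / ((m:ℝ) + 1) - 1) ^ 4) (kap n) :=
    fun a => ((T_mom (hP a) (hm a) (he a)).1 4).const_mul _
  have hpt : ∀ x, Xs t e P ((m:ℝ) + 1) x ^ 4 ≤ (l:ℝ) ^ 3 * ∑ a, t a ^ 4 * (qf (P a) (ge (e a) x) / ((m:ℝ) + 1) - 1) ^ 4 := by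
    intro x
    have := sum_pow_le (fun a => t a * (qf (P a) (ge (e a) x) / ((m:ℝ) + 1) - 1)) 3 (by decide)
    simp only [mul_pow] at this
    exact this
  have i4 : Integrable (fun x => Xs t e P ((m:ℝ) + 1) x ^ 4) (kap n) := by
    have hI : Integrable (fun x => (l:ℝ) ^ 3 * ∑ a, t a ^ 4 * (qf (P a) (ge (e a) x) / ((m:ℝ) + 1) - 1) ^ 4) (kap n) :=
      (integrable_finsetSum _ fun a _ => h2 a).const_mul _
    refine hI.mono' 
      ((measurable_Xs t e P _).pow_const 4).aestronglyMeasurable (Eventually.of_forall fun x => ?_)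
    rw [Real.norm_of_nonneg (by positivity)]
    exact hpt x
  refine ⟨i4, ?_⟩
  calc ∫ x, Xs t e P ((m:ℝ) + 1) x ^ 4 ∂(kap n)
      ≤ ∫ x, (l:ℝ) ^ 3 * ∑ a, t a ^ 4 * (qf (P a) (ge (e a) x) / ((m:ℝ) + 1) - 1) ^ 4 ∂(kap n) :=
        integral_mono i4 ((integrable_finsetSum _ fun a _ => h2 a).const_mul _) hpt
    _ ≤ C4 t / ((m:ℝ) + 1) ^ 2 := by
        rw [integral_const_mul, integral_finsetSum _ fun a _ => h2 a]
        have h3 : ∑ a, ∫ x, t a ^ 4 * (qf (P a) (ge (e a) x) / ((m:ℝ) + 1) - 1) ^ 4 ∂(kap n)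
            ≤ ∑ a, t a ^ 4 * (9 / ((m:ℝ) + 1) ^ 2) := by
          refine Finset.sum_le_sum fun a _ => ?_
          rw [integral_const_mul]
          exact mul_le_mul_of_nonneg_left (T_mom (hP a) (hm a) (he a)).2.2.2 (by positivity)
        calc (l:ℝ) ^ 3 * ∑ a, ∫ x, t a ^ 4 * (qf (P a) (ge (e a) x) / ((m:ℝ) + 1) - 1) ^ 4 ∂(kap n)
            ≤ (l:ℝ) ^ 3 * ∑ a, t a ^ 4 * (9 / ((m:ℝ) + 1) ^ 2) := by gcongr
          _ = _ := by
            unfold C4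
            rw [← Finset.sum_mul]; ring

/-- characteristic function of one step -/
theorem char_step (he : ∀ a, Unit2 (e a)) (hP : ∀ a, IsPr (P a)) (hm : ∀ a, (P a).trace = (m + 1 : ℕ)) :
    ‖∫ x, Complex.exp (Complex.I * (Xs t e P ((m:ℝ) + 1) x : ℝ)) ∂(kap n) - (1 - (vs t e P ((m:ℝ) + 1) : ℂ) / 2)‖
      ≤ 2 * (C4 t + C2 t) / (((m:ℝ) + 1) * √((m:ℝ) + 1)) := by
  obtain ⟨i1, j1⟩ := X_one (t := t) he hP hm
  obtain ⟨i2, j2, k2⟩ := X_two (t := t) he hP hm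
  obtain ⟨i4, j4⟩ := X_four (t := t) he hP hm
  set X := Xs t e P ((m:ℝ) + 1) with hX
  have hXm : Measurable X := measurable_Xs t e P _
  have hs : 0 < √((m:ℝ) + 1) := Real.sqrt_pos.2 (by positivity)
  have hss : √((m:ℝ) + 1) * √((m:ℝ) + 1) = (m:ℝ) + 1 := Real.mul_self_sqrt (by positivity)
  have hm0 : (0:ℝ) < (m:ℝ) + 1 := by positivity
  have iE : Integrable (fun x => Complex.exp (Complex.I * (X x : ℝ))) (kap n) := by
    refine (integrable_const (1:ℝ)).mono' (by fun_prop) (Eventually.of_forall fun x => ?_)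
    rw [mul_comm, Complex.norm_exp_ofReal_mul_I]
  have iA : Integrable (fun x => (1 + Complex.I * (X x : ℂ) - (X x : ℂ) ^ 2 / 2)) (kap n) := by
    have a1 : Integrable (fun x => (X x : ℂ)) (kap n) := i1.ofReal
    have a2 : Integrable (fun x => (X x : ℂ) ^ 2) (kap n) := by
      have := i2.ofReal (𝕜 := ℂ)
      simpa using this
    exact ((integrable_const _).add (a1.const_mul _)).sub (a2.div_const _)
  have hA : ∫ x, (1 + Complex.I * (X x : ℂ) - (X x : ℂ) ^ 2 / 2) ∂(kap n) = 1 - (vs t e P ((m:ℝ) + 1) : ℂ) / 2 := by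
    have a1 : Integrable (fun x => (X x : ℂ)) (kap n) := i1.ofReal
    have a2 : Integrable (fun x => (X x : ℂ) ^ 2) (kap n) := by
      have := i2.ofReal (𝕜 := ℂ)
      simpa using this
    have a3 : Integrable (fun x => (1 + Complex.I * (X x : ℂ))) (kap n) := (integrable_const _).add (a1.const_mul _)
    rw [integral_sub a3 (a2.div_const _), integral_add (integrable_const _) (a1.const_mul _), integral_const_mul, integral_div]
    have b1 : ∫ x, (X x : ℂ) ∂(kap n) = 0 := by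
      rw [integral_complex_ofReal, j1]; simp
    have b2 : ∫ x, (X x : ℂ) ^ 2 ∂(kap n) = (vs t e P ((m:ℝ) + 1) : ℂ) := by
      rw [← j2, ← integral_complex_ofReal]
      simp
    rw [b1, b2]
    simp
  rw [← hA, ← integral_sub iE iA]
  calc ‖∫ x, (Complex.exp (Complex.I * (X x : ℝ)) - (1 + Complex.I * (X x : ℂ) - (X x : ℂ) ^ 2 / 2)) ∂(kap n)‖
      ≤ ∫ x, ‖Complex.exp (Complex.I * (X x : ℝ)) - (1 + Complex.I * (X x : ℂ) - (X x : ℂ) ^ 2 / 2)‖ ∂(kap n) :=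
        norm_integral_le_integral_norm _
    _ ≤ ∫ x, (2 * √((m:ℝ) + 1) * X x ^ 4 + 2 / √((m:ℝ) + 1) * X x ^ 2) ∂(kap n) := by
        refine integral_mono (iE.sub iA).norm ((i4.const_mul _).add (i2.const_mul _)) fun x => ?_
        refine (cexp_cubic (X x)).trans ?_
        have e4 : X x ^ 4 = |X x| ^ 4 := by rw [← abs_pow, abs_of_nonneg (by positivity)]
        have e2 : X x ^ 2 = |X x| ^ 2 := (sq_abs _).symm
        rw [e4, e2]
        have h0 := abs_nonneg (X x)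
        set y := |X x|
        set s := √((m:ℝ) + 1)
        have : 2 * s * y ^ 4 + 2 / s * y ^ 2 - 4 * y ^ 3 = 2 / s * (y * (s * y - 1)) ^ 2 := by
          field_simp
          ring
        have h5 : 0 ≤ 2 / s * (y * (s * y - 1)) ^ 2 := by positivity
        linarith
    _ = 2 * √((m:ℝ) + 1) * ∫ x, X x ^ 4 ∂(kap n) + 2 / √((m:ℝ) + 1) * vs t e P ((m:ℝ) + 1) := by
        rw [integral_add (i4.const_mul _) (i2.const_mul _), integral_const_mul, integral_const_mul, j2]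
    _ ≤ 2 * √((m:ℝ) + 1) * (C4 t / ((m:ℝ) + 1) ^ 2) + 2 / √((m:ℝ) + 1) * (C2 t / ((m:ℝ) + 1)) := by gcongr
    _ = _ := by
        have e1 : √((m:ℝ) + 1) / ((m:ℝ) + 1) ^ 2 = 1 / (((m:ℝ) + 1) * √((m:ℝ) + 1)) := by
          rw [div_eq_div_iff (by positivity) (by positivity), one_mul, mul_comm ((m:ℝ) + 1), ← mul_assoc, hss]
          ring
        calc 2 * √((m:ℝ) + 1) * (C4 t / ((m:ℝ) + 1) ^ 2) + 2 / √((m:ℝ) + 1) * (C2 t / ((m:ℝ) + 1))
            = 2 * C4 t * (√((m:ℝ) + 1) / ((m:ℝ) + 1) ^ 2) + 2 * C2 t * (1 / (((m:ℝ) + 1) * √((m:ℝ) + 1))) := by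
              field_simp
          _ = _ := by rw [e1]; ring

noncomputable def C5 {l : ℕ} (t : Fin l → ℝ) : ℝ := Real.exp (C2 t) * (2 * (C4 t + C2 t) + C2 t ^ 2)

lemma C5_nonneg {l : ℕ} (t : Fin l → ℝ) : 0 ≤ C5 t := by
  unfold C5
  have := C2_nonneg t
  have := C4_nonneg t
  positivity

lemma exp_quad {y : ℝ} (hy : 0 ≤ y) : |Real.exp y * (1 - y) - 1| ≤ y ^ 2 * Real.exp y := by
  have h1 : Real.exp y * (1 - y) ≤ 1 := by
    have := Real.add_one_le_exp (-y)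
    have h2 : Real.exp y * (1 - y) ≤ Real.exp y * Real.exp (-y) := by
      gcongr
      linarith
    rwa [← Real.exp_add, add_neg_cancel, Real.exp_zero] at h2
  have h2 : 1 ≤ Real.exp y * (1 - y + y ^ 2) := by
    have h3 := Real.add_one_le_exp y
    have h4 : 0 < 1 - y + y ^ 2 := by nlinarith [sq_nonneg (y - 1)]
    calc (1:ℝ) ≤ (y + 1) * (1 - y + y ^ 2) := by
          have : (y + 1) * (1 - y + y ^ 2) = 1 + y ^ 3 := by ring
          rw [this]
          have : 0 ≤ y ^ 3 := by positivity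
          linarith
      _ ≤ _ := by gcongr
  rw [abs_le]
  constructor
  · nlinarith
  · have : 0 ≤ y ^ 2 * Real.exp y := by positivity
    linarith

lemma vs_nonneg (he : ∀ a, Unit2 (e a)) (hP : ∀ a, IsPr (P a)) (hm : ∀ a, (P a).trace = (m + 1 : ℕ)) :
    0 ≤ vs t e P ((m:ℝ) + 1) := by
  obtain ⟨i2, j2, k2⟩ := X_two (t := t) he hP hm
  rw [← j2]
  exact integral_nonneg fun x => by positivity

theorem exp_step (he : ∀ a, Unit2 (e a)) (hP : ∀ a, IsPr (P a)) (hm : ∀ a, (P a).trace = (m + 1 : ℕ)) :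
    ‖Complex.exp ((vs t e P ((m:ℝ) + 1) : ℂ) / 2) * ∫ x, Complex.exp (Complex.I * (Xs t e P ((m:ℝ) + 1) x : ℝ)) ∂(kap n) - 1‖
      ≤ C5 t / (((m:ℝ) + 1) * √((m:ℝ) + 1)) := by
  have hc := char_step (t := t) he hP hm
  have hv0 := vs_nonneg (t := t) he hP hm
  have hv1 := (X_two (t := t) he hP hm).2.2
  set v := vs t e P ((m:ℝ) + 1) with hv
  set J := ∫ x, Complex.exp (Complex.I * (Xs t e P ((m:ℝ) + 1) x : ℝ)) ∂(kap n)
  have hs : 0 < √((m:ℝ) + 1) := Real.sqrt_pos.2 (by positivity)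
  have hss : √((m:ℝ) + 1) * √((m:ℝ) + 1) = (m:ℝ) + 1 := Real.mul_self_sqrt (by positivity)
  have hm0 : (0:ℝ) < (m:ℝ) + 1 := by positivity
  have hm1 : (1:ℝ) ≤ (m:ℝ) + 1 := by
    have : (0:ℝ) ≤ m := by positivity
    linarith
  have hs1 : √((m:ℝ) + 1) ≤ (m:ℝ) + 1 := by
    have : 1 ≤ √((m:ℝ) + 1) := by rw [Real.one_le_sqrt]; exact hm1
    nlinarith
  have hC2 := C2_nonneg t
  have hC4 := C4_nonneg t
  have hvC : v ≤ C2 t := hv1.trans (div_le_self hC2 hm1)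
  have e1 : Complex.exp ((v : ℂ) / 2) * J - 1 = Complex.exp ((v : ℂ) / 2) * (J - (1 - (v:ℂ) / 2))
      + (Complex.exp ((v : ℂ) / 2) * (1 - (v:ℂ) / 2) - 1) := by ring
  have n1 : ‖Complex.exp ((v : ℂ) / 2)‖ = Real.exp (v / 2) := by
    rw [show (v:ℂ) / 2 = ((v / 2 : ℝ) : ℂ) by push_cast; rfl, Complex.norm_exp_ofReal]
  have n2 : ‖Complex.exp ((v : ℂ) / 2) * (1 - (v:ℂ) / 2) - 1‖ = |Real.exp (v / 2) * (1 - v / 2) - 1| := by
    have : Complex.exp ((v : ℂ) / 2) * (1 - (v:ℂ) / 2) - 1 = ((Real.exp (v / 2) * (1 - v / 2) - 1 : ℝ) : ℂ) := by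
      push_cast
      rfl
    rw [this, Complex.norm_real, Real.norm_eq_abs]
  rw [e1]
  refine (norm_add_le _ _).trans ?_
  rw [norm_mul, n1, n2]
  have b1 := exp_quad (y := v / 2) (by positivity)
  have b2 : Real.exp (v / 2) ≤ Real.exp (C2 t) := Real.exp_le_exp.2 (by linarith)
  have b3 : (v / 2) ^ 2 ≤ C2 t ^ 2 / (((m:ℝ) + 1) * √((m:ℝ) + 1)) := by
    calc (v / 2) ^ 2 ≤ v ^ 2 := by nlinarith
      _ ≤ (C2 t / ((m:ℝ) + 1)) ^ 2 := by gcongr
      _ = C2 t ^ 2 / (((m:ℝ) + 1) * ((m:ℝ) + 1)) := by rw [div_pow]; ring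
      _ ≤ _ := by
        refine div_le_div_of_nonneg_left (by positivity) (by positivity) ?_
        gcongr
  calc Real.exp (v / 2) * ‖J - (1 - (v:ℂ) / 2)‖ + |Real.exp (v / 2) * (1 - v / 2) - 1|
      ≤ Real.exp (C2 t) * (2 * (C4 t + C2 t) / (((m:ℝ) + 1) * √((m:ℝ) + 1)))
        + (C2 t ^ 2 / (((m:ℝ) + 1) * √((m:ℝ) + 1))) * Real.exp (C2 t) := by
        refine add_le_add (mul_le_mul b2 hc (norm_nonneg _) (Real.exp_pos _).le) (b1.trans ?_)
        exact mul_le_mul b3 b2 (Real.exp_pos _).le (by positivity)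
    _ = _ := by unfold C5; ring

end

end Pool.Agent.helper13.SGC
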