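import Mathlib
import Pool.Agent.helper84.SG.Defs2
/-! Definitions of module C are those of `Pool.Agent.helper84.SG.Defs2`. -/
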