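import Mathlib
import Pool.Agent.helper13.SGC.Col
import Pool.Agent.helper13.SGC.CIface
/-! One point function and martingale property. -/
set_option autoImplicit false
open MeasureTheory ProbabilityTheory Filter Topology
open scoped NNReal ENNReal ComplexConjugate Matrix Real
namespace Pool.Agent.helper13.SGC
open Pool.Agent.helper84.SG

variable {n : ℕ}

/-- the vectors `g_1(e), ..., g_k(e)` -/
noncomputable def gs {k : ℕ} (e : ℂ × ℂ) (c : Fin k → Col n) : Fin k → Fin n → ℂ := fun i => ge e (c i)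

lemma measurable_gs {k : ℕ} (e : ℂ × ℂ) : Measurable (gs e : (Fin k → Col n) → Fin k → Fin n → ℂ) := by
  unfold gs
  exact measurable_pi_lambda _ fun i => (measurable_ge e).comp (measurable_pi_apply i)

lemma gs_snoc_init {k : ℕ} (e : ℂ × ℂ) (c : Fin k → Col n) (x : Col n) :
    Fin.init (gs e (Fin.snoc c x : Fin (k + 1) → Col n)) = gs e c := by
  funext i
  simp [Fin.init, gs]

lemma gs_snoc_last {k : ℕ} (e : ℂ × ℂ) (c : Fin k → Col n) (x : Col n) :
    gs e (Fin.snoc c x : Fin (k + 1) → Col n) (Fin.last k) = ge e x := by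
  simp [gs]

/-- the projection after `k` columns -/
noncomputable def Pj {k : ℕ} (e : ℂ × ℂ) (c : Fin k → Col n) : Matrix (Fin n) (Fin n) ℂ := PG k (gs e c)

lemma isPr_Pj {k : ℕ} (e : ℂ × ℂ) (c : Fin k → Col n) : IsPr (Pj e c) := isPr_PG _ _

lemma Pj_snoc {k : ℕ} (e : ℂ × ℂ) (c : Fin k → Col n) (x : Col n) :
    Pj e (Fin.snoc c x : Fin (k + 1) → Col n) = step (Pj e c) (ge e x) := by
  unfold Pj
  rw [PG, gs_snoc_init, gs_snoc_last]

/-- product of the squared distances -/
noncomputable def pj {k : ℕ} (e : ℂ × ℂ) (c : Fin k → Col n) : ℝ := pr k (gs e c)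

lemma pj_nonneg {k : ℕ} (e : ℂ × ℂ) (c : Fin k → Col n) : 0 ≤ pj e c := pr_nonneg _ _

lemma pj_snoc {k : ℕ} (e : ℂ × ℂ) (c : Fin k → Col n) (x : Col n) :
    pj e (Fin.snoc c x : Fin (k + 1) → Col n) = pj e c * qf (Pj e c) (ge e x) := by
  unfold pj Pj
  rw [pr, gs_snoc_init, gs_snoc_last]

lemma measurable_pr {α : Type*} [MeasurableSpace α] (k : ℕ) (G : α → Fin k → Fin n → ℂ) (hG : Measurable G) :
    Measurable (fun a => pr k (G a)) := by
  induction k with
  | zero => exact measurable_const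
  | succ k ih =>
    have h0 : Measurable (fun a => Fin.init (G a)) := by unfold Fin.init; fun_prop
    have h1 : ∀ i j, Measurable (fun a => PG k (Fin.init (G a)) i j) := measurable_PG k _ h0
    have h3 : Measurable (fun a => qf (PG k (Fin.init (G a))) (G a (Fin.last k))) := by
      simp only [qf, dotProduct, Pi.star_apply, Matrix.mulVec]
      fun_prop
    exact (ih _ h0).mul h3

lemma measurable_pj {k : ℕ} (e : ℂ × ℂ) : Measurable (pj e : (Fin k → Col n) → ℝ) :=
  measurable_pr k _ (measurable_gs e)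

lemma measurable_Pj {k : ℕ} (e : ℂ × ℂ) (i j : Fin n) : Measurable (fun c : Fin k → Col n => Pj e c i j) :=
  measurable_PG k _ (measurable_gs e) i j

lemma gram_eq {k : ℕ} (hk : k ≤ n) (M : (Fin n → Fin n → ℂ) × (Fin n → Fin n → ℂ)) (e : ℂ × ℂ) :
    gram k hk M e = pj e (cols hk M) := by
  have h := gr_eq k (gs e (cols hk M))
  unfold pj gram
  rw [← Complex.ofReal_re (pr k (gs e (cols hk M))), ← h]
  unfold gr
  congr 2

lemma trace_Pj {k m : ℕ} (hk : k + (m + 1) = n) (e : ℂ × ℂ) {c : Fin k → Col n} (h : 0 < pj e c) :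
    (Pj e c).trace = (m + 1 : ℕ) := by
  unfold Pj
  rw [trace_PG _ _ h.ne', ← hk]
  push_cast; ring

lemma pos_step {k m : ℕ} (hk : k + (m + 1) = n) {e : ℂ × ℂ} (he : Unit2 e) {c : Fin k → Col n} (h : 0 < pj e c) :
    ∀ᵐ x ∂(kap n), 0 < qf (Pj e c) (ge e x) := by
  have h1 := qf_pos_ae (isPr_Pj e c).1 (isPr_Pj e c).2 (trace_Pj hk e h)
  exact (mp_ge he).quasiMeasurePreserving.ae h1

theorem pos_ae {e : ℂ × ℂ} (he : Unit2 e) (k : ℕ) (hk : k ≤ n) : ∀ᵐ c ∂(mu n k), 0 < pj e c := by
  induction k with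
  | zero => exact Eventually.of_forall fun c => by simp [pj, pr]
  | succ k ih =>
    refine ae_succ (measurableSet_lt measurable_const (measurable_pj e)) ?_
    filter_upwards [ih (by omega)] with c hc
    filter_upwards [pos_step (m := n - (k + 1)) (by omega) he hc] with x hx
    rw [pj_snoc]
    exact mul_pos hc hx

lemma lint_step {k m : ℕ} (hk : k + (m + 1) = n) {e : ℂ × ℂ} (he : Unit2 e) {c : Fin k → Col n}
    (h : 0 < pj e c) {s : ℝ} (hs : 0 ≤ s) :
    ∫⁻ x, ENNReal.ofReal (qf (Pj e c) (ge e x) ^ s) ∂(kap n)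
      = ENNReal.ofReal (Real.Gamma ((n:ℝ) - k + s) / Real.Gamma ((n:ℝ) - k)) := by
  have h1 := law_proj (isPr_Pj e c).1 (isPr_Pj e c).2 (trace_Pj hk e h) (fun t => ENNReal.ofReal (t ^ s)) (by fun_prop)
  rw [gd_mom m hs] at h1
  have h2 := (mp_ge he).lintegral_comp (f := fun g => ENNReal.ofReal (qf (Pj e c) g ^ s))
    (((measurable_qf _).pow_const s).ennreal_ofReal)
  rw [h2, h1]
  have : (n : ℝ) - k = m + 1 := by
    rw [← hk]; push_cast; ring
  rw [this]

lemma nrm_succ (n k : ℕ) (s : ℝ) : nrm n (k + 1) s = nrm n k s * (Real.Gamma ((n : ℝ) - k + s) / Real.Gamma ((n : ℝ) - k)) := by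
  unfold nrm
  rw [Finset.prod_range_succ]

lemma ratio_pos {n k : ℕ} (hk : k < n) {s : ℝ} (hs : 0 ≤ s) :
    0 < Real.Gamma ((n : ℝ) - k + s) / Real.Gamma ((n : ℝ) - k) := by
  have : (k : ℝ) < n := by exact_mod_cast hk
  exact div_pos (Real.Gamma_pos_of_pos (by linarith)) (Real.Gamma_pos_of_pos (by linarith))

lemma nrm_pos {n k : ℕ} (hk : k ≤ n) {s : ℝ} (hs : 0 ≤ s) : 0 < nrm n k s := by
  unfold nrm
  refine Finset.prod_pos fun j hj => ratio_pos ?_ hs
  have := Finset.mem_range.1 hj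
  omega

theorem lint_moment (k : ℕ) (hk : k ≤ n) {s : ℝ} (hs : 0 ≤ s) {e : ℂ × ℂ} (he : Unit2 e) :
    ∫⁻ c, ENNReal.ofReal (pj e c ^ s) ∂(mu n k) = ENNReal.ofReal (nrm n k s) := by
  induction k with
  | zero => simp [pj, pr, nrm]
  | succ k ih =>
    rw [lint_succ _ (((measurable_pj e).pow_const s).ennreal_ofReal), nrm_succ,
      ENNReal.ofReal_mul (nrm_pos (by omega) hs).le, ← ih (by omega), ← lintegral_mul_const' _ _ (by simp)]
    refine lintegral_congr_ae ?_
    filter_upwards [pos_ae he k (by omega)] with c hc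
    simp_rw [pj_snoc]
    have h1 : ∀ x, ENNReal.ofReal ((pj e c * qf (Pj e c) (ge e x)) ^ s)
        = ENNReal.ofReal (pj e c ^ s) * ENNReal.ofReal (qf (Pj e c) (ge e x) ^ s) := by
      intro x
      rw [Real.mul_rpow hc.le ((isPr_Pj e c).qf_nonneg _), ENNReal.ofReal_mul (by positivity)]
    simp_rw [h1]
    rw [lintegral_const_mul' _ _ (by simp), lint_step (m := n - (k + 1)) (by omega) he hc hs]

theorem gram_moment {n : ℕ} (k : ℕ) (hk : k ≤ n) (s : ℝ) (hs : 0 ≤ s) (e : ℂ × ℂ) (he : Unit2 e) :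
    Integrable (fun M => gram k hk M e ^ s) (pen n) ∧
      ∫ M, gram k hk M e ^ s ∂(pen n) = nrm n k s := by
  simp_rw [gram_eq]
  have hl := lint_moment k hk hs he
  have hm : Measurable (fun c : Fin k → Col n => pj e c ^ s) := (measurable_pj e).pow_const s
  have hpos : 0 ≤ᵐ[mu n k] fun c => pj e c ^ s :=
    Eventually.of_forall fun c => Real.rpow_nonneg (pj_nonneg e c) s
  have hi : Integrable (fun c : Fin k → Col n => pj e c ^ s) (mu n k) := by
    refine (lintegral_ofReal_ne_top_iff_integrable hm.aestronglyMeasurable hpos).1 ?_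
    rw [hl]; simp
  refine ⟨(mp_cols hk).integrable_comp_of_integrable hi, ?_⟩
  rw [mp_integral (mp_cols hk) (f := fun c => pj e c ^ s) hm.aestronglyMeasurable,
    integral_eq_lintegral_of_nonneg_ae hpos hm.aestronglyMeasurable, hl, ENNReal.toReal_ofReal (nrm_pos hk hs).le]

lemma martingale_lint {h : ℝ} (hh : 0 ≤ h) {e : ℂ × ℂ} (he : Unit2 e) {k : ℕ} (F : (Fin k → Col n) → ℝ≥0∞)
    (hF : Measurable F) (hFf : ∀ c, F c ≠ ∞) (j : ℕ) (hj : k + j ≤ n) :
    ∫⁻ c, ENNReal.ofReal (pj e c ^ h / nrm n (k + j) h) * F (fun i => c (Fin.castLE (by omega) i)) ∂(mu n (k + j))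
      = ∫⁻ c, ENNReal.ofReal (pj e c ^ h / nrm n k h) * F c ∂(mu n k) := by
  induction j with
  | zero => rfl
  | succ j ih =>
    rw [← ih (by omega)]
    have hm : Measurable (fun c : Fin (k + j + 1) → Col n =>
        ENNReal.ofReal (pj e c ^ h / nrm n (k + (j + 1)) h) * F (fun i => c (Fin.castLE (by omega) i))) := by
      refine Measurable.mul ?_ (hF.comp (by fun_prop))
      exact (((measurable_pj e).pow_const h).div_const _).ennreal_ofReal
    refine (lint_succ (k := k + j) _ hm).trans ?_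
    refine lintegral_congr_ae ?_
    filter_upwards [pos_ae he (k + j) (by omega)] with c hc
    have h1 : ∀ x, ENNReal.ofReal (pj e (Fin.snoc c x : Fin (k + j + 1) → Col n) ^ h / nrm n (k + (j + 1)) h) *
        F (fun i => (Fin.snoc c x : Fin (k + j + 1) → Col n) (Fin.castLE (by omega) i))
        = (ENNReal.ofReal (pj e c ^ h / nrm n (k + (j + 1)) h) * F (fun i => c (Fin.castLE (by omega) i))) *
          ENNReal.ofReal (qf (Pj e c) (ge e x) ^ h) := by
      intro x
      have e1 : (fun i : Fin k => (Fin.snoc c x : Fin (k + j + 1) → Col n) (Fin.castLE (by omega) i))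
          = (fun i => c (Fin.castLE (by omega) i)) := by
        funext i
        have : (Fin.castLE (by omega) i : Fin (k + j + 1)) = Fin.castSucc (Fin.castLE (by omega) i) := rfl
        rw [this, Fin.snoc_castSucc]
      rw [e1, pj_snoc, Real.mul_rpow hc.le ((isPr_Pj e c).qf_nonneg _)]
      have hn := nrm_pos (n := n) (k := k + (j + 1)) (by omega) hh
      rw [show pj e c ^ h * qf (Pj e c) (ge e x) ^ h / nrm n (k + (j + 1)) h
        = pj e c ^ h / nrm n (k + (j + 1)) h * qf (Pj e c) (ge e x) ^ h by ring,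
        ENNReal.ofReal_mul (by positivity)]
      ring
    simp_rw [h1]
    rw [lintegral_const_mul' _ _ (ENNReal.mul_ne_top ENNReal.ofReal_ne_top (hFf _)),
      lint_step (m := n - (k + j + 1)) (by omega) he hc hh]
    have hr := ratio_pos (n := n) (k := k + j) (by omega) hh
    have hn := nrm_pos (n := n) (k := k + j) (by omega) hh
    have e2 : pj e c ^ h / nrm n (k + j) h
        = pj e c ^ h / nrm n (k + (j + 1)) h * (Real.Gamma ((n : ℝ) - (k + j : ℕ) + h) / Real.Gamma ((n : ℝ) - (k + j : ℕ))) := by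
      rw [← add_assoc, nrm_succ, div_mul_eq_mul_div, mul_div_mul_right _ _ hr.ne']
    rw [e2, ENNReal.ofReal_mul (by
      have := nrm_pos (n := n) (k := k + (j + 1)) (by omega) hh
      positivity)]
    ring

theorem Yf_martingale {n : ℕ} (h : ℝ) (hh : 0 < h) (k : ℕ) (hk : k ≤ n) (e e' : ℂ × ℂ)
    (he : Unit2 e) (he' : Unit2 e') :
    ∫ M, Yf h n le_rfl M e * Yf h k hk M e' ∂(pen n) =
      ∫ M, Yf h k hk M e * Yf h k hk M e' ∂(pen n) := by
  unfold Yf
  simp_rw [gram_eq]
  have hnn : ∀ {j : ℕ} (hj : j ≤ n) (e : ℂ × ℂ) (c : Fin j → Col n), 0 ≤ pj e c ^ h / nrm n j h := by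
    intro j hj e c
    exact div_nonneg (Real.rpow_nonneg (pj_nonneg e c) h) (nrm_pos hj hh.le).le
  have hme : ∀ {j : ℕ} (e : ℂ × ℂ), Measurable (fun c : Fin j → Col n => pj e c ^ h / nrm n j h) :=
    fun e => ((measurable_pj e).pow_const h).div_const _
  have key : ∀ (j : ℕ) (hj : k + j ≤ n), ∫ M, pj e (cols hj M) ^ h / nrm n (k + j) h *
      (pj e' (cols hk M) ^ h / nrm n k h) ∂(pen n)
      = (∫⁻ c, ENNReal.ofReal (pj e c ^ h / nrm n k h) * ENNReal.ofReal (pj e' c ^ h / nrm n k h) ∂(mu n k)).toReal := by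
    intro j hj
    rw [integral_eq_lintegral_of_nonneg_ae]
    · congr 1
      rw [← martingale_lint hh.le he (fun c => ENNReal.ofReal (pj e' c ^ h / nrm n k h)) (hme e').ennreal_ofReal
        (fun _ => ENNReal.ofReal_ne_top) j hj]
      have hG : Measurable (fun c : Fin (k + j) → Col n => ENNReal.ofReal (pj e c ^ h / nrm n (k + j) h) *
        ENNReal.ofReal (pj e' (fun i => c (Fin.castLE (by omega) i) : Fin k → Col n) ^ h / nrm n k h)) := by
        refine (hme e).ennreal_ofReal.mul ?_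
        exact (((hme e').comp (f := fun (c : Fin (k + j) → Col n) (i : Fin k) => c (Fin.castLE (by omega) i)) (by fun_prop))).ennreal_ofReal
      rw [← (mp_cols hj).lintegral_comp hG]
      refine lintegral_congr fun M => ?_
      rw [ENNReal.ofReal_mul (hnn hj _ _)]
      rfl
    · exact Eventually.of_forall fun M => mul_nonneg (hnn hj _ _) (hnn hk _ _)
    · exact (((hme e).comp (mp_cols hj).measurable).mul ((hme e').comp (mp_cols hk).measurable)).aestronglyMeasurable
  have h1 := key (n - k) (by omega)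
  have h0 := key 0 (by omega)
  have e1 : ∫ M, pj e (cols le_rfl M) ^ h / nrm n n h * (pj e' (cols hk M) ^ h / nrm n k h) ∂(pen n)
      = ∫ M, pj e (cols (show k + (n - k) ≤ n by omega) M) ^ h / nrm n (k + (n - k)) h *
      (pj e' (cols hk M) ^ h / nrm n k h) ∂(pen n) := by
    have : ∀ (j : ℕ) (hj : j ≤ n) (hj2 : j = n), ∫ M, pj e (cols le_rfl M) ^ h / nrm n n h * (pj e' (cols hk M) ^ h / nrm n k h) ∂(pen n)
      = ∫ M, pj e (cols hj M) ^ h / nrm n j h * (pj e' (cols hk M) ^ h / nrm n k h) ∂(pen n) := by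
      intro j hj hj2
      subst hj2
      rfl
    exact this _ _ (by omega)
  rw [e1, h1, ← h0]
  rfl

end Pool.Agent.helper13.SGC
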