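import Mathlib
import Pool.Agent.helper13.SGC.Four
import Pool.Agent.helper13.SGC.CMom
/-! Law of large numbers for the overlap. -/
set_option autoImplicit false
open MeasureTheory ProbabilityTheory Filter Topology
open scoped NNReal ENNReal ComplexConjugate Matrix Real
namespace Pool.Agent.helper13.SGC
open Pool.Agent.helper84.SG

variable {n : ℕ}

/-- overlap after `k` columns -/
noncomputable def ovc {k : ℕ} (e e' : ℂ × ℂ) (c : Fin k → Col n) : ℝ := ov (Pj e c) (Pj e' c)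

lemma measurable_ovc {k : ℕ} (e e' : ℂ × ℂ) : Measurable (ovc e e' : (Fin k → Col n) → ℝ) := by
  unfold ovc ov
  simp only [Matrix.trace, Matrix.diag, Matrix.mul_apply]
  have h1 := fun i j => measurable_Pj (n := n) (k := k) e i j
  have h2 := fun i j => measurable_Pj (n := n) (k := k) e' i j
  refine Complex.measurable_re.comp ?_
  exact Finset.measurable_sum _ fun i _ => Finset.measurable_sum _ fun j _ => (h1 i j).mul (h2 j i)

lemma ovc_nonneg {k : ℕ} (e e' : ℂ × ℂ) (c : Fin k → Col n) : 0 ≤ ovc e e' c :=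
  ov_nonneg (isPr_Pj _ _) (isPr_Pj _ _)

lemma ovc_le {k : ℕ} (e e' : ℂ × ℂ) (c : Fin k → Col n) : ovc e e' c ≤ n := by
  have h1 := ov_le (isPr_Pj e c) (isPr_Pj e' c)
  have h2 := ov_le (IsPr.one (n := n)) (isPr_Pj e c)
  have h3 : ov 1 (Pj e c) = (Pj e c).trace.re := by unfold ov; rw [one_mul]
  rw [h3, Matrix.trace_one, Fintype.card_fin] at h2
  simp at h2
  exact h1.trans h2

lemma ovc_snoc {k : ℕ} (e e' : ℂ × ℂ) (c : Fin k → Col n) (x : Col n) :
    ovc e e' (Fin.snoc c x : Fin (k + 1) → Col n) = ovc e e' c + dl (Pj e c) (Pj e' c) e e' x := by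
  unfold ovc dl
  rw [Pj_snoc, Pj_snoc]
  ring

/-- the deterministic profile -/
noncomputable def ob (n k : ℕ) (ξ : ℝ) : ℝ := ((n:ℝ) - k) ^ 2 / ((n:ℝ) - k * ξ)

lemma ob_bounds {n k : ℕ} (hk : k < n) {ξ : ℝ} (h1 : ξ ≤ 1) :
    0 ≤ ob n k ξ ∧ ob n k ξ ≤ (n:ℝ) - k := by
  have hk' : (k:ℝ) + 1 ≤ n := by exact_mod_cast hk
  have hk0 : (0:ℝ) ≤ k := by positivity
  have hD : (n:ℝ) - k ≤ (n:ℝ) - k * ξ := by nlinarith
  have hm : (0:ℝ) < (n:ℝ) - k := by linarith
  unfold ob
  refine ⟨by have : 0 < (n:ℝ) - k * ξ := by linarith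
             positivity, ?_⟩
  rw [div_le_iff₀ (by linarith)]
  nlinarith

lemma scalar_step {m ξ D O : ℝ} (hm : 2 ≤ m) (h0 : 0 ≤ ξ) (h1 : ξ ≤ 1) (hD : m ≤ D) (hO : 0 ≤ O) (hOm : O ≤ m) :
    |O - (m - 1) ^ 2 / (D - ξ) + (-2 * O / m + ξ * O ^ 2 / m ^ 2)| ≤ |O - m ^ 2 / D| + 2 / √m := by
  have hD0 : 0 < D := by linarith
  have hDx : 0 < D - ξ := by linarith
  have hm0 : 0 < m := by linarith
  have hR : m ^ 2 / D - (m - 1) ^ 2 / (D - ξ) + (-2 * (m ^ 2 / D) / m + ξ * (m ^ 2 / D) ^ 2 / m ^ 2)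
      = - ((D - ξ * m) ^ 2 / (D ^ 2 * (D - ξ))) := by
    field_simp
    ring
  have hR1 : |m ^ 2 / D - (m - 1) ^ 2 / (D - ξ) + (-2 * (m ^ 2 / D) / m + ξ * (m ^ 2 / D) ^ 2 / m ^ 2)| ≤ 2 / √m := by
    rw [hR, abs_neg, abs_of_nonneg (by positivity)]
    have e1 : (D - ξ * m) ^ 2 / (D ^ 2 * (D - ξ)) ≤ 1 / (D - ξ) := by
      rw [div_le_div_iff₀ (by positivity) hDx, one_mul]
      have h2 : (D - ξ * m) ^ 2 ≤ D ^ 2 := by
        have : 0 ≤ D - ξ * m := by nlinarith
        have h3 : D - ξ * m ≤ D := by nlinarith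
        nlinarith
      nlinarith
    have e2 : 1 / (D - ξ) ≤ 2 / m := by
      rw [div_le_div_iff₀ hDx hm0]
      nlinarith
    have e3 : 2 / m ≤ 2 / √m := by
      have hs : 0 < √m := Real.sqrt_pos.2 hm0
      have hss : √m * √m = m := Real.mul_self_sqrt hm0.le
      have hs1 : 1 ≤ √m := by rw [Real.one_le_sqrt]; linarith
      exact div_le_div_of_nonneg_left (by norm_num) hs (by nlinarith)
    exact e1.trans (e2.trans e3)
  have hC : O - (m - 1) ^ 2 / (D - ξ) + (-2 * O / m + ξ * O ^ 2 / m ^ 2)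
      = (O - m ^ 2 / D) * (1 - 2 / m + ξ * (O + m ^ 2 / D) / m ^ 2)
        + (m ^ 2 / D - (m - 1) ^ 2 / (D - ξ) + (-2 * (m ^ 2 / D) / m + ξ * (m ^ 2 / D) ^ 2 / m ^ 2)) := by
    field_simp
    ring
  rw [hC]
  refine (abs_add_le _ _).trans (add_le_add ?_ hR1)
  rw [abs_mul]
  refine mul_le_of_le_one_right (abs_nonneg _) ?_
  have ho : m ^ 2 / D ≤ m := by
    rw [div_le_iff₀ hD0]; nlinarith
  have ho0 : 0 ≤ m ^ 2 / D := by positivity
  have hf0 : 0 ≤ ξ * (O + m ^ 2 / D) / m ^ 2 := by positivity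
  have hf1 : ξ * (O + m ^ 2 / D) / m ^ 2 ≤ 2 / m := by
    rw [div_le_div_iff₀ (by positivity) hm0]
    have : ξ * (O + m ^ 2 / D) ≤ 1 * (O + m ^ 2 / D) := mul_le_mul_of_nonneg_right h1 (by positivity)
    nlinarith
  have h2m : 2 / m ≤ 1 := by rw [div_le_one hm0]; exact hm
  rw [abs_le]
  constructor <;> linarith

theorem lln {e e' : ℂ × ℂ} (he : Unit2 e) (he' : Unit2 e') (k : ℕ) (hk : k + 1 ≤ n) :
    ∫ c, (ovc e e' c - ob n k (ip2 e e')) ^ 2 ∂(mu n k) ≤ 84 * k * √n := by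
  set ξ := ip2 e e' with hξ
  have hξ0 : 0 ≤ ξ := ip2_nonneg _ _
  have hξ1 : ξ ≤ 1 := ip2_le he he'
  induction k with
  | zero =>
    have hn : (0:ℝ) < n := by exact_mod_cast hk
    have : ∀ c : Fin 0 → Col n, ovc e e' c - ob n 0 ξ = 0 := by
      intro c
      unfold ovc Pj ov ob
      simp only [PG, mul_one, Matrix.trace_one, Fintype.card_fin]
      simp
      field_simp
      ring
    simp_rw [this]
    simp
  | succ k ih =>
    have ih' := ih (by omega)
    have hn1 : (1:ℝ) ≤ n := by exact_mod_cast (by omega : 1 ≤ n)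
    have hsn : 1 ≤ √(n:ℝ) := by rw [Real.one_le_sqrt]; exact hn1
    have hbd : ∀ {j : ℕ} (hj : j < n) (c : Fin j → Col n), |ovc e e' c - ob n j ξ| ≤ n := by
      intro j hj c
      have h1 := ob_bounds hj hξ1
      have h2 := ovc_nonneg e e' c
      have h3 := ovc_le e e' c
      have h4 : (0:ℝ) ≤ j := by positivity
      rw [abs_le]; constructor <;> linarith [h1.1, h1.2]
    have hint : ∀ {j : ℕ} (hj : j < n), Integrable (fun c : Fin j → Col n => (ovc e e' c - ob n j ξ) ^ 2) (mu n j) := by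
      intro j hj
      refine (integrable_const ((n:ℝ) ^ 2)).mono' (((measurable_ovc e e').sub_const _).pow_const 2).aestronglyMeasurable ?_
      refine Eventually.of_forall fun c => ?_
      rw [Real.norm_of_nonneg (by positivity), ← sq_abs]
      have := hbd hj c
      gcongr
    rw [int_succ (hint (by omega))]
    have hae : ∀ᵐ c ∂(mu n k), ∫ x, (ovc e e' (Fin.snoc c x : Fin (k + 1) → Col n) - ob n (k + 1) ξ) ^ 2 ∂(kap n)
        ≤ (ovc e e' c - ob n k ξ) ^ 2 + 84 * √n := by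
      filter_upwards [pos_ae he k (by omega), pos_ae he' k (by omega)] with c hc hc'
      obtain ⟨m, hm⟩ : ∃ m, k + (m + 1) = n := ⟨n - (k + 1), by omega⟩
      have hm1 : 1 ≤ m := by omega
      have ht := trace_Pj hm e hc
      have ht' := trace_Pj hm e' hc'
      have hP := isPr_Pj e c
      have hP' := isPr_Pj e' c
      have hD := drift hP hP' ht ht' he he'
      have hmr : (n:ℝ) - k = (m:ℝ) + 1 := by rw [← hm]; push_cast; ring
      have hm2 : (2:ℝ) ≤ (m:ℝ) + 1 := by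
        have : (1:ℝ) ≤ m := by exact_mod_cast hm1
        linarith
      have hOm : ovc e e' c ≤ (m:ℝ) + 1 := by
        have := ov_le hP hP'
        rw [ht] at this
        unfold ovc
        simpa using this
      have hO0 := ovc_nonneg e e' c
      have hk0 : (0:ℝ) ≤ k := by positivity
      have hDD : (m:ℝ) + 1 ≤ (n:ℝ) - k * ξ := by rw [← hmr]; nlinarith
      have hs := scalar_step hm2 hξ0 hξ1 hDD hO0 hOm
      have hob : ob n k ξ = ((m:ℝ) + 1) ^ 2 / ((n:ℝ) - k * ξ) := by unfold ob; rw [hmr]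
      have hob' : ob n (k + 1) ξ = ((m:ℝ) + 1 - 1) ^ 2 / ((n:ℝ) - k * ξ - ξ) := by
        unfold ob
        push_cast
        rw [show (n:ℝ) - (k + 1) = (n - k) - 1 by ring, hmr]
        congr 1
        ring
      rw [← hob, ← hob'] at hs
      set d := ovc e e' c - ob n (k + 1) ξ with hd
      set Dl := ∫ x, dl (Pj e c) (Pj e' c) e e' x ∂(kap n) with hDl
      have hdm := measurable_dl hP hP' e e'
      have hda := fun x => dl_abs hP hP' e e' x
      have hdi : Integrable (dl (Pj e c) (Pj e' c) e e') (kap n) :=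
        (integrable_const (2:ℝ)).mono' hdm.aestronglyMeasurable (Eventually.of_forall hda)
      have hup : ∀ x, (ovc e e' (Fin.snoc c x : Fin (k + 1) → Col n) - ob n (k + 1) ξ) ^ 2
          ≤ (d ^ 2 + 4) + (2 * d) * dl (Pj e c) (Pj e' c) e e' x := by
        intro x
        rw [ovc_snoc]
        have e1 : ovc e e' c + dl (Pj e c) (Pj e' c) e e' x - ob n (k + 1) ξ = d + dl (Pj e c) (Pj e' c) e e' x := by
          rw [hd]; ring
        rw [e1]
        have := hda x
        have h4 : dl (Pj e c) (Pj e' c) e e' x ^ 2 ≤ 4 := by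
          rw [← sq_abs]; nlinarith [abs_nonneg (dl (Pj e c) (Pj e' c) e e' x)]
        nlinarith
      have hI : ∫ x, (ovc e e' (Fin.snoc c x : Fin (k + 1) → Col n) - ob n (k + 1) ξ) ^ 2 ∂(kap n)
          ≤ (d + Dl) ^ 2 + 4 := by
        calc _ ≤ ∫ x, ((d ^ 2 + 4) + (2 * d) * dl (Pj e c) (Pj e' c) e e' x) ∂(kap n) := by
              refine integral_mono_of_nonneg (Eventually.of_forall fun x => by positivity) ?_ (Eventually.of_forall hup)
              exact (integrable_const _).add (hdi.const_mul _)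
          _ = d ^ 2 + 4 + 2 * d * Dl := by
              rw [integral_add (integrable_const _) (hdi.const_mul _), integral_const_mul]
              simp only [integral_const, probReal_univ, smul_eq_mul, one_mul]
              rfl
          _ ≤ _ := by nlinarith [sq_nonneg Dl]
      refine hI.trans ?_
      have hdD : |d + Dl| ≤ |ovc e e' c - ob n k ξ| + 8 / √((m:ℝ) + 1) := by
        have e1 : d + Dl = (ovc e e' c - ob n (k + 1) ξ + (-2 * ovc e e' c / ((m:ℝ) + 1) + ξ * ovc e e' c ^ 2 / ((m:ℝ) + 1) ^ 2))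
          + (Dl - (-2 * ovc e e' c / ((m:ℝ) + 1) + ξ * ovc e e' c ^ 2 / ((m:ℝ) + 1) ^ 2)) := by rw [hd]; ring
        rw [e1]
        have h8 : 8 / √((m:ℝ) + 1) = 2 / √((m:ℝ) + 1) + 6 / √((m:ℝ) + 1) := by ring
        rw [h8]
        have h9 := (abs_add_le (ovc e e' c - ob n (k + 1) ξ + (-2 * ovc e e' c / ((m:ℝ) + 1) + ξ * ovc e e' c ^ 2 / ((m:ℝ) + 1) ^ 2))
          (Dl - (-2 * ovc e e' c / ((m:ℝ) + 1) + ξ * ovc e e' c ^ 2 / ((m:ℝ) + 1) ^ 2))).trans (add_le_add hs hD)
        linarith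
      have hsq : (d + Dl) ^ 2 ≤ (|ovc e e' c - ob n k ξ| + 8 / √((m:ℝ) + 1)) ^ 2 := by
        rw [← sq_abs (d + Dl)]
        gcongr
      have hem : |ovc e e' c - ob n k ξ| ≤ (m:ℝ) + 1 := by
        have h1 := ob_bounds (n := n) (k := k) (by omega) hξ1
        rw [hmr] at h1
        rw [abs_le]; constructor <;> linarith [h1.1, h1.2]
      have hs0 : 0 < √((m:ℝ) + 1) := Real.sqrt_pos.2 (by positivity)
      have hss : √((m:ℝ) + 1) * √((m:ℝ) + 1) = (m:ℝ) + 1 := Real.mul_self_sqrt (by positivity)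
      have hs1 : 1 ≤ √((m:ℝ) + 1) := by rw [Real.one_le_sqrt]; linarith
      have hsn' : √((m:ℝ) + 1) ≤ √(n:ℝ) := by
        apply Real.sqrt_le_sqrt
        rw [← hmr]
        linarith
      have hx : (|ovc e e' c - ob n k ξ| + 8 / √((m:ℝ) + 1)) ^ 2
          ≤ (ovc e e' c - ob n k ξ) ^ 2 + 16 * √((m:ℝ) + 1) + 64 := by
        rw [← sq_abs (ovc e e' c - ob n k ξ)]
        set a := |ovc e e' c - ob n k ξ|
        have e1 : (a + 8 / √((m:ℝ) + 1)) ^ 2 = a ^ 2 + 16 * (a / √((m:ℝ) + 1)) + 64 * (1 / ((m:ℝ) + 1)) := by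
          rw [show 1 / ((m:ℝ) + 1) = 1 / (√((m:ℝ) + 1) * √((m:ℝ) + 1)) by rw [hss]]
          generalize √((m:ℝ) + 1) = s at hs0 ⊢
          field_simp; ring
        rw [e1]
        have e2 : a / √((m:ℝ) + 1) ≤ √((m:ℝ) + 1) := by
          rw [div_le_iff₀ hs0, hss]; exact hem
        have e3 : 1 / ((m:ℝ) + 1) ≤ 1 := by rw [div_le_one (by positivity)]; linarith
        linarith
      linarith
    calc ∫ c, ∫ x, (ovc e e' (Fin.snoc c x : Fin (k + 1) → Col n) - ob n (k + 1) ξ) ^ 2 ∂(kap n) ∂(mu n k)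
        ≤ ∫ c, ((ovc e e' c - ob n k ξ) ^ 2 + 84 * √n) ∂(mu n k) := by
          refine integral_mono_of_nonneg (Eventually.of_forall fun c => integral_nonneg fun x => by positivity) ?_ hae
          exact (hint (by omega)).add (integrable_const _)
      _ ≤ 84 * k * √n + 84 * √n := by
          rw [integral_add (hint (by omega)) (integrable_const _)]
          simp only [integral_const, probReal_univ, smul_eq_mul, one_mul]
          linarith
      _ = _ := by push_cast; ring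

end Pool.Agent.helper13.SGC
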