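import Mathlib
import Pool.Agent.helper13.SGC.Lln
import Pool.Agent.helper13.SGC.Char
/-! Additive functionals of the columns. -/
set_option autoImplicit false
open MeasureTheory ProbabilityTheory Filter Topology
open scoped NNReal ENNReal ComplexConjugate Matrix Real
namespace Pool.Agent.helper13.SGC
open Pool.Agent.helper84.SG

variable {n : ℕ}

/-- additive functional -/
noncomputable def addf (φ : (j : ℕ) → (Fin j → Col n) → Col n → ℝ) : (k : ℕ) → (Fin k → Col n) → ℝ
  | 0, _ => 0
  | k + 1, c => addf φ k (Fin.init c) + φ k (Fin.init c) (c (Fin.last k))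

lemma addf_snoc (φ : (j : ℕ) → (Fin j → Col n) → Col n → ℝ) {k : ℕ} (c : Fin k → Col n) (x : Col n) :
    addf φ (k + 1) (Fin.snoc c x) = addf φ k c + φ k c x := by
  rw [addf, Fin.snoc_last]
  have : Fin.init (Fin.snoc c x : Fin (k + 1) → Col n) = c := by
    funext i; simp [Fin.init]
  rw [this]

/-- joint measurability of the increments -/
def JM (φ : (j : ℕ) → (Fin j → Col n) → Col n → ℝ) : Prop :=
  ∀ j, Measurable (fun p : (Fin j → Col n) × Col n => φ j p.1 p.2)

lemma measurable_addf {φ : (j : ℕ) → (Fin j → Col n) → Col n → ℝ} (hφ : JM φ) (k : ℕ) : Measurable (addf φ k) := by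
  induction k with
  | zero => exact measurable_const
  | succ k ih =>
    have h1 : Measurable (fun c : Fin (k + 1) → Col n => (Fin.init c : Fin k → Col n)) := by
      unfold Fin.init; fun_prop
    exact (ih.comp h1).add ((hφ k).comp (h1.prodMk (measurable_pi_apply _)))

lemma JM.right {φ : (j : ℕ) → (Fin j → Col n) → Col n → ℝ} (hφ : JM φ) {j : ℕ} (c : Fin j → Col n) :
    Measurable (φ j c) := (hφ j).comp measurable_prodMk_left

lemma lint_addf {φ : (j : ℕ) → (Fin j → Col n) → Col n → ℝ} (hφ : JM φ) (a : ℕ → ℝ) (k : ℕ) :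
    ∫⁻ c, ENNReal.ofReal |addf φ k c - ∑ j ∈ Finset.range k, a j| ∂(mu n k)
      ≤ ∑ j ∈ Finset.range k, ∫⁻ c, ∫⁻ x, ENNReal.ofReal |φ j c x - a j| ∂(kap n) ∂(mu n j) := by
  induction k with
  | zero => simp [addf]
  | succ k ih =>
    rw [lint_succ _ (by have := measurable_addf hφ (k + 1); fun_prop), Finset.sum_range_succ, Finset.sum_range_succ]
    refine le_trans ?_ (add_le_add_left ih _)
    have hm1 : Measurable (fun c : Fin k → Col n => ENNReal.ofReal |addf φ k c - ∑ j ∈ Finset.range k, a j|) := by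
      have := measurable_addf hφ k
      fun_prop
    rw [← lintegral_add_left hm1]
    refine lintegral_mono fun c => ?_
    have hm2 : Measurable (fun _ : Col n => ENNReal.ofReal |addf φ k c - ∑ j ∈ Finset.range k, a j|) := measurable_const
    calc ∫⁻ x, ENNReal.ofReal |addf φ (k + 1) (Fin.snoc c x) - (∑ j ∈ Finset.range k, a j + a k)| ∂(kap n)
        ≤ ∫⁻ x, (ENNReal.ofReal |addf φ k c - ∑ j ∈ Finset.range k, a j| + ENNReal.ofReal |φ k c x - a k|) ∂(kap n) := by
          refine lintegral_mono fun x => ?_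
          rw [addf_snoc, ← ENNReal.ofReal_add (abs_nonneg _) (abs_nonneg _)]
          apply ENNReal.ofReal_le_ofReal
          rw [show addf φ k c + φ k c x - (∑ j ∈ Finset.range k, a j + a k)
            = (addf φ k c - ∑ j ∈ Finset.range k, a j) + (φ k c x - a k) by ring]
          exact abs_add_le _ _
      _ = _ := by
          rw [lintegral_add_left hm2, lintegral_const, measure_univ, mul_one]

lemma min_abs_add (x y : ℝ) : min 1 |x + y| ≤ min 1 |x| + min 1 |y| := by
  have h := abs_add_le x y
  have hx := abs_nonneg x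
  have hy := abs_nonneg y
  rcases min_cases 1 |x + y| with h1 | h1 <;> rcases min_cases 1 |x| with h2 | h2 <;>
    rcases min_cases 1 |y| with h3 | h3 <;> linarith [h1.1, h1.2, h2.1, h2.2, h3.1, h3.2]

lemma lint_addf_min {φ : (j : ℕ) → (Fin j → Col n) → Col n → ℝ} (hφ : JM φ) (k : ℕ) :
    ∫⁻ c, ENNReal.ofReal (min 1 |addf φ k c|) ∂(mu n k)
      ≤ ∑ j ∈ Finset.range k, ∫⁻ c, ∫⁻ x, ENNReal.ofReal (min 1 |φ j c x|) ∂(kap n) ∂(mu n j) := by
  induction k with
  | zero => simp [addf]
  | succ k ih =>
    rw [lint_succ _ (by have := measurable_addf hφ (k + 1); fun_prop), Finset.sum_range_succ]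
    refine le_trans ?_ (add_le_add_left ih _)
    have hm1 : Measurable (fun c : Fin k → Col n => ENNReal.ofReal (min 1 |addf φ k c|)) := by
      have := measurable_addf hφ k
      fun_prop
    rw [← lintegral_add_left hm1]
    refine lintegral_mono fun c => ?_
    have hm2 : Measurable (fun _ : Col n => ENNReal.ofReal (min 1 |addf φ k c|)) := measurable_const
    calc ∫⁻ x, ENNReal.ofReal (min 1 |addf φ (k + 1) (Fin.snoc c x)|) ∂(kap n)
        ≤ ∫⁻ x, (ENNReal.ofReal (min 1 |addf φ k c|) + ENNReal.ofReal (min 1 |φ k c x|)) ∂(kap n) := by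
          refine lintegral_mono fun x => ?_
          rw [addf_snoc, ← ENNReal.ofReal_add (by positivity) (by positivity)]
          exact ENNReal.ofReal_le_ofReal (min_abs_add _ _)
      _ = _ := by
          rw [lintegral_add_left hm2, lintegral_const, measure_univ, mul_one]

lemma lint_addf_sq {φ : (j : ℕ) → (Fin j → Col n) → Col n → ℝ} (hφ : JM φ) (b : ℕ → ℝ) (K : ℕ) (hb : ∀ j < K, 0 ≤ b j)
    (h : ∀ j < K, ∀ᵐ c ∂(mu n j), Integrable (φ j c) (kap n) ∧ Integrable (fun x => φ j c x ^ 2) (kap n) ∧
      ∫ x, φ j c x ∂(kap n) = 0 ∧ ∫ x, φ j c x ^ 2 ∂(kap n) ≤ b j) (k : ℕ) (hk : k ≤ K) :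
    ∫⁻ c, ENNReal.ofReal (addf φ k c ^ 2) ∂(mu n k) ≤ ENNReal.ofReal (∑ j ∈ Finset.range k, b j) := by
  induction k with
  | zero => simp [addf]
  | succ k ih =>
    rw [lint_succ _ (by have := measurable_addf hφ (k + 1); fun_prop), Finset.sum_range_succ,
      ENNReal.ofReal_add (Finset.sum_nonneg fun j hj => hb j (by have := Finset.mem_range.1 hj; omega)) (hb k (by omega))]
    refine le_trans ?_ (add_le_add_left (ih (by omega)) _)
    have hm1 : Measurable (fun c : Fin k → Col n => ENNReal.ofReal (addf φ k c ^ 2)) := by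
      have := measurable_addf hφ k
      fun_prop
    have hconst : ENNReal.ofReal (b k) = ∫⁻ _ : Fin k → Col n, ENNReal.ofReal (b k) ∂(mu n k) := by
      rw [lintegral_const, measure_univ, mul_one]
    rw [hconst, ← lintegral_add_left hm1]
    refine lintegral_mono_ae ?_
    filter_upwards [h k (by omega)] with c hc
    obtain ⟨i1, i2, z, q⟩ := hc
    simp_rw [addf_snoc]
    have e1 : ∀ x, (addf φ k c + φ k c x) ^ 2 = addf φ k c ^ 2 + (2 * addf φ k c) * φ k c x + 1 * φ k c x ^ 2 := by
      intro x; ring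
    have iI : Integrable (fun x => (addf φ k c + φ k c x) ^ 2) (kap n) := by
      simp_rw [e1]
      exact ((integrable_const _).add (i1.const_mul _)).add (i2.const_mul _)
    rw [← ofReal_integral_eq_lintegral_ofReal iI (Eventually.of_forall fun x => by positivity)]
    simp_rw [e1]
    rw [int_aff i1 i2, z, mul_zero, add_zero, one_mul, ENNReal.ofReal_add (by positivity)
      (integral_nonneg fun x => by positivity)]
    exact add_le_add le_rfl (ENNReal.ofReal_le_ofReal q)

end Pool.Agent.helper13.SGC
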