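import Mathlib
import Pool.Agent.helper13.SGC.Add
/-! Central limit theorem for the linear statistic. -/
set_option autoImplicit false
open MeasureTheory ProbabilityTheory Filter Topology
open scoped NNReal ENNReal ComplexConjugate Matrix Real
namespace Pool.Agent.helper13.SGC
open Pool.Agent.helper84.SG

variable {n : ℕ}

section
variable {l : ℕ} (t : Fin l → ℝ) (e : Fin l → ℂ × ℂ)

/-- increments of the linear statistic -/
noncomputable def phX (j : ℕ) (c : Fin j → Col n) (x : Col n) : ℝ := Xs t e (fun a => Pj (e a) c) ((n:ℝ) - j) x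

/-- increments of the conditional variance -/
noncomputable def phV (j : ℕ) (c : Fin j → Col n) (_ : Col n) : ℝ := vs t e (fun a => Pj (e a) c) ((n:ℝ) - j)

lemma measurable_qfj {j : ℕ} (e : ℂ × ℂ) :
    Measurable (fun p : (Fin j → Col n) × Col n => qf (Pj e p.1) (ge e p.2)) := by
  have h1 : ∀ i i', Measurable (fun p : (Fin j → Col n) × Col n => Pj e p.1 i i') := fun i i' =>
    (measurable_Pj e i i').comp measurable_fst
  have h2 : Measurable (fun p : (Fin j → Col n) × Col n => ge e p.2) := (measurable_ge e).comp measurable_snd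
  have h3 : ∀ i, Measurable (fun p : (Fin j → Col n) × Col n => ge e p.2 i) := fun i => (measurable_pi_apply i).comp h2
  simp only [qf, dotProduct, Pi.star_apply, Matrix.mulVec]
  fun_prop

lemma JM_phX : JM (n := n) (phX t e) := by
  intro j
  unfold phX Xs
  refine Finset.measurable_sum _ fun a _ => ?_
  have := measurable_qfj (n := n) (j := j) (e a)
  fun_prop

lemma phV_eq (j : ℕ) (c : Fin j → Col n) (x : Col n) :
    phV t e j c x = ∑ a, ∑ b, t a * t b * (ip2 (e a) (e b) * ovc (e a) (e b) c / ((n:ℝ) - j) ^ 2) := rfl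

lemma JM_phV : JM (n := n) (phV t e) := by
  intro j
  have : (fun p : (Fin j → Col n) × Col n => phV t e j p.1 p.2)
      = fun p => ∑ a, ∑ b, t a * t b * (ip2 (e a) (e b) * ovc (e a) (e b) p.1 / ((n:ℝ) - j) ^ 2) := by
    funext p; exact phV_eq t e j p.1 p.2
  rw [this]
  refine Finset.measurable_sum _ fun a _ => Finset.measurable_sum _ fun b _ => ?_
  have : Measurable (fun p : (Fin j → Col n) × Col n => ovc (e a) (e b) p.1) := (measurable_ovc _ _).comp measurable_fst
  fun_prop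

variable {t e}

lemma good_ae (he : ∀ a, Unit2 (e a)) (k : ℕ) (hk : k ≤ n) : ∀ᵐ c ∂(mu n k), ∀ a, 0 < pj (e a) c :=
  ae_all_iff.2 fun a => pos_ae (he a) k hk

/-- facts about one step at a good configuration -/
lemma step_facts (he : ∀ a, Unit2 (e a)) {k : ℕ} (hk : k < n) {c : Fin k → Col n} (hc : ∀ a, 0 < pj (e a) c) :
    (∀ x, phV t e k c x = vs t e (fun a => Pj (e a) c) ((n:ℝ) - k)) ∧
    0 ≤ vs t e (fun a => Pj (e a) c) ((n:ℝ) - k) ∧
    vs t e (fun a => Pj (e a) c) ((n:ℝ) - k) ≤ C2 t / ((n:ℝ) - k) ∧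
    ‖Complex.exp ((vs t e (fun a => Pj (e a) c) ((n:ℝ) - k) : ℂ) / 2) *
      ∫ x, Complex.exp (Complex.I * (phX t e k c x : ℝ)) ∂(kap n) - 1‖ ≤ C5 t / (((n:ℝ) - k) * √((n:ℝ) - k)) := by
  obtain ⟨m, hm⟩ : ∃ m, k + (m + 1) = n := ⟨n - (k + 1), by omega⟩
  have hmr : (n:ℝ) - k = (m:ℝ) + 1 := by rw [← hm]; push_cast; ring
  have hP : ∀ a, IsPr (Pj (e a) c) := fun a => isPr_Pj _ _
  have ht : ∀ a, (Pj (e a) c).trace = (m + 1 : ℕ) := fun a => trace_Pj hm (e a) (hc a)
  have h1 := vs_nonneg (t := t) he hP ht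
  have h2 := (X_two (t := t) he hP ht).2.2
  have h3 := exp_step (t := t) he hP ht
  unfold phX
  rw [hmr]
  refine ⟨fun x => ?_, h1, h2, h3⟩
  unfold phV
  rw [hmr]

lemma V_bound (he : ∀ a, Unit2 (e a)) {δ : ℝ} (hδ : 0 < δ) {K : ℕ} (hK : δ * n ≤ (n:ℝ) - K) (hKn : K < n) (k : ℕ) (hk : k ≤ K) :
    ∀ᵐ c ∂(mu n k), 0 ≤ addf (phV t e) k c ∧ addf (phV t e) k c ≤ k * (C2 t / (δ * n)) := by
  have hn0 : (0:ℝ) < n := by
    have : 0 < n := by omega
    exact_mod_cast this
  induction k with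
  | zero => exact Eventually.of_forall fun c => by simp [addf]
  | succ k ih =>
    have hmeas := measurable_addf (JM_phV (n := n) t e) (k + 1)
    refine ae_succ ?_ ?_
    · exact (measurableSet_le measurable_const hmeas).inter (measurableSet_le hmeas measurable_const)
    filter_upwards [ih (by omega), good_ae he k (by omega)] with c hc hg
    refine Eventually.of_forall fun x => ?_
    obtain ⟨f1, f2, f3, _⟩ := step_facts (t := t) he (by omega : k < n) hg
    rw [addf_snoc, f1]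
    have hkK : (k:ℝ) ≤ K := by exact_mod_cast (by omega : k ≤ K)
    have h4 : C2 t / ((n:ℝ) - k) ≤ C2 t / (δ * n) :=
      div_le_div_of_nonneg_left (C2_nonneg t) (by positivity) (by linarith)
    push_cast
    constructor
    · linarith [hc.1]
    · linarith [hc.2]

/-- the exponential martingale -/
noncomputable def Zf (t : Fin l → ℝ) (e : Fin l → ℂ × ℂ) (k : ℕ) (c : Fin k → Col n) : ℂ :=
  Complex.exp (Complex.I * (addf (phX t e) k c : ℝ) + (addf (phV t e) k c : ℝ) / 2)

lemma measurable_Zf (k : ℕ) : Measurable (Zf (n := n) t e k) := by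
  unfold Zf
  have h1 := measurable_addf (JM_phX (n := n) t e) k
  have h2 := measurable_addf (JM_phV (n := n) t e) k
  fun_prop

lemma norm_Zf (k : ℕ) (c : Fin k → Col n) : ‖Zf t e k c‖ = Real.exp (addf (phV t e) k c / 2) := by
  unfold Zf
  rw [Complex.norm_exp]
  congr 1
  simp

lemma Zf_snoc (k : ℕ) (c : Fin k → Col n) (x : Col n) (v : ℝ) (hv : phV t e k c x = v) :
    Zf t e (k + 1) (Fin.snoc c x) = Zf t e k c * (Complex.exp ((v:ℂ) / 2) * Complex.exp (Complex.I * (phX t e k c x : ℝ))) := by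
  unfold Zf
  rw [addf_snoc, addf_snoc, hv, ← Complex.exp_add, ← Complex.exp_add]
  congr 1
  push_cast
  ring

theorem Z_est (he : ∀ a, Unit2 (e a)) {δ : ℝ} (hδ : 0 < δ) {K : ℕ} (hK : δ * n ≤ (n:ℝ) - K) (hKn : K < n) (k : ℕ) (hk : k ≤ K) :
    Integrable (Zf t e k) (mu n k) ∧
    ‖∫ c, Zf t e k c ∂(mu n k) - 1‖ ≤ k * (Real.exp (C2 t / δ) * (C5 t / ((δ * n) * √(δ * n)))) := by
  have hn0 : (0:ℝ) < n := by
    have : 0 < n := by omega
    exact_mod_cast this
  have hKr : (K:ℝ) ≤ n := by exact_mod_cast hKn.le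
  have hC2 := C2_nonneg t
  have hbd : ∀ j ≤ K, ∀ᵐ c ∂(mu n j), ‖Zf t e j c‖ ≤ Real.exp (C2 t / δ) := by
    intro j hj
    filter_upwards [V_bound (t := t) he hδ hK hKn j hj] with c hc
    rw [norm_Zf]
    apply Real.exp_le_exp.2
    have hjn : (j:ℝ) ≤ n := by
      have : (j:ℝ) ≤ K := by exact_mod_cast hj
      linarith
    have h1 : (j:ℝ) * (C2 t / (δ * n)) ≤ C2 t / δ := by
      calc (j:ℝ) * (C2 t / (δ * n)) ≤ n * (C2 t / (δ * n)) := by gcongr
        _ = _ := by field_simp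
    have h2 : 0 ≤ C2 t / δ := by positivity
    linarith [hc.1, hc.2]
  have hint : ∀ j ≤ K, Integrable (Zf t e j) (mu n j) := fun j hj =>
    (integrable_const (Real.exp (C2 t / δ))).mono' (measurable_Zf j).aestronglyMeasurable (hbd j hj)
  refine ⟨hint k hk, ?_⟩
  induction k with
  | zero =>
    have : ∀ c : Fin 0 → Col n, Zf t e 0 c = 1 := by
      intro c
      unfold Zf addf
      simp
    simp_rw [this]
    simp
  | succ k ih =>
    have ih' := ih (by omega)
    have hI1 := hint (k + 1) hk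
    have hI0 := hint k (by omega)
    rw [int_succ hI1]
    have hIp : Integrable (fun c => ∫ x, Zf t e (k + 1) (Fin.snoc c x) ∂(kap n)) (mu n k) :=
      ((mp_snoc k).integrable_comp_of_integrable hI1).integral_prod_left
    have hstep : ‖∫ c, ∫ x, Zf t e (k + 1) (Fin.snoc c x) ∂(kap n) ∂(mu n k) - ∫ c, Zf t e k c ∂(mu n k)‖
        ≤ Real.exp (C2 t / δ) * (C5 t / ((δ * n) * √(δ * n))) := by
      rw [← integral_sub hIp hI0]
      have hae : ∀ᵐ c ∂(mu n k), ‖∫ x, Zf t e (k + 1) (Fin.snoc c x) ∂(kap n) - Zf t e k c‖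
          ≤ Real.exp (C2 t / δ) * (C5 t / ((δ * n) * √(δ * n))) := by
        filter_upwards [good_ae he k (by omega), hbd k (by omega)] with c hg hb
        obtain ⟨f1, f2, f3, f4⟩ := step_facts (t := t) he (by omega : k < n) hg
        set v := vs t e (fun a => Pj (e a) c) ((n:ℝ) - k) with hv
        have e1 : ∫ x, Zf t e (k + 1) (Fin.snoc c x) ∂(kap n)
            = Zf t e k c * (Complex.exp ((v:ℂ) / 2) * ∫ x, Complex.exp (Complex.I * (phX t e k c x : ℝ)) ∂(kap n)) := by
          have : ∀ x, Zf t e (k + 1) (Fin.snoc c x) = Zf t e k c * (Complex.exp ((v:ℂ) / 2) * Complex.exp (Complex.I * (phX t e k c x : ℝ))) :=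
            fun x => Zf_snoc k c x v (f1 x)
          simp_rw [this]
          rw [integral_const_mul, integral_const_mul]
        have e2 : ∫ x, Zf t e (k + 1) (Fin.snoc c x) ∂(kap n) - Zf t e k c
            = Zf t e k c * (Complex.exp ((v:ℂ) / 2) * ∫ x, Complex.exp (Complex.I * (phX t e k c x : ℝ)) ∂(kap n) - 1) := by
          rw [e1]; ring
        rw [e2, norm_mul]
        refine mul_le_mul hb (f4.trans ?_) (norm_nonneg _) (Real.exp_pos _).le
        have hkK : (k:ℝ) ≤ K := by exact_mod_cast (by omega : k ≤ K)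
        have hle : δ * n ≤ (n:ℝ) - k := by linarith
        refine div_le_div_of_nonneg_left (C5_nonneg t) (by positivity) ?_
        exact mul_le_mul hle (Real.sqrt_le_sqrt hle) (Real.sqrt_nonneg _) (by linarith [mul_pos hδ hn0])
      refine (norm_integral_le_of_norm_le_const hae).trans (le_of_eq ?_)
      simp
    have e3 : ∫ c, ∫ x, Zf t e (k + 1) (Fin.snoc c x) ∂(kap n) ∂(mu n k) - 1
        = (∫ c, ∫ x, Zf t e (k + 1) (Fin.snoc c x) ∂(kap n) ∂(mu n k) - ∫ c, Zf t e k c ∂(mu n k))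
          + (∫ c, Zf t e k c ∂(mu n k) - 1) := by ring
    rw [e3]
    refine (norm_add_le _ _).trans ?_
    push_cast
    linarith

/-- deterministic profile of the variance increments -/
noncomputable def vb (t : Fin l → ℝ) (e : Fin l → ℂ × ℂ) (n j : ℕ) : ℝ :=
  ∑ a, ∑ b, t a * t b * (ip2 (e a) (e b) / ((n:ℝ) - j * ip2 (e a) (e b)))

/-- `L¹` bound for the overlap -/
lemma ov_L1 {e e' : ℂ × ℂ} (he : Unit2 e) (he' : Unit2 e') {k : ℕ} (hk : k < n) :
    ∫⁻ c, ENNReal.ofReal |ovc e e' c - ob n k (ip2 e e')| ∂(mu n k) ≤ ENNReal.ofReal (43 * (√√(n:ℝ)) ^ 3) := by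
  have hn1 : (1:ℝ) ≤ n := by exact_mod_cast (by omega : 1 ≤ n)
  have hr1 : 0 < √√(n:ℝ) := by positivity
  have hr2 : (√√(n:ℝ)) ^ 2 = √(n:ℝ) := Real.sq_sqrt (Real.sqrt_nonneg _)
  have hr4 : (√√(n:ℝ)) ^ 4 = n := by
    rw [show (√√(n:ℝ)) ^ 4 = ((√√(n:ℝ)) ^ 2) ^ 2 by ring, hr2, Real.sq_sqrt (by positivity)]
  set r := √√(n:ℝ) with hr
  have hL := lln (n := n) he he' k (by omega)
  have hbd : ∀ c : Fin k → Col n, |ovc e e' c - ob n k (ip2 e e')| ≤ n := by
    intro c
    have h1 := ob_bounds hk (ip2_le he he')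
    have h2 := ovc_nonneg e e' c
    have h3 := ovc_le e e' c
    have h4 : (0:ℝ) ≤ k := by positivity
    rw [abs_le]; constructor <;> linarith [h1.1, h1.2]
  have hm : Measurable (fun c : Fin k → Col n => ovc e e' c - ob n k (ip2 e e')) := (measurable_ovc e e').sub_const _
  have i1 : Integrable (fun c : Fin k → Col n => |ovc e e' c - ob n k (ip2 e e')|) (mu n k) := by
    refine (integrable_const (n:ℝ)).mono' hm.abs.aestronglyMeasurable (Eventually.of_forall fun c => ?_)
    rw [Real.norm_of_nonneg (abs_nonneg _)]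
    exact hbd c
  have i2 : Integrable (fun c : Fin k → Col n => (ovc e e' c - ob n k (ip2 e e')) ^ 2) (mu n k) := by
    refine (integrable_const ((n:ℝ) ^ 2)).mono' (hm.pow_const 2).aestronglyMeasurable (Eventually.of_forall fun c => ?_)
    rw [Real.norm_of_nonneg (by positivity), ← sq_abs]
    have := hbd c
    gcongr
  rw [← ofReal_integral_eq_lintegral_ofReal i1 (Eventually.of_forall fun c => abs_nonneg _)]
  apply ENNReal.ofReal_le_ofReal
  calc ∫ c, |ovc e e' c - ob n k (ip2 e e')| ∂(mu n k)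
      ≤ ∫ c, ((1 / (2 * r ^ 3)) * (ovc e e' c - ob n k (ip2 e e')) ^ 2 + r ^ 3 / 2) ∂(mu n k) := by
        refine integral_mono i1 ((i2.const_mul _).add (integrable_const _)) fun c => ?_
        have h0 := abs_nonneg (ovc e e' c - ob n k (ip2 e e'))
        have e2 : (ovc e e' c - ob n k (ip2 e e')) ^ 2 = |ovc e e' c - ob n k (ip2 e e')| ^ 2 := (sq_abs _).symm
        rw [e2]
        set y := |ovc e e' c - ob n k (ip2 e e')|
        have h3 : 1 / (2 * r ^ 3) * y ^ 2 + r ^ 3 / 2 - y = (1 / (2 * r ^ 3)) * (y - r ^ 3) ^ 2 := by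
          field_simp
          ring
        have h4 : 0 ≤ (1 / (2 * r ^ 3)) * (y - r ^ 3) ^ 2 := by positivity
        linarith
    _ = (1 / (2 * r ^ 3)) * ∫ c, (ovc e e' c - ob n k (ip2 e e')) ^ 2 ∂(mu n k) + r ^ 3 / 2 := by
        rw [integral_add (i2.const_mul _) (integrable_const _), integral_const_mul]
        simp
    _ ≤ (1 / (2 * r ^ 3)) * (84 * r ^ 4 * r ^ 2) + r ^ 3 / 2 := by
        have hkn : (k:ℝ) ≤ n := by exact_mod_cast hk.le
        have : 84 * (k:ℝ) * √n ≤ 84 * r ^ 4 * r ^ 2 := by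
          rw [hr4, hr2]
          gcongr
        have := hL.trans this
        gcongr
    _ = 85 / 2 * r ^ 3 := by
        field_simp
        ring
    _ ≤ _ := by
        have : 0 ≤ r ^ 3 := by positivity
        linarith

/-- `L¹` convergence of the conditional variance -/
theorem V_L1 (he : ∀ a, Unit2 (e a)) {δ : ℝ} (hδ : 0 < δ) {k : ℕ} (hK : δ * n ≤ (n:ℝ) - k) (hkn : k < n) :
    ∫⁻ c, ENNReal.ofReal |addf (phV t e) k c - ∑ j ∈ Finset.range k, vb t e n j| ∂(mu n k)
      ≤ ENNReal.ofReal ((∑ a, ∑ b, |t a| * |t b|) * (43 / (δ ^ 2 * √√(n:ℝ)))) := by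
  have hn1 : (1:ℝ) ≤ n := by exact_mod_cast (by omega : 1 ≤ n)
  have hn0 : (0:ℝ) < n := by linarith
  have hr1 : 0 < √√(n:ℝ) := by positivity
  have hr2 : (√√(n:ℝ)) ^ 2 = √(n:ℝ) := Real.sq_sqrt (Real.sqrt_nonneg _)
  have hr4 : (√√(n:ℝ)) ^ 4 = n := by
    rw [show (√√(n:ℝ)) ^ 4 = ((√√(n:ℝ)) ^ 2) ^ 2 by ring, hr2, Real.sq_sqrt (by positivity)]
  set r := √√(n:ℝ) with hr
  refine (lint_addf (JM_phV t e) (vb t e n) k).trans ?_
  have hterm : ∀ j ∈ Finset.range k, ∫⁻ c, ∫⁻ x, ENNReal.ofReal |phV t e j c x - vb t e n j| ∂(kap n) ∂(mu n j)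
      ≤ ENNReal.ofReal ((∑ a, ∑ b, |t a| * |t b|) * (43 * r ^ 3 / (δ * n) ^ 2)) := by
    intro j hj
    have hjk := Finset.mem_range.1 hj
    have hjr : (j:ℝ) ≤ k := by exact_mod_cast hjk.le
    have hj1 : (j:ℝ) + 1 ≤ n := by exact_mod_cast (by omega : j + 1 ≤ n)
    have hmj : δ * n ≤ (n:ℝ) - j := by linarith
    have hm0 : 0 < (n:ℝ) - j := by linarith
    have hpt : ∀ (c : Fin j → Col n) (x : Col n), |phV t e j c x - vb t e n j|
        ≤ ∑ a, ∑ b, (|t a| * |t b| * (1 / (δ * n) ^ 2)) * |ovc (e a) (e b) c - ob n j (ip2 (e a) (e b))| := by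
      intro c x
      rw [phV_eq, vb, ← Finset.sum_sub_distrib]
      refine (Finset.abs_sum_le_sum_abs _ _).trans (Finset.sum_le_sum fun a _ => ?_)
      rw [← Finset.sum_sub_distrib]
      refine (Finset.abs_sum_le_sum_abs _ _).trans (Finset.sum_le_sum fun b _ => ?_)
      have hξ0 := ip2_nonneg (e a) (e b)
      have hξ1 := ip2_le (he a) (he b)
      set ξ := ip2 (e a) (e b)
      have hj0 : (0:ℝ) ≤ j := by positivity
      have hD : 0 < (n:ℝ) - j * ξ := by nlinarith
      have e1 : t a * t b * (ξ * ovc (e a) (e b) c / ((n:ℝ) - j) ^ 2) - t a * t b * (ξ / ((n:ℝ) - j * ξ))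
          = (t a * t b) * (ξ * (1 / ((n:ℝ) - j) ^ 2) * (ovc (e a) (e b) c - ob n j ξ)) := by
        unfold ob
        field_simp
      rw [e1, abs_mul, abs_mul (t a), abs_mul (ξ * (1 / ((n:ℝ) - j) ^ 2))]
      have e2 : |ξ * (1 / ((n:ℝ) - j) ^ 2)| ≤ 1 / (δ * n) ^ 2 := by
        rw [abs_of_nonneg (by positivity)]
        calc ξ * (1 / ((n:ℝ) - j) ^ 2) ≤ 1 * (1 / ((n:ℝ) - j) ^ 2) := by gcongr
          _ ≤ 1 * (1 / (δ * n) ^ 2) := by gcongr
          _ = _ := one_mul _
      calc |t a| * |t b| * (|ξ * (1 / ((n:ℝ) - j) ^ 2)| * |ovc (e a) (e b) c - ob n j ξ|)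
          ≤ |t a| * |t b| * ((1 / (δ * n) ^ 2) * |ovc (e a) (e b) c - ob n j ξ|) := by gcongr
        _ = _ := by ring
    calc ∫⁻ c, ∫⁻ x, ENNReal.ofReal |phV t e j c x - vb t e n j| ∂(kap n) ∂(mu n j)
        ≤ ∫⁻ c, ∫⁻ _, ENNReal.ofReal (∑ a, ∑ b, (|t a| * |t b| * (1 / (δ * n) ^ 2)) * |ovc (e a) (e b) c - ob n j (ip2 (e a) (e b))|) ∂(kap n) ∂(mu n j) :=
          lintegral_mono fun c => lintegral_mono fun x => ENNReal.ofReal_le_ofReal (hpt c x)
      _ = ∫⁻ c, ENNReal.ofReal (∑ a, ∑ b, (|t a| * |t b| * (1 / (δ * n) ^ 2)) * |ovc (e a) (e b) c - ob n j (ip2 (e a) (e b))|) ∂(mu n j) := by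
          refine lintegral_congr fun c => ?_
          rw [lintegral_const, measure_univ, mul_one]
      _ = ∑ a, ∑ b, ENNReal.ofReal (|t a| * |t b| * (1 / (δ * n) ^ 2)) * ∫⁻ c, ENNReal.ofReal |ovc (e a) (e b) c - ob n j (ip2 (e a) (e b))| ∂(mu n j) := by
          have hm : ∀ a b, Measurable (fun c : Fin j → Col n => ENNReal.ofReal |ovc (e a) (e b) c - ob n j (ip2 (e a) (e b))|) := by
            intro a b
            have := measurable_ovc (n := n) (k := j) (e a) (e b)
            fun_prop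
          have h1 : ∀ c : Fin j → Col n, ENNReal.ofReal (∑ a, ∑ b, (|t a| * |t b| * (1 / (δ * n) ^ 2)) * |ovc (e a) (e b) c - ob n j (ip2 (e a) (e b))|)
              = ∑ a, ∑ b, ENNReal.ofReal (|t a| * |t b| * (1 / (δ * n) ^ 2)) * ENNReal.ofReal |ovc (e a) (e b) c - ob n j (ip2 (e a) (e b))| := by
            intro c
            rw [ENNReal.ofReal_sum_of_nonneg (fun a _ => by positivity)]
            refine Finset.sum_congr rfl fun a _ => ?_
            rw [ENNReal.ofReal_sum_of_nonneg (fun b _ => by positivity)]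
            refine Finset.sum_congr rfl fun b _ => ?_
            rw [ENNReal.ofReal_mul (by positivity)]
          simp_rw [h1]
          rw [lintegral_finsetSum _ (fun a _ => Finset.measurable_sum _ fun b _ => (hm a b).const_mul _)]
          refine Finset.sum_congr rfl fun a _ => ?_
          rw [lintegral_finsetSum _ (fun b _ => (hm a b).const_mul _)]
          refine Finset.sum_congr rfl fun b _ => ?_
          rw [lintegral_const_mul _ (hm a b)]
      _ ≤ ∑ a, ∑ b, ENNReal.ofReal (|t a| * |t b| * (1 / (δ * n) ^ 2)) * ENNReal.ofReal (43 * r ^ 3) := by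
          refine Finset.sum_le_sum fun a _ => Finset.sum_le_sum fun b _ => ?_
          exact mul_le_mul_right (ov_L1 (he a) (he b) (by omega)) _
      _ = _ := by
          have h2 : ∀ a b, ENNReal.ofReal (|t a| * |t b| * (1 / (δ * n) ^ 2)) * ENNReal.ofReal (43 * r ^ 3)
              = ENNReal.ofReal (|t a| * |t b| * (43 * r ^ 3 / (δ * n) ^ 2)) := by
            intro a b
            rw [← ENNReal.ofReal_mul (by positivity)]
            congr 1
            ring
          simp_rw [h2]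
          have h3 : ∀ a, ∑ b, ENNReal.ofReal (|t a| * |t b| * (43 * r ^ 3 / (δ * n) ^ 2)) = ENNReal.ofReal (∑ b, |t a| * |t b| * (43 * r ^ 3 / (δ * n) ^ 2)) :=
            fun a => (ENNReal.ofReal_sum_of_nonneg (fun b _ => by positivity)).symm
          simp_rw [h3]
          rw [← ENNReal.ofReal_sum_of_nonneg (fun a _ => by positivity)]
          congr 1
          simp_rw [← Finset.sum_mul]
  refine (Finset.sum_le_sum hterm).trans ?_
  rw [Finset.sum_const, Finset.card_range, nsmul_eq_mul, ← ENNReal.ofReal_natCast, ← ENNReal.ofReal_mul (by positivity)]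
  apply ENNReal.ofReal_le_ofReal
  have hkr : (k:ℝ) ≤ n := by exact_mod_cast hkn.le
  have hS : 0 ≤ ∑ a, ∑ b, |t a| * |t b| := by positivity
  calc (k:ℝ) * ((∑ a, ∑ b, |t a| * |t b|) * (43 * r ^ 3 / (δ * n) ^ 2))
      ≤ n * ((∑ a, ∑ b, |t a| * |t b|) * (43 * r ^ 3 / (δ * n) ^ 2)) := by gcongr
    _ = (∑ a, ∑ b, |t a| * |t b|) * (43 / (δ ^ 2 * r)) := by
      rw [← hr4]
      field_simp

end

end Pool.Agent.helper13.SGC
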