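import Mathlib
/-! Asymptotics of Gamma ratios and of some sums. -/
set_option autoImplicit false
open Filter Topology
namespace Pool.Agent.helper13.SGC

/-- `log (Γ(m+h)/Γ(m)) - h log m` -/
noncomputable def lr (h : ℝ) (m : ℕ) : ℝ := Real.log (Real.Gamma ((m:ℝ) + h) / Real.Gamma (m:ℝ)) - h * Real.log m

lemma log_quad {x : ℝ} (hx : |x| ≤ 1/2) : |Real.log (1 + x) - (x - x ^ 2 / 2)| ≤ 2 * |x| ^ 3 := by
  have h1 : |(-x)| < 1 := by rw [abs_neg]; linarith
  have h := Real.abs_log_sub_add_sum_range_le h1 2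
  have e : (∑ i ∈ Finset.range 2, (-x) ^ (i + 1) / ((i:ℝ) + 1)) + Real.log (1 - -x) = Real.log (1 + x) - (x - x ^ 2 / 2) := by
    rw [sub_neg_eq_add]
    simp [Finset.sum_range_succ]
    ring
  rw [e, abs_neg] at h
  refine h.trans ?_
  have h2 : (1:ℝ)/2 ≤ 1 - |x| := by linarith
  rw [div_le_iff₀ (by linarith)]
  have : 0 ≤ |x| ^ (2 + 1) := by positivity
  have e3 : |x| ^ (2 + 1) = |x| ^ 3 := by norm_num
  rw [e3] at this ⊢
  nlinarith

lemma lr_succ {h : ℝ} (hh : 0 < h) {m : ℕ} (hm : 1 ≤ m) :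
    lr h (m + 1) - lr h m = Real.log (1 + h / m) - h * Real.log (1 + 1 / m) := by
  have hm0 : (0:ℝ) < m := by exact_mod_cast hm
  have g1 : Real.Gamma (((m + 1 : ℕ) : ℝ) + h) = ((m:ℝ) + h) * Real.Gamma ((m:ℝ) + h) := by
    push_cast
    rw [show (m:ℝ) + 1 + h = ((m:ℝ) + h) + 1 by ring, Real.Gamma_add_one (by positivity)]
  have g2 : Real.Gamma ((m + 1 : ℕ) : ℝ) = (m:ℝ) * Real.Gamma (m:ℝ) := by
    push_cast
    rw [Real.Gamma_add_one (by positivity)]
  have p1 : 0 < Real.Gamma ((m:ℝ) + h) := Real.Gamma_pos_of_pos (by positivity)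
  have p2 : 0 < Real.Gamma (m:ℝ) := Real.Gamma_pos_of_pos hm0
  have e1 : Real.Gamma (((m + 1 : ℕ) : ℝ) + h) / Real.Gamma ((m + 1 : ℕ) : ℝ)
      = (1 + h / m) * (Real.Gamma ((m:ℝ) + h) / Real.Gamma (m:ℝ)) := by
    rw [g1, g2]
    field_simp
  have e2 : Real.log (((m + 1 : ℕ) : ℝ)) = Real.log (1 + 1 / m) + Real.log m := by
    rw [← Real.log_mul (by positivity) (by positivity)]
    congr 1
    push_cast
    field_simp
  unfold lr
  rw [e1, Real.log_mul (by positivity) (by positivity), e2]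
  ring

lemma lr_tendsto {h : ℝ} (hh : 0 < h) : Tendsto (lr h) atTop (𝓝 0) := by
  have hG : 0 < Real.Gamma h := Real.Gamma_pos_of_pos hh
  have h1 := Real.GammaSeq_tendsto_Gamma h
  have hprod : ∀ m : ℕ, Real.Gamma (h + m) = Real.Gamma h * ∏ j ∈ Finset.range m, (h + j) := by
    intro m
    induction m with
    | zero => simp
    | succ m ih =>
      rw [Finset.prod_range_succ, ← mul_assoc, ← ih]
      push_cast
      rw [← add_assoc, Real.Gamma_add_one (by positivity)]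
      ring
  have h2 : Tendsto (fun m : ℕ => Real.log ((m:ℝ) / (m + h))) atTop (𝓝 0) := by
    have h3 : Tendsto (fun m : ℕ => (m:ℝ) / (m + h)) atTop (𝓝 1) := by
      have h4 : Tendsto (fun m : ℕ => 1 / (1 + h / (m:ℝ))) atTop (𝓝 (1 / (1 + 0))) := by
        refine Tendsto.div tendsto_const_nhds (tendsto_const_nhds.add ?_) (by norm_num)
        exact tendsto_const_nhds.div_atTop tendsto_natCast_atTop_atTop
      simp only [add_zero, div_one] at h4
      refine h4.congr' ?_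
      filter_upwards [eventually_gt_atTop 0] with m hm
      have : (0:ℝ) < m := by exact_mod_cast hm
      field_simp
    have := (Real.continuousAt_log (by norm_num : (1:ℝ) ≠ 0)).tendsto.comp h3
    rw [Real.log_one] at this
    exact this
  have h5 : Tendsto (fun m : ℕ => Real.log (Real.Gamma h) + Real.log ((m:ℝ) / (m + h)) - Real.log (Real.GammaSeq h m)) atTop
      (𝓝 (Real.log (Real.Gamma h) + 0 - Real.log (Real.Gamma h))) := by
    refine (tendsto_const_nhds.add h2).sub ?_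
    exact (Real.continuousAt_log hG.ne').tendsto.comp h1
  rw [add_zero, sub_self] at h5
  refine h5.congr' ?_
  filter_upwards [eventually_gt_atTop 0] with m hm
  have hm0 : (0:ℝ) < m := by exact_mod_cast hm
  have p1 : 0 < Real.Gamma ((m:ℝ) + h) := Real.Gamma_pos_of_pos (by positivity)
  have p2 : 0 < Real.Gamma (m:ℝ) := Real.Gamma_pos_of_pos hm0
  have e1 : Real.GammaSeq h m = (m:ℝ) ^ h * (m * Real.Gamma m) * Real.Gamma h / ((m + h) * Real.Gamma (m + h)) := by
    unfold Real.GammaSeq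
    have e2 : (∏ j ∈ Finset.range (m + 1), (h + (j:ℝ))) = ((m + h) * Real.Gamma (m + h)) / Real.Gamma h := by
      rw [eq_div_iff hG.ne', mul_comm, ← hprod, ← Real.Gamma_add_one (by positivity)]
      congr 1
      push_cast; ring
    have e3 : (m.factorial : ℝ) = m * Real.Gamma m := by
      rw [← Real.Gamma_add_one hm0.ne', Real.Gamma_nat_eq_factorial]
    rw [e2, e3]
    field_simp
  have hp : 0 < (m:ℝ) ^ h := Real.rpow_pos_of_pos hm0 h
  rw [e1, Real.log_div (by positivity) (by positivity), Real.log_div (by positivity) (by positivity),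
    Real.log_mul (by positivity) (by positivity), Real.log_mul (by positivity) (by positivity),
    Real.log_mul (by positivity) (by positivity), Real.log_mul (by positivity) (by positivity), Real.log_rpow hm0]
  unfold lr
  rw [Real.log_div (by positivity) (by positivity)]
  ring

/-- second order asymptotics -/
theorem lr_bound {h : ℝ} (hh : 0 < h) : ∃ (C : ℝ) (m₀ : ℕ), 0 ≤ C ∧ 1 ≤ m₀ ∧ ∀ m : ℕ, m₀ ≤ m →
    |lr h m - (h ^ 2 - h) / (2 * m)| ≤ C / (m:ℝ) ^ 2 := by
  set f : ℕ → ℝ := fun m => lr h m - (h ^ 2 - h) / (2 * m) with hf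
  set m₀ : ℕ := ⌈2 * h⌉₊ + 2 with hm₀
  set K : ℝ := 2 * h ^ 3 + 2 * h + |h ^ 2 - h| with hK
  have hK0 : 0 ≤ K := by positivity
  have hstep : ∀ m : ℕ, m₀ ≤ m → |f (m + 1) - f m| ≤ K / (m:ℝ) ^ 3 := by
    intro m hm
    have hm2 : (2:ℝ) ≤ m := by
      have : 2 ≤ m := by omega
      exact_mod_cast this
    have hmh : 2 * h ≤ m := by
      have h1 : 2 * h ≤ (⌈2 * h⌉₊ : ℝ) := Nat.le_ceil _
      have h2 : ((⌈2 * h⌉₊ + 2 : ℕ) : ℝ) ≤ m := by exact_mod_cast hm
      push_cast at h2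
      linarith
    have hm0 : (0:ℝ) < m := by linarith
    have q1 := log_quad (x := h / m) (by rw [abs_of_pos (by positivity), div_le_iff₀ hm0]; linarith)
    have q2 := log_quad (x := 1 / m) (by rw [abs_of_pos (by positivity), div_le_iff₀ hm0]; linarith)
    rw [abs_of_pos (a := h / (m:ℝ)) (by positivity)] at q1
    rw [abs_of_pos (a := 1 / (m:ℝ)) (by positivity)] at q2
    have e1 : f (m + 1) - f m = (Real.log (1 + h / m) - (h / m - (h / m) ^ 2 / 2))
        - h * (Real.log (1 + 1 / m) - (1 / m - (1 / m) ^ 2 / 2)) - (h ^ 2 - h) / 2 * (1 / (m ^ 2 * (m + 1))) := by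
      have := lr_succ hh (by omega : 1 ≤ m)
      have e2 : f (m + 1) - f m = (lr h (m + 1) - lr h m) - ((h ^ 2 - h) / (2 * ((m:ℝ) + 1)) - (h ^ 2 - h) / (2 * m)) := by
        simp only [hf]; push_cast; ring
      rw [e2, this]
      field_simp
      ring
    have b3 : |(h ^ 2 - h) / 2 * (1 / ((m:ℝ) ^ 2 * (m + 1)))| ≤ |h ^ 2 - h| / (m:ℝ) ^ 3 := by
      rw [abs_mul, abs_div, abs_of_pos (a := 1 / ((m:ℝ) ^ 2 * (m + 1))) (by positivity), abs_of_pos (a := (2:ℝ)) (by norm_num)]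
      rw [div_mul_div_comm, mul_one]
      refine div_le_div_of_nonneg_left (abs_nonneg _) (by positivity) ?_
      have : (0:ℝ) < (m:ℝ) ^ 2 := by positivity
      nlinarith
    have b1 : |Real.log (1 + h / m) - (h / m - (h / m) ^ 2 / 2)| ≤ 2 * h ^ 3 / (m:ℝ) ^ 3 := by
      refine q1.trans (le_of_eq ?_)
      rw [div_pow]; ring
    have b2 : |h * (Real.log (1 + 1 / m) - (1 / m - (1 / m) ^ 2 / 2))| ≤ 2 * h / (m:ℝ) ^ 3 := by
      rw [abs_mul, abs_of_pos hh]
      calc h * |Real.log (1 + 1 / m) - (1 / m - (1 / (m:ℝ)) ^ 2 / 2)| ≤ h * (2 * (1 / m) ^ 3) := by gcongr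
        _ = _ := by rw [div_pow]; ring
    rw [e1, hK, add_div, add_div]
    rw [abs_le] at b1 b2 b3 ⊢
    constructor <;> linarith [b1.1, b1.2, b2.1, b2.2, b3.1, b3.2]
  have htele : ∀ m : ℕ, m₀ ≤ m → ∀ p : ℕ, |f m| ≤ |f (m + p)| + (2 * K / (m:ℝ) ^ 2 - 2 * K / ((m:ℝ) + p) ^ 2) := by
    intro m hm p
    induction p with
    | zero => simp
    | succ p ih =>
      have h1 := hstep (m + p) (by omega)
      have hx0 : (0:ℝ) < (m:ℝ) + p := by
        have : (1:ℝ) ≤ m := by exact_mod_cast (by omega : 1 ≤ m)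
        positivity
      have hx1 : (1:ℝ) ≤ (m:ℝ) + p := by
        have : (1:ℝ) ≤ m := by exact_mod_cast (by omega : 1 ≤ m)
        have : (0:ℝ) ≤ p := by positivity
        linarith
      push_cast at h1
      have h2 : |f (m + p)| ≤ |f (m + (p + 1))| + K / ((m:ℝ) + p) ^ 3 := by
        have : |f (m + p)| ≤ |f (m + p + 1)| + |f (m + p + 1) - f (m + p)| := by
          have := abs_sub_abs_le_abs_sub (f (m + p)) (f (m + p + 1))
          rw [abs_sub_comm (f (m + p + 1))]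
          linarith
        rw [← add_assoc]
        linarith
      have h3 : K / ((m:ℝ) + p) ^ 3 ≤ 2 * K / ((m:ℝ) + p) ^ 2 - 2 * K / ((m:ℝ) + (p + 1)) ^ 2 := by
        set x := (m:ℝ) + p
        have e1 : (m:ℝ) + (p + 1) = x + 1 := by simp only [x]; ring
        rw [e1]
        have e2 : 2 * K / x ^ 2 - 2 * K / (x + 1) ^ 2 - K / x ^ 3 = K * (2 * x * (2 * x + 1) - (x + 1) ^ 2) / (x ^ 3 * (x + 1) ^ 2) := by
          field_simp
          ring
        have e3 : 0 ≤ K * (2 * x * (2 * x + 1) - (x + 1) ^ 2) / (x ^ 3 * (x + 1) ^ 2) := by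
          have : 0 ≤ 2 * x * (2 * x + 1) - (x + 1) ^ 2 := by nlinarith
          positivity
        linarith
      push_cast
      linarith
  have hf0 : Tendsto f atTop (𝓝 0) := by
    have h1 := lr_tendsto hh
    have h2 : Tendsto (fun m : ℕ => (h ^ 2 - h) / (2 * (m:ℝ))) atTop (𝓝 0) :=
      tendsto_const_nhds.div_atTop (tendsto_natCast_atTop_atTop.const_mul_atTop (by norm_num))
    have := h1.sub h2
    rw [sub_zero] at this
    exact this
  refine ⟨2 * K, m₀, by positivity, by omega, fun m hm => ?_⟩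
  have hlim : Tendsto (fun p : ℕ => |f (m + p)| + 2 * K / (m:ℝ) ^ 2) atTop (𝓝 (|(0:ℝ)| + 2 * K / (m:ℝ) ^ 2)) := by
    refine Tendsto.add ?_ tendsto_const_nhds
    exact (hf0.comp (tendsto_add_atTop_nat m |>.congr fun p => by ring)).abs
  rw [abs_zero, zero_add] at hlim
  refine ge_of_tendsto' hlim fun p => ?_
  have := htele m hm p
  have h2 : 0 ≤ 2 * K / ((m:ℝ) + p) ^ 2 := by positivity
  linarith

/-- Riemann type sum -/
lemma sum_bound {ξ : ℝ} (h0 : 0 ≤ ξ) (h1 : ξ ≤ 1) {n k : ℕ} (hk : k < n) :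
    |∑ j ∈ Finset.range k, ξ / ((n:ℝ) - j * ξ) - (Real.log n - Real.log (n - k * ξ))| ≤ 1 / ((n:ℝ) - k) := by
  have hx : ∀ j : ℕ, j ≤ k → (0:ℝ) < (n:ℝ) - j * ξ ∧ (n:ℝ) - j ≤ (n:ℝ) - j * ξ ∧ (1:ℝ) ≤ (n:ℝ) - j := by
    intro j hj
    have h2 : (j:ℝ) + 1 ≤ n := by exact_mod_cast (by omega : j + 1 ≤ n)
    have h3 : (0:ℝ) ≤ j := by positivity
    refine ⟨by nlinarith, by nlinarith, by linarith⟩
  have key : ∀ i : ℕ, i ≤ k → 0 ≤ (Real.log n - Real.log (n - i * ξ)) - ∑ j ∈ Finset.range i, ξ / ((n:ℝ) - j * ξ) ∧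
      (Real.log n - Real.log (n - i * ξ)) - ∑ j ∈ Finset.range i, ξ / ((n:ℝ) - j * ξ)
        ≤ ξ / ((n:ℝ) - i * ξ) - ξ / (n:ℝ) := by
    intro i hi
    induction i with
    | zero => simp
    | succ i ih =>
      have ih' := ih (by omega)
      rw [Finset.sum_range_succ]
      have a := hx i (by omega)
      have b := hx (i + 1) hi
      set D := (n:ℝ) - i * ξ with hD
      have hD' : (n:ℝ) - ((i + 1 : ℕ) : ℝ) * ξ = D - ξ := by rw [hD]; push_cast; ring
      rw [hD'] at b ⊢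
      have l1 : Real.log D - Real.log (D - ξ) ≤ ξ / (D - ξ) := by
        rw [← Real.log_div a.1.ne' b.1.ne']
        have := Real.log_le_sub_one_of_pos (div_pos a.1 b.1)
        refine this.trans (le_of_eq ?_)
        have := b.1.ne'
        field_simp
        ring
      have l2 : ξ / D ≤ Real.log D - Real.log (D - ξ) := by
        have h3 : Real.log (D - ξ) - Real.log D ≤ -(ξ / D) := by
          rw [← Real.log_div b.1.ne' a.1.ne']
          have := Real.log_le_sub_one_of_pos (div_pos b.1 a.1)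
          refine this.trans (le_of_eq ?_)
          have := a.1.ne'
          field_simp
          ring
        linarith
      constructor <;> linarith [ih'.1, ih'.2]
  have hf := key k le_rfl
  have c := hx k le_rfl
  have h5 : ξ / ((n:ℝ) - k * ξ) ≤ 1 / ((n:ℝ) - k) := by
    rw [div_le_div_iff₀ c.1 (by linarith)]
    nlinarith
  have h6 : 0 ≤ ξ / (n:ℝ) := by positivity
  rw [abs_le]
  constructor <;> linarith [hf.1, hf.2]

lemma floor_lt {τ : ℝ} (h0 : 0 < τ) (h1 : τ < 1) {n : ℕ} (hn : 1 ≤ n) : ⌊τ * n⌋₊ < n := by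
  have hn0 : (0:ℝ) < n := by exact_mod_cast hn
  rw [Nat.floor_lt (by positivity)]
  nlinarith

lemma floor_gap {τ : ℝ} (h0 : 0 < τ) (n : ℕ) : (1 - τ) * n ≤ (n:ℝ) - ⌊τ * n⌋₊ := by
  have := Nat.floor_le (by positivity : 0 ≤ τ * (n:ℝ))
  linarith

lemma floor_div_tendsto {τ : ℝ} (h0 : 0 < τ) : Tendsto (fun n : ℕ => (⌊τ * n⌋₊ : ℝ) / n) atTop (𝓝 τ) := by
  have := (tendsto_nat_floor_mul_div_atTop (R := ℝ) h0.le).comp tendsto_natCast_atTop_atTop
  exact this

theorem sum_tendsto {ξ τ : ℝ} (h0 : 0 ≤ ξ) (h1 : ξ ≤ 1) (hτ : 0 < τ) (hτ1 : τ < 1) :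
    Tendsto (fun n : ℕ => ∑ j ∈ Finset.range ⌊τ * n⌋₊, ξ / ((n:ℝ) - j * ξ)) atTop (𝓝 (-Real.log (1 - τ * ξ))) := by
  have hlim : Tendsto (fun n : ℕ => -Real.log (1 - (⌊τ * n⌋₊ : ℝ) / n * ξ)) atTop (𝓝 (-Real.log (1 - τ * ξ))) := by
    have : 0 < 1 - τ * ξ := by nlinarith
    refine ((Real.continuousAt_log this.ne').tendsto.comp ?_).neg
    exact tendsto_const_nhds.sub ((floor_div_tendsto hτ).mul_const ξ)
  have herr : Tendsto (fun n : ℕ => 1 / ((1 - τ) * (n:ℝ))) atTop (𝓝 0) :=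
    tendsto_const_nhds.div_atTop (tendsto_natCast_atTop_atTop.const_mul_atTop (by linarith))
  have hdiff : Tendsto (fun n : ℕ => ∑ j ∈ Finset.range ⌊τ * n⌋₊, ξ / ((n:ℝ) - j * ξ) - (-Real.log (1 - (⌊τ * n⌋₊ : ℝ) / n * ξ)))
      atTop (𝓝 0) := by
    rw [tendsto_zero_iff_abs_tendsto_zero]
    refine squeeze_zero' (Eventually.of_forall fun n => abs_nonneg _) ?_ herr
    filter_upwards [eventually_ge_atTop 1] with n hn
    have hn0 : (0:ℝ) < n := by exact_mod_cast hn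
    have hk := floor_lt hτ hτ1 hn
    have hb := sum_bound h0 h1 hk
    have hg := floor_gap hτ n
    have hk' : ((⌊τ * n⌋₊ : ℕ):ℝ) + 1 ≤ n := by exact_mod_cast hk
    have hk0 : (0:ℝ) ≤ ((⌊τ * n⌋₊ : ℕ):ℝ) := by positivity
    have e1 : Real.log n - Real.log (n - (⌊τ * n⌋₊ : ℝ) * ξ) = -Real.log (1 - (⌊τ * n⌋₊ : ℝ) / n * ξ) := by
      have hp : 0 < (n:ℝ) - (⌊τ * n⌋₊ : ℝ) * ξ := by nlinarith
      rw [← neg_sub, ← Real.log_div hp.ne' hn0.ne']
      congr 2
      field_simp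
    rw [Function.comp_apply, ← e1]
    refine hb.trans ?_
    refine one_div_le_one_div_of_le (by have : 0 < 1 - τ := by linarith
                                        positivity) hg
  have := hdiff.add hlim
  simp only [sub_add_cancel, zero_add] at this
  exact this

theorem lr_sum_tendsto {h τ : ℝ} (hh : 0 < h) (hτ : 0 < τ) (hτ1 : τ < 1) :
    Tendsto (fun n : ℕ => ∑ j ∈ Finset.range ⌊τ * n⌋₊, lr h (n - j)) atTop
      (𝓝 ((h ^ 2 - h) / 2 * (-Real.log (1 - τ)))) := by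
  obtain ⟨C, m₀, hC, hm₀, hb⟩ := lr_bound hh
  have h1 := (sum_tendsto (ξ := 1) (by norm_num) le_rfl hτ hτ1).const_mul ((h ^ 2 - h) / 2)
  simp only [mul_one] at h1
  have hδ : 0 < 1 - τ := by linarith
  have herr : Tendsto (fun n : ℕ => (C / (1 - τ) ^ 2) / (n:ℝ)) atTop (𝓝 0) :=
    tendsto_const_nhds.div_atTop tendsto_natCast_atTop_atTop
  have hdiff : Tendsto (fun n : ℕ => ∑ j ∈ Finset.range ⌊τ * n⌋₊, lr h (n - j)
      - (h ^ 2 - h) / 2 * ∑ j ∈ Finset.range ⌊τ * n⌋₊, 1 / ((n:ℝ) - j)) atTop (𝓝 0) := by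
    rw [tendsto_zero_iff_abs_tendsto_zero]
    refine squeeze_zero' (Eventually.of_forall fun n => abs_nonneg _) ?_ herr
    have hbig : ∀ᶠ n : ℕ in atTop, (m₀:ℝ) ≤ (1 - τ) * n :=
      (tendsto_natCast_atTop_atTop.const_mul_atTop hδ).eventually_ge_atTop _
    filter_upwards [eventually_ge_atTop 1, hbig] with n hn hbn
    have hn0 : (0:ℝ) < n := by exact_mod_cast hn
    have hk := floor_lt hτ hτ1 hn
    have hg := floor_gap hτ n
    rw [Function.comp_apply, Finset.mul_sum, ← Finset.sum_sub_distrib]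
    have hterm : ∀ j ∈ Finset.range ⌊τ * n⌋₊, |lr h (n - j) - (h ^ 2 - h) / 2 * (1 / ((n:ℝ) - j))| ≤ C / ((1 - τ) ^ 2 * n ^ 2) := by
      intro j hj
      have hjk := Finset.mem_range.1 hj
      have hjr : (j:ℝ) ≤ (⌊τ * n⌋₊ : ℝ) := by exact_mod_cast hjk.le
      have hcast : ((n - j : ℕ) : ℝ) = (n:ℝ) - j := by
        rw [Nat.cast_sub (by omega)]
      have hge : (m₀ : ℝ) ≤ ((n - j : ℕ) : ℝ) := by rw [hcast]; linarith
      have := hb (n - j) (by exact_mod_cast hge)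
      rw [hcast] at this
      have e1 : (h ^ 2 - h) / (2 * ((n:ℝ) - j)) = (h ^ 2 - h) / 2 * (1 / ((n:ℝ) - j)) := by
        rw [div_mul_div_comm, mul_one]
      rw [e1] at this
      refine this.trans ?_
      refine div_le_div_of_nonneg_left hC (by positivity) ?_
      rw [← mul_pow]
      have : 0 < (1 - τ) * n := by positivity
      gcongr
      linarith
    refine (Finset.abs_sum_le_sum_abs _ _).trans ((Finset.sum_le_sum hterm).trans ?_)
    rw [Finset.sum_const, Finset.card_range, nsmul_eq_mul]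
    have hkn : ((⌊τ * n⌋₊ : ℕ) : ℝ) ≤ n := by exact_mod_cast hk.le
    calc ((⌊τ * n⌋₊ : ℕ) : ℝ) * (C / ((1 - τ) ^ 2 * n ^ 2)) ≤ n * (C / ((1 - τ) ^ 2 * n ^ 2)) := by gcongr
      _ = _ := by field_simp
  have := hdiff.add h1
  simp only [sub_add_cancel, zero_add] at this
  exact this

end Pool.Agent.helper13.SGC
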