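import Mathlib
import Pool.Agent.helper13.SGC.Clt
import Pool.Agent.helper13.SGC.Gr
/-! The central limit theorem for the logarithm of the field. -/
set_option autoImplicit false
open MeasureTheory ProbabilityTheory Filter Topology
open scoped NNReal ENNReal ComplexConjugate Matrix Real
namespace Pool.Agent.helper13.SGC
open Pool.Agent.helper84.SG

lemma exp_lip (a b : ℝ) : |Real.exp a - Real.exp b| ≤ Real.exp (max a b) * |a - b| := by
  have key : ∀ a b : ℝ, a ≤ b → Real.exp b - Real.exp a ≤ Real.exp b * (b - a) := by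
    intro a b _
    have h1 := Real.add_one_le_exp (a - b)
    have h2 : Real.exp a = Real.exp b * Real.exp (a - b) := by rw [← Real.exp_add]; congr 1; ring
    rw [h2]
    have := Real.exp_pos b
    nlinarith
  rcases le_total a b with h | h
  · have h1 := key a b h
    have h2 := Real.exp_le_exp.2 h
    rw [max_eq_right h, abs_of_nonpos (by linarith), abs_of_nonpos (by linarith)]
    linarith
  · have h1 := key b a h
    have h2 := Real.exp_le_exp.2 h
    rw [max_eq_left h, abs_of_nonneg (by linarith), abs_of_nonneg (by linarith)]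
    linarith

section
variable {l : ℕ} {t : Fin l → ℝ} {e : Fin l → ℂ × ℂ}

/-- limiting variance -/
noncomputable def sg (t : Fin l → ℝ) (e : Fin l → ℂ × ℂ) (τ : ℝ) : ℝ :=
  ∑ a, ∑ b, t a * t b * (-Real.log (1 - τ * ip2 (e a) (e b)))

lemma vb_tendsto (he : ∀ a, Unit2 (e a)) {τ : ℝ} (hτ : 0 < τ) (hτ1 : τ < 1) :
    Tendsto (fun n : ℕ => ∑ j ∈ Finset.range ⌊τ * n⌋₊, vb t e n j) atTop (𝓝 (sg t e τ)) := by
  have h1 : ∀ n : ℕ, ∑ j ∈ Finset.range ⌊τ * n⌋₊, vb t e n j
      = ∑ a, ∑ b, t a * t b * ∑ j ∈ Finset.range ⌊τ * n⌋₊, (ip2 (e a) (e b) / ((n:ℝ) - j * ip2 (e a) (e b))) := by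
    intro n
    unfold vb
    rw [Finset.sum_comm]
    refine Finset.sum_congr rfl fun a _ => ?_
    rw [Finset.sum_comm]
    refine Finset.sum_congr rfl fun b _ => ?_
    rw [Finset.mul_sum]
  simp_rw [h1]
  unfold sg
  refine tendsto_finsetSum _ fun a _ => tendsto_finsetSum _ fun b _ => ?_
  exact (sum_tendsto (ip2_nonneg _ _) (ip2_le (he a) (he b)) hτ hτ1).const_mul _

/-- central limit theorem for the linear statistic -/
theorem clt_lin (he : ∀ a, Unit2 (e a)) {τ : ℝ} (hτ : 0 < τ) (hτ1 : τ < 1) :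
    Tendsto (fun n : ℕ => ∫ c, Complex.exp (Complex.I * (addf (phX (n := n) t e) ⌊τ * n⌋₊ c : ℝ)) ∂(mu n ⌊τ * n⌋₊)) atTop
      (𝓝 (Complex.exp (-(sg t e τ : ℂ) / 2))) := by
  have hδ : 0 < 1 - τ := by linarith
  set σ := sg t e τ with hσ
  set J : ℕ → ℂ := fun n => ∫ c, Complex.exp (Complex.I * (addf (phX (n := n) t e) ⌊τ * n⌋₊ c : ℝ)) ∂(mu n ⌊τ * n⌋₊) with hJ
  set Y : ℕ → ℂ := fun n => ∫ c, Zf (n := n) t e ⌊τ * n⌋₊ c ∂(mu n ⌊τ * n⌋₊) with hY
  have hn_at := tendsto_natCast_atTop_atTop (R := ℝ)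
  -- first
  have h1 : Tendsto Y atTop (𝓝 1) := by
    have hb : Tendsto (fun n : ℕ => (Real.exp (C2 t / (1 - τ)) * C5 t / ((1 - τ) * √(1 - τ))) / √(n:ℝ)) atTop (𝓝 0) :=
      tendsto_const_nhds.div_atTop (Real.tendsto_sqrt_atTop.comp hn_at)
    rw [tendsto_iff_norm_sub_tendsto_zero]
    refine squeeze_zero' (Eventually.of_forall fun n => norm_nonneg _) ?_ hb
    filter_upwards [eventually_ge_atTop 1] with n hn
    have hn0 : (0:ℝ) < n := by exact_mod_cast hn
    have hk := floor_lt hτ hτ1 hn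
    have hz := (Z_est (n := n) (t := t) he hδ (floor_gap hτ n) hk ⌊τ * n⌋₊ le_rfl).2
    refine hz.trans ?_
    have hkr : ((⌊τ * n⌋₊ : ℕ) : ℝ) ≤ n := by exact_mod_cast hk.le
    have hC5 := C5_nonneg t
    have hss : √(1 - τ) > 0 := Real.sqrt_pos.2 hδ
    have hsn : √(n:ℝ) > 0 := Real.sqrt_pos.2 hn0
    calc ((⌊τ * n⌋₊ : ℕ) : ℝ) * (Real.exp (C2 t / (1 - τ)) * (C5 t / (((1 - τ) * n) * √((1 - τ) * n))))
        ≤ n * (Real.exp (C2 t / (1 - τ)) * (C5 t / (((1 - τ) * n) * √((1 - τ) * n)))) := by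
          have : 0 ≤ (Real.exp (C2 t / (1 - τ)) * (C5 t / (((1 - τ) * n) * √((1 - τ) * n)))) := by positivity
          gcongr
      _ = _ := by
          rw [Real.sqrt_mul hδ.le]
          field_simp
  -- second
  have h2 : Tendsto (fun n => Y n - Complex.exp ((σ:ℂ) / 2) * J n) atTop (𝓝 0) := by
    set M : ℝ := Real.exp (max (C2 t / (1 - τ)) (σ / 2)) with hM
    set A : ℝ := (∑ a, ∑ b, |t a| * |t b|) with hA
    have hA0 : 0 ≤ A := by positivity
    have hb : Tendsto (fun n : ℕ => M / 2 * (A * (43 / (1 - τ) ^ 2) / √√(n:ℝ) + |∑ j ∈ Finset.range ⌊τ * n⌋₊, vb t e n j - σ|)) atTop (𝓝 0) := by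
      have q1 : Tendsto (fun n : ℕ => A * (43 / (1 - τ) ^ 2) / √√(n:ℝ)) atTop (𝓝 0) :=
        tendsto_const_nhds.div_atTop (Real.tendsto_sqrt_atTop.comp (Real.tendsto_sqrt_atTop.comp hn_at))
      have q2 : Tendsto (fun n : ℕ => |∑ j ∈ Finset.range ⌊τ * n⌋₊, vb t e n j - σ|) atTop (𝓝 0) := by
        have := ((vb_tendsto (t := t) he hτ hτ1).sub_const σ).abs
        rw [← hσ, sub_self, abs_zero] at this
        exact this
      have := (q1.add q2).const_mul (M / 2)
      rw [add_zero, mul_zero] at this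
      exact this
    rw [tendsto_zero_iff_norm_tendsto_zero]
    refine squeeze_zero' (Eventually.of_forall fun n => norm_nonneg _) ?_ hb
    filter_upwards [eventually_ge_atTop 1] with n hn
    have hn0 : (0:ℝ) < n := by exact_mod_cast hn
    have hk := floor_lt hτ hτ1 hn
    have hgap := floor_gap hτ n
    have hzi := (Z_est (n := n) (t := t) he hδ hgap hk ⌊τ * n⌋₊ le_rfl).1
    have hSm := measurable_addf (JM_phX (n := n) t e) ⌊τ * n⌋₊
    have hVm := measurable_addf (JM_phV (n := n) t e) ⌊τ * n⌋₊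
    have hJi : Integrable (fun c => Complex.exp (Complex.I * (addf (phX (n := n) t e) ⌊τ * n⌋₊ c : ℝ))) (mu n ⌊τ * n⌋₊) := by
      refine (integrable_const (1:ℝ)).mono' (by fun_prop) (Eventually.of_forall fun x => ?_)
      rw [mul_comm, Complex.norm_exp_ofReal_mul_I]
    simp only [hY, hJ]
    rw [← integral_const_mul, ← integral_sub hzi (hJi.const_mul _)]
    refine (norm_integral_le_lintegral_norm _).trans ?_
    have hL1 := V_L1 (n := n) (t := t) he hδ hgap hk
    have hpt : ∀ᵐ c ∂(mu n ⌊τ * n⌋₊), ENNReal.ofReal ‖Zf (n := n) t e ⌊τ * n⌋₊ c - Complex.exp ((σ:ℂ) / 2) *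
        Complex.exp (Complex.I * (addf (phX (n := n) t e) ⌊τ * n⌋₊ c : ℝ))‖ ≤
        ENNReal.ofReal (M / 2) * (ENNReal.ofReal |addf (phV (n := n) t e) ⌊τ * n⌋₊ c - ∑ j ∈ Finset.range ⌊τ * n⌋₊, vb t e n j|
          + ENNReal.ofReal |∑ j ∈ Finset.range ⌊τ * n⌋₊, vb t e n j - σ|) := by
      filter_upwards [V_bound (n := n) (t := t) he hδ hgap hk ⌊τ * n⌋₊ le_rfl] with c hc
      rw [← ENNReal.ofReal_add (abs_nonneg _) (abs_nonneg _), ← ENNReal.ofReal_mul (by positivity)]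
      apply ENNReal.ofReal_le_ofReal
      set V := addf (phV (n := n) t e) ⌊τ * n⌋₊ c
      set S := addf (phX (n := n) t e) ⌊τ * n⌋₊ c
      have e1 : Zf (n := n) t e ⌊τ * n⌋₊ c - Complex.exp ((σ:ℂ) / 2) * Complex.exp (Complex.I * (S : ℝ))
          = ((Real.exp (V / 2) - Real.exp (σ / 2) : ℝ) : ℂ) * Complex.exp (Complex.I * (S:ℝ)) := by
        unfold Zf
        rw [Complex.exp_add]
        push_cast
        ring
      rw [e1, norm_mul, mul_comm Complex.I, Complex.norm_exp_ofReal_mul_I, mul_one, Complex.norm_real, Real.norm_eq_abs]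
      refine (exp_lip _ _).trans ?_
      have hV : V / 2 ≤ C2 t / (1 - τ) := by
        have hkr : ((⌊τ * n⌋₊ : ℕ) : ℝ) ≤ n := by exact_mod_cast hk.le
        have hC2 := C2_nonneg t
        have h3 : ((⌊τ * n⌋₊ : ℕ) : ℝ) * (C2 t / ((1 - τ) * n)) ≤ C2 t / (1 - τ) := by
          calc ((⌊τ * n⌋₊ : ℕ) : ℝ) * (C2 t / ((1 - τ) * n)) ≤ n * (C2 t / ((1 - τ) * n)) := by gcongr
            _ = _ := by field_simp
        linarith [hc.1, hc.2]
      have e2 : |V / 2 - σ / 2| ≤ (1/2) * (|V - ∑ j ∈ Finset.range ⌊τ * n⌋₊, vb t e n j| + |∑ j ∈ Finset.range ⌊τ * n⌋₊, vb t e n j - σ|) := by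
        have : V / 2 - σ / 2 = (1/2) * (V - σ) := by ring
        rw [this, abs_mul, abs_of_pos (by norm_num : (0:ℝ) < 1/2)]
        have := abs_sub_le V (∑ j ∈ Finset.range ⌊τ * n⌋₊, vb t e n j) σ
        gcongr
      calc Real.exp (max (V / 2) (σ / 2)) * |V / 2 - σ / 2|
          ≤ M * ((1/2) * (|V - ∑ j ∈ Finset.range ⌊τ * n⌋₊, vb t e n j| + |∑ j ∈ Finset.range ⌊τ * n⌋₊, vb t e n j - σ|)) := by
            refine mul_le_mul ?_ e2 (abs_nonneg _) (Real.exp_pos _).le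
            exact Real.exp_le_exp.2 (max_le_max_right _ hV)
        _ = _ := by ring
    have hfin : ∫⁻ c, ENNReal.ofReal ‖Zf (n := n) t e ⌊τ * n⌋₊ c - Complex.exp ((σ:ℂ) / 2) *
        Complex.exp (Complex.I * (addf (phX (n := n) t e) ⌊τ * n⌋₊ c : ℝ))‖ ∂(mu n ⌊τ * n⌋₊)
        ≤ ENNReal.ofReal (M / 2 * (A * (43 / (1 - τ) ^ 2) / √√(n:ℝ) + |∑ j ∈ Finset.range ⌊τ * n⌋₊, vb t e n j - σ|)) := by
      refine (lintegral_mono_ae hpt).trans ?_
      have hm1 : Measurable (fun c => ENNReal.ofReal |addf (phV (n := n) t e) ⌊τ * n⌋₊ c - ∑ j ∈ Finset.range ⌊τ * n⌋₊, vb t e n j|) := by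
        fun_prop
      rw [lintegral_const_mul _ (hm1.add_const _), lintegral_add_left hm1, lintegral_const, measure_univ, mul_one,
        ENNReal.ofReal_mul (by positivity)]
      refine mul_le_mul_right ?_ _
      rw [ENNReal.ofReal_add (by positivity) (abs_nonneg _)]
      refine add_le_add_left (hL1.trans (ENNReal.ofReal_le_ofReal (le_of_eq ?_))) _
      have : (0:ℝ) < √√(n:ℝ) := by positivity
      rw [← hA]
      field_simp
    refine ENNReal.toReal_le_of_le_ofReal (by positivity) hfin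
  have h3 : Tendsto (fun n => Complex.exp ((σ:ℂ) / 2) * J n) atTop (𝓝 1) := by
    have := h1.sub h2
    rw [sub_zero] at this
    refine this.congr fun n => by ring
  have h4 := h3.const_mul (Complex.exp (-(σ:ℂ) / 2))
  rw [mul_one] at h4
  refine h4.congr fun n => ?_
  rw [← mul_assoc, ← Complex.exp_add]
  have : -(σ:ℂ) / 2 + (σ:ℂ) / 2 = 0 := by ring
  rw [this, Complex.exp_zero, one_mul]

end

end Pool.Agent.helper13.SGC
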