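import Mathlib
import Pool.Agent.helper13.SGC.CFin
/-! Module C: the logarithm of the field. -/
set_option autoImplicit false
open MeasureTheory ProbabilityTheory Filter Topology
open scoped NNReal ENNReal ComplexConjugate Matrix Real
namespace Pool.Agent.helper13.SGC
open Pool.Agent.helper84.SG

variable {n : ℕ}

/-- `T` -/
noncomputable def phT (e : ℂ × ℂ) (j : ℕ) (c : Fin j → Col n) (x : Col n) : ℝ := qf (Pj e c) (ge e x) / ((n:ℝ) - j) - 1
/-- `T² - 1/m` -/
noncomputable def phW (e : ℂ × ℂ) (j : ℕ) (c : Fin j → Col n) (x : Col n) : ℝ := phT e j c x ^ 2 - 1 / ((n:ℝ) - j)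
/-- remainder -/
noncomputable def phR (h : ℝ) (e : ℂ × ℂ) (j : ℕ) (c : Fin j → Col n) (x : Col n) : ℝ :=
  h * (Real.log (1 + phT e j c x) - (phT e j c x - phT e j c x ^ 2 / 2))

lemma JM_phT (e : ℂ × ℂ) : JM (n := n) (phT e) := by
  intro j
  unfold phT
  have := measurable_qfj (n := n) (j := j) e
  fun_prop

lemma JM_phW (e : ℂ × ℂ) : JM (n := n) (phW e) := by
  intro j
  unfold phW
  have := JM_phT (n := n) e j
  fun_prop

lemma JM_phR (h : ℝ) (e : ℂ × ℂ) : JM (n := n) (phR h e) := by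
  intro j
  unfold phR
  have := JM_phT (n := n) e j
  fun_prop

lemma phX_sum {l : ℕ} (t : Fin l → ℝ) (e : Fin l → ℂ × ℂ) (k : ℕ) (c : Fin k → Col n) :
    addf (phX t e) k c = ∑ a, t a * addf (phT (e a)) k c := by
  induction k with
  | zero => simp [addf]
  | succ k ih =>
    simp only [addf]
    rw [ih, phX, Xs]
    simp_rw [mul_add]
    rw [Finset.sum_add_distrib]
    rfl

/-- logarithm of the normalised field -/
noncomputable def Lf (h : ℝ) (e : ℂ × ℂ) {k : ℕ} (c : Fin k → Col n) : ℝ := Real.log (pj e c ^ h / nrm n k h)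

lemma Lf_expand {h : ℝ} (hh : 0 < h) {e : ℂ × ℂ} (he : Unit2 e) (k : ℕ) (hk : k < n) : ∀ᵐ c ∂(mu n k),
    Lf h e c = h * addf (phT e) k c - (h / 2) * addf (phW e) k c + addf (phR h e) k c
      - (h / 2) * ∑ j ∈ Finset.range k, 1 / ((n:ℝ) - j) - ∑ j ∈ Finset.range k, lr h (n - j) := by
  induction k with
  | zero =>
    refine Eventually.of_forall fun c => ?_
    simp [Lf, addf, pj, pr, nrm]
  | succ k ih =>
    have m1 := measurable_addf (JM_phT (n := n) e) (k + 1)
    have m2 := measurable_addf (JM_phW (n := n) e) (k + 1)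
    have m3 := measurable_addf (JM_phR (n := n) h e) (k + 1)
    have m4 : Measurable (fun c : Fin (k + 1) → Col n => Lf h e c) := by
      unfold Lf
      exact Real.measurable_log.comp (((measurable_pj e).pow_const h).div_const _)
    refine ae_succ (measurableSet_eq_fun m4 (by fun_prop)) ?_
    filter_upwards [ih (by omega), pos_ae he k (by omega)] with c hc hpos
    filter_upwards [pos_step (m := n - (k + 1)) (by omega) he hpos] with x hx
    have hkr : (k:ℝ) + 1 ≤ n := by exact_mod_cast (by omega : k + 1 ≤ n)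
    have hm0 : 0 < (n:ℝ) - k := by linarith
    have hr := ratio_pos (n := n) (k := k) (by omega) hh.le
    have hn := nrm_pos (n := n) (k := k) (by omega) hh.le
    rw [addf_snoc, addf_snoc, addf_snoc, Finset.sum_range_succ, Finset.sum_range_succ]
    have e1 : Lf h e (Fin.snoc c x : Fin (k + 1) → Col n) = Lf h e c + (h * Real.log (qf (Pj e c) (ge e x))
        - Real.log (Real.Gamma ((n : ℝ) - k + h) / Real.Gamma ((n : ℝ) - k))) := by
      unfold Lf
      rw [pj_snoc, nrm_succ, Real.mul_rpow hpos.le hx.le]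
      have hp1 : 0 < pj e c ^ h := Real.rpow_pos_of_pos hpos h
      have hp2 : 0 < qf (Pj e c) (ge e x) ^ h := Real.rpow_pos_of_pos hx h
      rw [Real.log_div (by positivity) (by positivity), Real.log_div (by positivity) (by positivity),
        Real.log_mul (by positivity) (by positivity), Real.log_mul (by positivity) hr.ne', Real.log_rpow hx]
      ring
    have e2 : Real.log (qf (Pj e c) (ge e x)) = Real.log ((n:ℝ) - k) + Real.log (1 + phT e k c x) := by
      unfold phT
      rw [← Real.log_mul hm0.ne' (by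
        have : 0 < qf (Pj e c) (ge e x) / ((n:ℝ) - k) := by positivity
        linarith)]
      congr 1
      field_simp
      ring
    have e3 : lr h (n - k) = Real.log (Real.Gamma ((n : ℝ) - k + h) / Real.Gamma ((n : ℝ) - k)) - h * Real.log ((n:ℝ) - k) := by
      unfold lr
      rw [Nat.cast_sub (by omega)]
    rw [e1, hc, e2, e3]
    unfold phW phR
    ring

/-- one step bounds -/
lemma step_T {e : ℂ × ℂ} (he : Unit2 e) {j : ℕ} (hj : j < n) {c : Fin j → Col n} (hc : 0 < pj e c) :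
    (∀ k : ℕ, Integrable (fun x => phT e j c x ^ k) (kap n)) ∧
    ∫ x, phT e j c x ∂(kap n) = 0 ∧ ∫ x, phT e j c x ^ 2 ∂(kap n) = 1 / ((n:ℝ) - j) ∧
    ∫ x, phT e j c x ^ 4 ∂(kap n) ≤ 9 / ((n:ℝ) - j) ^ 2 := by
  obtain ⟨m, hm⟩ : ∃ m, j + (m + 1) = n := ⟨n - (j + 1), by omega⟩
  have hmr : (n:ℝ) - j = (m:ℝ) + 1 := by rw [← hm]; push_cast; ring
  have := T_mom (isPr_Pj e c) (trace_Pj hm e hc) he
  unfold phT
  rw [hmr]
  exact this

lemma W_sq {e : ℂ × ℂ} (he : Unit2 e) {K : ℕ} (hK : K < n) (k : ℕ) (hk : k ≤ K) :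
    ∫⁻ c, ENNReal.ofReal (addf (phW e) k c ^ 2) ∂(mu n k) ≤ ENNReal.ofReal (∑ j ∈ Finset.range k, 9 / ((n:ℝ) - j) ^ 2) := by
  refine lint_addf_sq (JM_phW e) (fun j => 9 / ((n:ℝ) - j) ^ 2) K (fun j _ => by positivity) ?_ k hk
  intro j hj
  filter_upwards [pos_ae he j (by omega)] with c hc
  obtain ⟨hi, z, q, f⟩ := step_T he (by omega : j < n) hc
  have hjr : (j:ℝ) + 1 ≤ n := by exact_mod_cast (by omega : j + 1 ≤ n)
  have hm0 : 0 < (n:ℝ) - j := by linarith
  have e1 : ∀ x, phW e j c x = phT e j c x ^ 2 - 1 / ((n:ℝ) - j) := fun x => rfl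
  have e2 : ∀ x, phW e j c x ^ 2 = (1 / ((n:ℝ) - j)) ^ 2 + (-(2 * (1 / ((n:ℝ) - j)))) * phT e j c x ^ 2 + 1 * phT e j c x ^ 4 := by
    intro x; rw [e1]; ring
  have i1 : Integrable (fun x => phW e j c x) (kap n) := (hi 2).sub (integrable_const _)
  have i2 : Integrable (fun x => phW e j c x ^ 2) (kap n) := by
    simp_rw [e2]
    exact ((integrable_const _).add ((hi 2).const_mul _)).add ((hi 4).const_mul _)
  refine ⟨i1, i2, ?_, ?_⟩
  · simp_rw [e1]
    rw [integral_sub (hi 2) (integrable_const _), q]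
    simp
  · simp_rw [e2]
    rw [int_aff (hi 2) (hi 4), q]
    have : 0 ≤ (1 / ((n:ℝ) - j)) ^ 2 := by positivity
    nlinarith

lemma phR_pt {h : ℝ} (hh : 0 < h) {s : ℝ} (hs : 0 < s) (e : ℂ × ℂ) (j : ℕ) (c : Fin j → Col n) (x : Col n) :
    min 1 |phR h e j c x| ≤ (h * s + 16) * phT e j c x ^ 4 + (h / s) * phT e j c x ^ 2 := by
  unfold phR
  set T := phT e j c x
  have h0 := abs_nonneg T
  have e4 : T ^ 4 = |T| ^ 4 := by rw [← abs_pow, abs_of_nonneg (by positivity)]
  have e2 : T ^ 2 = |T| ^ 2 := (sq_abs _).symm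
  by_cases hT : |T| ≤ 1 / 2
  · refine (min_le_right _ _).trans ?_
    have h1 := log_quad hT
    rw [abs_mul, abs_of_pos hh]
    calc h * |Real.log (1 + T) - (T - T ^ 2 / 2)| ≤ h * (2 * |T| ^ 3) := by gcongr
      _ ≤ h * (s * |T| ^ 4 + 1 / s * |T| ^ 2) := by
        gcongr
        have : s * |T| ^ 4 + 1 / s * |T| ^ 2 - 2 * |T| ^ 3 = 1 / s * (|T| * (s * |T| - 1)) ^ 2 := by
          field_simp
          ring
        have h5 : 0 ≤ 1 / s * (|T| * (s * |T| - 1)) ^ 2 := by positivity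
        linarith
      _ ≤ _ := by
        rw [e4, e2]
        have : 0 ≤ |T| ^ 4 := by positivity
        have e5 : h * (s * |T| ^ 4 + 1 / s * |T| ^ 2) = h * s * |T| ^ 4 + h / s * |T| ^ 2 := by ring
        rw [e5]
        linarith
  · refine (min_le_left _ _).trans ?_
    push Not at hT
    have h2 : 1 ≤ 16 * |T| ^ 4 := by
      have h3 : (1/2:ℝ) ^ 4 ≤ |T| ^ 4 := by gcongr
      norm_num at h3
      linarith
    rw [e4, e2]
    have h4 : 0 ≤ h * s * |T| ^ 4 := by positivity
    have h5 : 0 ≤ h / s * |T| ^ 2 := by positivity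
    linarith

lemma R_step {h : ℝ} (hh : 0 < h) {e : ℂ × ℂ} (he : Unit2 e) {j : ℕ} (hj : j < n) :
    ∫⁻ c, ∫⁻ x, ENNReal.ofReal (min 1 |phR h e j c x|) ∂(kap n) ∂(mu n j)
      ≤ ENNReal.ofReal ((10 * h + 144) / (((n:ℝ) - j) * √((n:ℝ) - j))) := by
  have hjr : (j:ℝ) + 1 ≤ n := by exact_mod_cast (by omega : j + 1 ≤ n)
  have hm0 : 0 < (n:ℝ) - j := by linarith
  have hm1 : 1 ≤ (n:ℝ) - j := by linarith
  have hs : 0 < √((n:ℝ) - j) := Real.sqrt_pos.2 hm0
  have hss : √((n:ℝ) - j) * √((n:ℝ) - j) = (n:ℝ) - j := Real.mul_self_sqrt hm0.le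
  have hs1 : 1 ≤ √((n:ℝ) - j) := by rw [Real.one_le_sqrt]; exact hm1
  have hkey : ∀ᵐ c ∂(mu n j), ∫⁻ x, ENNReal.ofReal (min 1 |phR h e j c x|) ∂(kap n)
      ≤ ENNReal.ofReal ((10 * h + 144) / (((n:ℝ) - j) * √((n:ℝ) - j))) := by
    filter_upwards [pos_ae he j hj.le] with c hc
    obtain ⟨hi, z, q, f⟩ := step_T he hj hc
    have iI : Integrable (fun x => (h * √((n:ℝ) - j) + 16) * phT e j c x ^ 4 + (h / √((n:ℝ) - j)) * phT e j c x ^ 2) (kap n) :=
      ((hi 4).const_mul _).add ((hi 2).const_mul _)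
    calc ∫⁻ x, ENNReal.ofReal (min 1 |phR h e j c x|) ∂(kap n)
        ≤ ∫⁻ x, ENNReal.ofReal ((h * √((n:ℝ) - j) + 16) * phT e j c x ^ 4 + (h / √((n:ℝ) - j)) * phT e j c x ^ 2) ∂(kap n) :=
          lintegral_mono fun x => ENNReal.ofReal_le_ofReal (phR_pt hh hs e j c x)
      _ = ENNReal.ofReal (∫ x, ((h * √((n:ℝ) - j) + 16) * phT e j c x ^ 4 + (h / √((n:ℝ) - j)) * phT e j c x ^ 2) ∂(kap n)) := by
          rw [ofReal_integral_eq_lintegral_ofReal iI (Eventually.of_forall fun x => by positivity)]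
      _ ≤ _ := by
          apply ENNReal.ofReal_le_ofReal
          rw [integral_add ((hi 4).const_mul _) ((hi 2).const_mul _), integral_const_mul, integral_const_mul, q]
          set s := √((n:ℝ) - j) with hsdef
          rw [← hss] at f ⊢
          calc (h * s + 16) * ∫ x, phT e j c x ^ 4 ∂(kap n) + h / s * (1 / (s * s))
              ≤ (h * s + 16) * (9 / (s * s) ^ 2) + h / s * (1 / (s * s)) := by gcongr
            _ = (10 * h * s + 144) / (s ^ 4) := by field_simp; ring
            _ ≤ (10 * h * s + 144 * s) / (s ^ 4) := by gcongr; linarith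
            _ = _ := by field_simp
  refine (lintegral_mono_ae hkey).trans ?_
  rw [lintegral_const, measure_univ, mul_one]

/-- the total remainder tends to zero in probability -/
noncomputable def Rt (h τ : ℝ) (e : ℂ × ℂ) {k : ℕ} (c : Fin k → Col n) : ℝ :=
  Lf h e c - h * addf (phT e) k c + h ^ 2 / 2 * (-Real.log (1 - τ))

lemma measurable_Lf (h : ℝ) (e : ℂ × ℂ) {k : ℕ} : Measurable (fun c : Fin k → Col n => Lf h e c) := by
  unfold Lf
  exact Real.measurable_log.comp (((measurable_pj e).pow_const h).div_const _)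

theorem Rt_tendsto {h τ : ℝ} (hh : 0 < h) (hτ : 0 < τ) (hτ1 : τ < 1) {e : ℂ × ℂ} (he : Unit2 e) :
    Tendsto (fun n : ℕ => ∫ c, min 1 |Rt h τ e c| ∂(mu n ⌊τ * n⌋₊)) atTop (𝓝 0) := by
  have hδ : 0 < 1 - τ := by linarith
  have hn_at := tendsto_natCast_atTop_atTop (R := ℝ)
  set D : ℕ → ℝ := fun n => (h / 2) * ∑ j ∈ Finset.range ⌊τ * n⌋₊, 1 / ((n:ℝ) - j) + ∑ j ∈ Finset.range ⌊τ * n⌋₊, lr h (n - j)
    - h ^ 2 / 2 * (-Real.log (1 - τ)) with hD
  have hDt : Tendsto (fun n => |D n|) atTop (𝓝 0) := by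
    have q1 := (sum_tendsto (ξ := 1) (by norm_num) le_rfl hτ hτ1).const_mul (h / 2)
    have q2 := lr_sum_tendsto hh hτ hτ1
    have q3 := ((q1.add q2).sub_const (h ^ 2 / 2 * (-Real.log (1 - τ)))).abs
    have : |h / 2 * (-Real.log (1 - τ * 1)) + (h ^ 2 - h) / 2 * (-Real.log (1 - τ)) - h ^ 2 / 2 * (-Real.log (1 - τ))| = 0 := by
      rw [abs_eq_zero, mul_one]; ring
    rw [this] at q3
    refine q3.congr fun n => ?_
    simp only [hD, mul_one]
  have hb : Tendsto (fun n : ℕ => (h / 4 * (9 / (1 - τ) ^ 2 + 1)) / √(n:ℝ) + ((10 * h + 144) / ((1 - τ) * √(1 - τ))) / √(n:ℝ) + |D n|)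
      atTop (𝓝 0) := by
    have q1 : Tendsto (fun n : ℕ => (h / 4 * (9 / (1 - τ) ^ 2 + 1)) / √(n:ℝ)) atTop (𝓝 0) :=
      tendsto_const_nhds.div_atTop (Real.tendsto_sqrt_atTop.comp hn_at)
    have q2 : Tendsto (fun n : ℕ => ((10 * h + 144) / ((1 - τ) * √(1 - τ))) / √(n:ℝ)) atTop (𝓝 0) :=
      tendsto_const_nhds.div_atTop (Real.tendsto_sqrt_atTop.comp hn_at)
    have := (q1.add q2).add hDt
    simpa using this
  refine squeeze_zero' (Eventually.of_forall fun n => integral_nonneg fun c => by positivity) ?_ hb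
  filter_upwards [eventually_ge_atTop 1] with n hn
  have hn0 : (0:ℝ) < n := by exact_mod_cast hn
  have hk := floor_lt hτ hτ1 hn
  have hgap := floor_gap hτ n
  set k := ⌊τ * n⌋₊ with hkdef
  have hkr : (k:ℝ) ≤ n := by exact_mod_cast hk.le
  have hsn : 0 < √(n:ℝ) := Real.sqrt_pos.2 hn0
  have hssn : √(n:ℝ) * √(n:ℝ) = n := Real.mul_self_sqrt hn0.le
  have hRm : Measurable (fun c : Fin k → Col n => Rt h τ e c) := by
    unfold Rt
    have m1 := measurable_Lf (n := n) (k := k) h e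
    have m2 := measurable_addf (JM_phT (n := n) e) k
    fun_prop
  have hWm := measurable_addf (JM_phW (n := n) e) k
  have hR'm := measurable_addf (JM_phR (n := n) h e) k
  -- pointwise
  have hpt : ∀ᵐ c ∂(mu n k), ENNReal.ofReal (min 1 |Rt h τ e c|)
      ≤ (ENNReal.ofReal (h / 4 * √(n:ℝ)) * ENNReal.ofReal (addf (phW e) k c ^ 2) + ENNReal.ofReal (h / 4 / √(n:ℝ)))
        + ENNReal.ofReal (min 1 |addf (phR h e) k c|) + ENNReal.ofReal |D n| := by
    filter_upwards [Lf_expand hh he k hk] with c hc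
    have e1 : Rt h τ e c = (-(h / 2) * addf (phW e) k c + addf (phR h e) k c) + (-D n) := by
      unfold Rt
      rw [hc]
      simp only [hD]
      ring
    rw [← ENNReal.ofReal_mul (by positivity), ← ENNReal.ofReal_add (by positivity) (by positivity),
      ← ENNReal.ofReal_add (by positivity) (by positivity), ← ENNReal.ofReal_add (by positivity) (abs_nonneg _)]
    apply ENNReal.ofReal_le_ofReal
    rw [e1]
    refine (min_abs_add _ _).trans (add_le_add ((min_abs_add _ _).trans (add_le_add ?_ le_rfl)) ?_)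
    · refine (min_le_right _ _).trans ?_
      rw [abs_mul, abs_neg, abs_of_pos (by positivity : 0 < h / 2)]
      have e2 : addf (phW e) k c ^ 2 = |addf (phW e) k c| ^ 2 := (sq_abs _).symm
      rw [e2]
      set y := |addf (phW e) k c|
      have h3 : h / 4 * √(n:ℝ) * y ^ 2 + h / 4 / √(n:ℝ) - h / 2 * y = h / 4 / √(n:ℝ) * (√(n:ℝ) * y - 1) ^ 2 := by
        field_simp
        ring
      have h4 : 0 ≤ h / 4 / √(n:ℝ) * (√(n:ℝ) * y - 1) ^ 2 := by positivity
      linarith
    · rw [abs_neg]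
      exact min_le_right _ _
  have hfin : ∫⁻ c, ENNReal.ofReal (min 1 |Rt h τ e c|) ∂(mu n k)
      ≤ ENNReal.ofReal ((h / 4 * (9 / (1 - τ) ^ 2 + 1)) / √(n:ℝ) + ((10 * h + 144) / ((1 - τ) * √(1 - τ))) / √(n:ℝ) + |D n|) := by
    refine (lintegral_mono_ae hpt).trans ?_
    have a1 : Measurable (fun c : Fin k → Col n => ENNReal.ofReal (h / 4 * √(n:ℝ)) * ENNReal.ofReal (addf (phW e) k c ^ 2)) := by fun_prop
    have a2 : Measurable (fun c : Fin k → Col n => ENNReal.ofReal (h / 4 * √(n:ℝ)) * ENNReal.ofReal (addf (phW e) k c ^ 2) + ENNReal.ofReal (h / 4 / √(n:ℝ))) := a1.add_const _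
    have a3 : Measurable (fun c : Fin k → Col n => ENNReal.ofReal (min 1 |addf (phR h e) k c|)) := by fun_prop
    have a4 : Measurable (fun c : Fin k → Col n => ENNReal.ofReal (h / 4 * √(n:ℝ)) * ENNReal.ofReal (addf (phW e) k c ^ 2) + ENNReal.ofReal (h / 4 / √(n:ℝ)) + ENNReal.ofReal (min 1 |addf (phR h e) k c|)) := a2.add a3
    rw [lintegral_add_left a4, lintegral_add_left a2, lintegral_add_left a1, lintegral_const_mul _ (by fun_prop),
      lintegral_const, lintegral_const, measure_univ, mul_one, mul_one]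
    rw [ENNReal.ofReal_add (by positivity) (abs_nonneg _), ENNReal.ofReal_add (by positivity) (by positivity)]
    refine add_le_add (add_le_add ?_ ?_) le_rfl
    · have hW := W_sq (n := n) he hk k le_rfl
      calc ENNReal.ofReal (h / 4 * √(n:ℝ)) * ∫⁻ c, ENNReal.ofReal (addf (phW e) k c ^ 2) ∂(mu n k) + ENNReal.ofReal (h / 4 / √(n:ℝ))
          ≤ ENNReal.ofReal (h / 4 * √(n:ℝ)) * ENNReal.ofReal (∑ j ∈ Finset.range k, 9 / ((n:ℝ) - j) ^ 2) + ENNReal.ofReal (h / 4 / √(n:ℝ)) := by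
            exact add_le_add (mul_le_mul_right hW _) le_rfl
        _ ≤ _ := by
            rw [← ENNReal.ofReal_mul (by positivity), ← ENNReal.ofReal_add (mul_nonneg (by positivity) (Finset.sum_nonneg fun j _ => by positivity)) (by positivity)]
            apply ENNReal.ofReal_le_ofReal
            have hS : ∑ j ∈ Finset.range k, 9 / ((n:ℝ) - j) ^ 2 ≤ 9 / ((1 - τ) ^ 2 * n) := by
              calc ∑ j ∈ Finset.range k, 9 / ((n:ℝ) - j) ^ 2 ≤ ∑ j ∈ Finset.range k, 9 / ((1 - τ) * n) ^ 2 := by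
                    refine Finset.sum_le_sum fun j hj => ?_
                    have hjk : (j:ℝ) ≤ k := by exact_mod_cast (Finset.mem_range.1 hj).le
                    have : 0 < (1 - τ) * (n:ℝ) := by positivity
                    gcongr
                    linarith
                _ = k * (9 / ((1 - τ) * n) ^ 2) := by rw [Finset.sum_const, Finset.card_range, nsmul_eq_mul]
                _ ≤ n * (9 / ((1 - τ) * n) ^ 2) := by gcongr
                _ = _ := by field_simp
            calc h / 4 * √(n:ℝ) * ∑ j ∈ Finset.range k, 9 / ((n:ℝ) - j) ^ 2 + h / 4 / √(n:ℝ)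
                ≤ h / 4 * √(n:ℝ) * (9 / ((1 - τ) ^ 2 * n)) + h / 4 / √(n:ℝ) := by gcongr
              _ = h / 4 * √(n:ℝ) * (9 / ((1 - τ) ^ 2 * (√(n:ℝ) * √(n:ℝ)))) + h / 4 / √(n:ℝ) := by rw [hssn]
              _ = _ := by
                field_simp
    · refine (lint_addf_min (JM_phR h e) k).trans ?_
      have hterm : ∀ j ∈ Finset.range k, ∫⁻ c, ∫⁻ x, ENNReal.ofReal (min 1 |phR h e j c x|) ∂(kap n) ∂(mu n j)
          ≤ ENNReal.ofReal ((10 * h + 144) / (((1 - τ) * n) * √((1 - τ) * n))) := by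
        intro j hj
        have hjk := Finset.mem_range.1 hj
        have hjr : (j:ℝ) ≤ k := by exact_mod_cast hjk.le
        refine (R_step hh he (by omega : j < n)).trans (ENNReal.ofReal_le_ofReal ?_)
        have hle : (1 - τ) * n ≤ (n:ℝ) - j := by linarith
        have : 0 < (1 - τ) * (n:ℝ) := by positivity
        refine div_le_div_of_nonneg_left (by positivity) (by positivity) ?_
        exact mul_le_mul hle (Real.sqrt_le_sqrt hle) (Real.sqrt_nonneg _) (by linarith)
      refine (Finset.sum_le_sum hterm).trans ?_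
      rw [Finset.sum_const, Finset.card_range, nsmul_eq_mul, ← ENNReal.ofReal_natCast, ← ENNReal.ofReal_mul (by positivity)]
      apply ENNReal.ofReal_le_ofReal
      calc (k:ℝ) * ((10 * h + 144) / (((1 - τ) * n) * √((1 - τ) * n)))
          ≤ n * ((10 * h + 144) / (((1 - τ) * n) * √((1 - τ) * n))) := by gcongr
        _ = _ := by
          rw [Real.sqrt_mul hδ.le]
          have : 0 < √(1 - τ) := Real.sqrt_pos.2 hδ
          field_simp
  rw [integral_eq_lintegral_of_nonneg_ae (Eventually.of_forall fun c => by positivity) (by fun_prop)]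
  exact ENNReal.toReal_le_of_le_ofReal (by positivity) hfin

end Pool.Agent.helper13.SGC
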