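import Mathlib
import Pool.Agent.helper13.SGC.CLog
/-! Module C: final statements. -/
set_option autoImplicit false
open MeasureTheory ProbabilityTheory Filter Topology
open scoped NNReal ENNReal ComplexConjugate Matrix Real
namespace Pool.Agent.helper13.SGC
open Pool.Agent.helper84.SG

lemma Yf_eq {n : ℕ} (h : ℝ) {k : ℕ} (hk : k ≤ n) (M : (Fin n → Fin n → ℂ) × (Fin n → Fin n → ℂ)) (e : ℂ × ℂ) :
    Real.log (Yf h k hk M e) = Lf h e (cols hk M) := by
  unfold Yf Lf
  rw [gram_eq]

/-- the characteristic function on columns -/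
theorem Lf_clt {h τ : ℝ} (hh : 0 < h) (hτ : 0 < τ) (hτ1 : τ < 1) {l : ℕ} {e : Fin l → ℂ × ℂ}
    (he : ∀ a, Unit2 (e a)) (θ : Fin l → ℝ) :
    Tendsto (fun n : ℕ => ∫ c, Complex.exp (Complex.I * ((∑ a, θ a * Lf (n := n) h (e a) c : ℝ) : ℂ)) ∂(mu n ⌊τ * n⌋₊))
      atTop (𝓝 (Complex.exp (((-(h ^ 2 / 2) * ∑ a, ∑ b, θ a * θ b *
          (-Real.log (1 - τ * ip2 (e a) (e b))) : ℝ) : ℂ)
        - Complex.I * ((h ^ 2 / 2 * ∑ a, θ a * (-Real.log (1 - τ)) : ℝ) : ℂ)))) := by
  set κ : ℝ := h ^ 2 / 2 * ∑ a, θ a * (-Real.log (1 - τ)) with hκ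
  have h1 := (clt_lin (t := fun a => h * θ a) he hτ hτ1).const_mul (Complex.exp (-(Complex.I * (κ : ℂ))))
  have hsg : (sg (fun a => h * θ a) e τ : ℝ) = h ^ 2 * ∑ a, ∑ b, θ a * θ b * (-Real.log (1 - τ * ip2 (e a) (e b))) := by
    unfold sg
    rw [Finset.mul_sum]
    refine Finset.sum_congr rfl fun a _ => ?_
    rw [Finset.mul_sum]
    refine Finset.sum_congr rfl fun b _ => by ring
  have hlim : Complex.exp (-(Complex.I * (κ : ℂ))) * Complex.exp (-(sg (fun a => h * θ a) e τ : ℂ) / 2)
      = Complex.exp (((-(h ^ 2 / 2) * ∑ a, ∑ b, θ a * θ b *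
          (-Real.log (1 - τ * ip2 (e a) (e b))) : ℝ) : ℂ) - Complex.I * (κ : ℂ)) := by
    rw [← Complex.exp_add, hsg]
    congr 1
    push_cast
    ring
  rw [hlim] at h1
  have hdiff : Tendsto (fun n : ℕ => ∫ c, Complex.exp (Complex.I * ((∑ a, θ a * Lf (n := n) h (e a) c : ℝ) : ℂ)) ∂(mu n ⌊τ * n⌋₊)
      - Complex.exp (-(Complex.I * (κ : ℂ))) * ∫ c, Complex.exp (Complex.I * (addf (phX (n := n) (fun a => h * θ a) e) ⌊τ * n⌋₊ c : ℝ)) ∂(mu n ⌊τ * n⌋₊))
      atTop (𝓝 0) := by
    have hb : Tendsto (fun n : ℕ => ∑ a, (2 + |θ a|) * ∫ c, min 1 |Rt (n := n) h τ (e a) c| ∂(mu n ⌊τ * n⌋₊)) atTop (𝓝 0) := by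
      have : Tendsto (fun n : ℕ => ∑ a, (2 + |θ a|) * ∫ c, min 1 |Rt (n := n) h τ (e a) c| ∂(mu n ⌊τ * n⌋₊)) atTop (𝓝 (∑ a, (2 + |θ a|) * 0)) :=
        tendsto_finsetSum _ fun a _ => (Rt_tendsto hh hτ hτ1 (he a)).const_mul _
      simpa using this
    rw [tendsto_zero_iff_norm_tendsto_zero]
    refine squeeze_zero (fun n => norm_nonneg _) (fun n => ?_) hb
    set k := ⌊τ * n⌋₊
    have mL : ∀ a, Measurable (fun c : Fin k → Col n => Lf (n := n) h (e a) c) := fun a => measurable_Lf h (e a)
    have mS := measurable_addf (JM_phX (n := n) (fun a => h * θ a) e) k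
    have mR : ∀ a, Measurable (fun c : Fin k → Col n => Rt (n := n) h τ (e a) c) := by
      intro a
      unfold Rt
      have m1 := measurable_Lf (n := n) (k := k) h (e a)
      have m2 := measurable_addf (JM_phT (n := n) (e a)) k
      fun_prop
    have mF : Measurable (fun c : Fin k → Col n => Complex.exp (Complex.I * ((∑ a, θ a * Lf (n := n) h (e a) c : ℝ) : ℂ))) := by
      have : Measurable (fun c : Fin k → Col n => (∑ a, θ a * Lf (n := n) h (e a) c : ℝ)) :=
        Finset.measurable_sum _ fun a _ => (mL a).const_mul _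
      fun_prop
    have i1 : Integrable (fun c : Fin k → Col n => Complex.exp (Complex.I * ((∑ a, θ a * Lf (n := n) h (e a) c : ℝ) : ℂ))) (mu n k) := by
      refine (integrable_const (1:ℝ)).mono' mF.aestronglyMeasurable (Eventually.of_forall fun x => ?_)
      rw [mul_comm, Complex.norm_exp_ofReal_mul_I]
    have i2 : Integrable (fun c => Complex.exp (Complex.I * (addf (phX (n := n) (fun a => h * θ a) e) k c : ℝ))) (mu n k) := by
      refine (integrable_const (1:ℝ)).mono' (by fun_prop) (Eventually.of_forall fun x => ?_)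
      rw [mul_comm, Complex.norm_exp_ofReal_mul_I]
    rw [← integral_const_mul, ← integral_sub i1 (i2.const_mul _)]
    have iR : ∀ a, Integrable (fun c : Fin k → Col n => min 1 |Rt (n := n) h τ (e a) c|) (mu n k) := by
      intro a
      refine (integrable_const (1:ℝ)).mono' (by have := mR a; fun_prop) (Eventually.of_forall fun x => ?_)
      rw [Real.norm_of_nonneg (by positivity)]
      exact min_le_left _ _
    calc ‖∫ c, (Complex.exp (Complex.I * ((∑ a, θ a * Lf (n := n) h (e a) c : ℝ) : ℂ))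
          - Complex.exp (-(Complex.I * (κ : ℂ))) * Complex.exp (Complex.I * (addf (phX (n := n) (fun a => h * θ a) e) k c : ℝ))) ∂(mu n k)‖
        ≤ ∫ c, ∑ a, (2 + |θ a|) * min 1 |Rt (n := n) h τ (e a) c| ∂(mu n k) := by
          refine norm_integral_le_of_norm_le (integrable_finsetSum _ fun a _ => (iR a).const_mul _) (Eventually.of_forall fun c => ?_)
          set S := addf (phX (n := n) (fun a => h * θ a) e) k c with hS
          set R := ∑ a, θ a * Rt (n := n) h τ (e a) c with hR
          have e1 : (∑ a, θ a * Lf (n := n) h (e a) c : ℝ) = R + (S - κ) := by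
            rw [hS, phX_sum, hR, hκ, Finset.mul_sum, ← Finset.sum_sub_distrib, ← Finset.sum_add_distrib]
            refine Finset.sum_congr rfl fun a _ => ?_
            unfold Rt
            ring
          have e2 : Complex.exp (Complex.I * ((∑ a, θ a * Lf (n := n) h (e a) c : ℝ) : ℂ))
              - Complex.exp (-(Complex.I * (κ : ℂ))) * Complex.exp (Complex.I * (S : ℝ))
              = (Complex.exp (Complex.I * (R : ℝ)) - 1) * Complex.exp (Complex.I * ((S - κ : ℝ) : ℂ)) := by
            rw [e1, ← Complex.exp_add, sub_mul, one_mul, ← Complex.exp_add]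
            congr 2
            · push_cast; ring
            · push_cast; ring
          rw [e2, norm_mul, mul_comm Complex.I ((S - κ : ℝ) : ℂ), Complex.norm_exp_ofReal_mul_I, mul_one]
          have hsum : min 2 |R| ≤ ∑ a, (2 + |θ a|) * min 1 |Rt (n := n) h τ (e a) c| := by
            have hp : ∀ a, min 2 |θ a * Rt (n := n) h τ (e a) c| ≤ (2 + |θ a|) * min 1 |Rt (n := n) h τ (e a) c| := by
              intro a
              rw [abs_mul]
              have hθ := abs_nonneg (θ a)
              have hr := abs_nonneg (Rt (n := n) h τ (e a) c)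
              rcases min_cases 1 |Rt (n := n) h τ (e a) c| with h3 | h3
              · rw [h3.1, mul_one]
                exact (min_le_left _ _).trans (by linarith)
              · rw [h3.1]
                refine (min_le_right _ _).trans ?_
                nlinarith
            have hq : ∀ s : Finset (Fin l), min 2 |∑ a ∈ s, θ a * Rt (n := n) h τ (e a) c| ≤ ∑ a ∈ s, min 2 |θ a * Rt (n := n) h τ (e a) c| := by
              intro s
              induction s using Finset.induction_on with
              | empty => simp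
              | insert a s ha ih =>
                rw [Finset.sum_insert ha, Finset.sum_insert ha]
                refine le_trans ?_ (add_le_add le_rfl ih)
                have h4 := abs_add_le (θ a * Rt (n := n) h τ (e a) c) (∑ a ∈ s, θ a * Rt (n := n) h τ (e a) c)
                have h5 := abs_nonneg (θ a * Rt (n := n) h τ (e a) c)
                have h6 := abs_nonneg (∑ a ∈ s, θ a * Rt (n := n) h τ (e a) c)
                rcases min_cases 2 |θ a * Rt (n := n) h τ (e a) c| with h1 | h1 <;>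
                  rcases min_cases 2 |∑ a ∈ s, θ a * Rt (n := n) h τ (e a) c| with h2 | h2 <;>
                  rcases min_cases 2 |θ a * Rt (n := n) h τ (e a) c + ∑ a ∈ s, θ a * Rt (n := n) h τ (e a) c| with h3 | h3 <;>
                  linarith [h1.1, h1.2, h2.1, h2.2, h3.1, h3.2]
            exact (hq Finset.univ).trans (Finset.sum_le_sum fun a _ => hp a)
          refine le_trans (le_min ?_ ?_) hsum
          · calc ‖Complex.exp (Complex.I * (R:ℝ)) - 1‖ ≤ ‖Complex.exp (Complex.I * (R:ℝ))‖ + ‖(1:ℂ)‖ := norm_sub_le _ _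
              _ = 2 := by rw [mul_comm, Complex.norm_exp_ofReal_mul_I, norm_one]; norm_num
          · have := Real.norm_exp_I_mul_ofReal_sub_one_le (x := R)
            rwa [Real.norm_eq_abs] at this
      _ = ∑ a, (2 + |θ a|) * ∫ c, min 1 |Rt (n := n) h τ (e a) c| ∂(mu n k) := by
          rw [integral_finsetSum _ fun a _ => (iR a).const_mul _]
          refine Finset.sum_congr rfl fun a _ => ?_
          rw [integral_const_mul]
  have := hdiff.add h1
  simp only [sub_add_cancel, zero_add] at this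
  exact this

/-- C3 (CLT for the logarithm of the field, first `⌊τn⌋` columns) -/
theorem Yf_clt (h τ : ℝ) (hh : 0 < h) (hτ : 0 < τ) (hτ1 : τ < 1) (l : ℕ) (e : Fin l → ℂ × ℂ)
    (he : ∀ a, Unit2 (e a)) (θ : Fin l → ℝ) :
    Tendsto (fun n : ℕ => ∫ M, Complex.exp (Complex.I *
        ((∑ a, θ a * Real.log (Yf h ⌊τ * n⌋₊ (Nat.floor_le_of_le (by nlinarith [(Nat.cast_nonneg n : (0:ℝ) ≤ n)])) M (e a)) : ℝ) : ℂ)) ∂(pen n))
      atTop (𝓝 (Complex.exp (((-(h ^ 2 / 2) * ∑ a, ∑ b, θ a * θ b *
          (-Real.log (1 - τ * ip2 (e a) (e b))) : ℝ) : ℂ)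
        - Complex.I * ((h ^ 2 / 2 * ∑ a, θ a * (-Real.log (1 - τ)) : ℝ) : ℂ)))) := by
  refine (Lf_clt hh hτ hτ1 he θ).congr fun n => ?_
  have hk : ⌊τ * n⌋₊ ≤ n := Nat.floor_le_of_le (by nlinarith [(Nat.cast_nonneg n : (0:ℝ) ≤ n)])
  have mF : Measurable (fun c : Fin ⌊τ * n⌋₊ → Col n => Complex.exp (Complex.I * ((∑ a, θ a * Lf (n := n) h (e a) c : ℝ) : ℂ))) := by
    have : Measurable (fun c : Fin ⌊τ * n⌋₊ → Col n => (∑ a, θ a * Lf (n := n) h (e a) c : ℝ)) :=
      Finset.measurable_sum _ fun a _ => (measurable_Lf h (e a)).const_mul _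
    fun_prop
  rw [← mp_integral (mp_cols hk) mF.aestronglyMeasurable]
  simp_rw [Yf_eq]

end Pool.Agent.helper13.SGC
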